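import Pool.Agent.TH591.Lie.Bern

set_option autoImplicit false

/-!
Bernstein's inequality at zero for polynomials on `[-1, 1]`.
-/

namespace Pool.Agent.N555.RZ

open Real

/-- odd trigonometric sums with frequencies at most `κ` -/
def SP (κ : ℝ) (h : ℝ → ℝ) : Prop :=
  ∃ (J : Type) (_ : Fintype J) (b l : J → ℝ), (∀ j, |l j| ≤ κ) ∧ ∀ t, h t = ∑ j, b j * sin (t * l j)

theorem SP.mono {κ κ' : ℝ} {h : ℝ → ℝ} (H : SP κ h) (hk : κ ≤ κ') : SP κ' h := by
  obtain ⟨J, hJ, b, l, h1, h2⟩ := H
  exact ⟨J, hJ, b, l, fun j => (h1 j).trans hk, h2⟩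

theorem SP.zero (κ : ℝ) : SP κ (fun _ => 0) :=
  ⟨Empty, inferInstance, fun _ => 0, fun _ => 0, fun j => j.elim, fun t => by simp⟩

theorem SP.add {κ : ℝ} {h g : ℝ → ℝ} (H : SP κ h) (H' : SP κ g) : SP κ (fun t => h t + g t) := by
  obtain ⟨J, hJ, b, l, h1, h2⟩ := H
  obtain ⟨J', hJ', b', l', h1', h2'⟩ := H'
  refine ⟨J ⊕ J', inferInstance, Sum.elim b b', Sum.elim l l', ?_, fun t => ?_⟩
  · rintro (j | j)
    · exact h1 j
    · exact h1' j
  · show h t + g t = _
    rw [Fintype.sum_sum_type, h2, h2']
    rfl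

theorem SP.smul {κ : ℝ} {h : ℝ → ℝ} (H : SP κ h) (c : ℝ) : SP κ (fun t => c * h t) := by
  obtain ⟨J, hJ, b, l, h1, h2⟩ := H
  refine ⟨J, hJ, fun j => c * b j, l, h1, fun t => ?_⟩
  show c * h t = _
  rw [h2, Finset.mul_sum]
  refine Finset.sum_congr rfl fun j _ => ?_
  ring

theorem SP.cos {κ : ℝ} {h : ℝ → ℝ} (H : SP κ h) : SP (κ + 2) (fun t => Real.cos (2 * t) * h t) := by
  obtain ⟨J, hJ, b, l, h1, h2⟩ := H
  refine ⟨J ⊕ J, inferInstance, Sum.elim (fun j => b j / 2) (fun j => b j / 2),
    Sum.elim (fun j => l j + 2) (fun j => l j - 2), ?_, fun t => ?_⟩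
  · rintro (j | j)
    · have := abs_le.mp (h1 j)
      show |l j + 2| ≤ _
      rw [abs_le]
      constructor <;> linarith
    · have := abs_le.mp (h1 j)
      show |l j - 2| ≤ _
      rw [abs_le]
      constructor <;> linarith
  · show Real.cos (2 * t) * h t = _
    rw [Fintype.sum_sum_type, h2, Finset.mul_sum, ← Finset.sum_add_distrib]
    refine Finset.sum_congr rfl fun j _ => ?_
    simp only [Sum.elim_inl, Sum.elim_inr]
    have e1 : t * (l j + 2) = t * l j + 2 * t := by ring
    have e2 : t * (l j - 2) = t * l j - 2 * t := by ring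
    rw [e1, e2, sin_add, sin_sub]
    ring

theorem SP.sin_pow (k : ℕ) : SP (2 * k + 1) (fun t => sin t ^ (2 * k + 1)) := by
  induction k with
  | zero =>
    refine ⟨Unit, inferInstance, fun _ => 1, fun _ => 1, fun _ => ?_, fun t => ?_⟩
    · simp
    · simp
  | succ k ih =>
    have h1 : (fun t => sin t ^ (2 * (k + 1) + 1))
        = fun t => (1 / 2) * sin t ^ (2 * k + 1)
          + (-(1 / 2)) * (Real.cos (2 * t) * sin t ^ (2 * k + 1)) := by
      ext t
      have e : 2 * (k + 1) + 1 = (2 * k + 1) + 2 := by ring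
      rw [e, pow_add _ (2 * k + 1), cos_two_mul, cos_sq']
      ring
    rw [h1]
    have h2 := (ih.smul (1 / 2)).mono (κ' := 2 * k + 1 + 2) (by linarith)
    have h3 := ih.cos.smul (-(1 / 2))
    have h4 := h2.add h3
    have e : (2 * ((k + 1 : ℕ) : ℝ) + 1) = 2 * k + 1 + 2 := by push_cast; ring
    rw [e]
    exact h4

/-- Bernstein's inequality at zero. -/
theorem bern0 (N : ℕ) (hN : 1 ≤ N) (c : ℕ → ℝ) (M : ℝ)
    (h : ∀ ρ : ℝ, |ρ| ≤ 1 → |∑ k ∈ Finset.range (N + 1), c k * ρ ^ k| ≤ M) : |c 1| ≤ N * M := by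
  have hM0 : 0 ≤ M := (abs_nonneg _).trans (h 0 (by simp))
  -- for all larger constants
  have key : ∀ M' : ℝ, M < M' → |c 1| ≤ N * M' := by
    intro M' hM'
    have hM'0 : 0 < M' := lt_of_le_of_lt hM0 hM'
    -- odd part
    set q : ℝ → ℝ := fun ρ => ∑ k ∈ Finset.range (N + 1), (if Odd k then c k else 0) * ρ ^ k with hq
    have hqM : ∀ ρ : ℝ, |ρ| ≤ 1 → |q ρ| ≤ M := by
      intro ρ hρ
      have e : q ρ = ((∑ k ∈ Finset.range (N + 1), c k * ρ ^ k)
          - ∑ k ∈ Finset.range (N + 1), c k * (-ρ) ^ k) / 2 := by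
        rw [hq, ← Finset.sum_sub_distrib, Finset.sum_div]
        refine Finset.sum_congr rfl fun k _ => ?_
        split_ifs with hk
        · rw [hk.neg_pow]; ring
        · rw [(Nat.not_odd_iff_even.mp hk).neg_pow]; ring
      have h1 := abs_le.mp (h ρ hρ)
      have h2 := abs_le.mp (h (-ρ) (by rwa [abs_neg]))
      rw [e, abs_le]
      constructor <;> linarith
    -- trigonometric sum
    have hSP : ∀ n : ℕ, n ≤ N + 1 → SP N (fun t => ∑ k ∈ Finset.range n,
        (if Odd k then c k else 0) * sin t ^ k) := by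
      intro n
      induction n with
      | zero => intro _; simpa using SP.zero (N : ℝ)
      | succ n ih =>
        intro hn
        have h1 := ih (by omega)
        simp only [Finset.sum_range_succ]
        refine h1.add ?_
        split_ifs with hk
        · obtain ⟨r, hr⟩ := hk
          have h2 := (SP.sin_pow r).smul (c n)
          subst hr
          refine h2.mono ?_
          have : 2 * r + 1 ≤ N := by omega
          exact_mod_cast this
        · simpa using SP.zero (N : ℝ)
    obtain ⟨J, hJ, b, l, hl, hbl⟩ := hSP (N + 1) le_rfl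
    have h3 : ∀ t, ∑ j, b j * sin (t * l j) = q (sin t) := fun t => (hbl t).symm
    -- derivative at zero
    have hd1 : HasDerivAt (fun t => ∑ j, b j * sin (t * l j)) (∑ j, b j * l j) 0 := by
      have : ∀ j ∈ Finset.univ, HasDerivAt (fun t => b j * sin (t * l j)) (b j * l j) 0 := by
        intro j _
        have h4 : HasDerivAt (fun t : ℝ => t * l j) (l j) 0 := by
          simpa using (hasDerivAt_id (0 : ℝ)).mul_const (l j)
        have h5 := (h4.sin).const_mul (b j)
        simpa using h5
      exact HasDerivAt.fun_sum this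
    have hd2 : HasDerivAt (fun t => q (sin t)) (c 1) 0 := by
      have h6 : HasDerivAt q (c 1) 0 := by
        have h7 : ∀ k ∈ Finset.range (N + 1),
            HasDerivAt (fun ρ : ℝ => (if Odd k then c k else 0) * ρ ^ k)
              ((if Odd k then c k else 0) * (k * 0 ^ (k - 1))) 0 := by
          intro k _
          exact (hasDerivAt_pow k (0 : ℝ)).const_mul _
        have h8 := HasDerivAt.fun_sum h7
        have h9 : ∑ k ∈ Finset.range (N + 1), (if Odd k then c k else 0) * ((k : ℝ) * 0 ^ (k - 1))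
            = c 1 := by
          rw [Finset.sum_eq_single 1]
          · simp
          · intro k _ hk
            by_cases hk0 : k = 0
            · subst hk0; simp
            · have : k - 1 ≠ 0 := by omega
              rw [zero_pow this]; simp
          · intro hcon
            exact absurd (Finset.mem_range.mpr (by omega)) hcon
        rw [h9] at h8
        exact h8
      have h10 : HasDerivAt q (c 1) (sin 0) := by rw [sin_zero]; exact h6
      have h11 := h10.comp (0 : ℝ) (hasDerivAt_sin 0)
      rw [cos_zero, mul_one] at h11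
      exact h11
    have heq : ∑ j, b j * l j = c 1 := by
      have : (fun t => ∑ j, b j * sin (t * l j)) = fun t => q (sin t) := by
        ext t; exact h3 t
      rw [this] at hd1
      exact hd1.unique hd2
    have hb := Pool.Agent.TH591.Lie.bern_scalar (fun j => b j / M') l N
      (by exact_mod_cast hN) hl (by
        intro t
        have e : ∑ j, b j / M' * sin (t * l j) = q (sin t) / M' := by
          rw [← h3, Finset.sum_div]
          refine Finset.sum_congr rfl fun j _ => ?_
          ring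
        rw [e, abs_div, abs_of_pos hM'0, div_le_one hM'0]
        exact (hqM _ (abs_sin_le_one t)).trans hM'.le)
    have e : ∑ j, b j / M' * l j = c 1 / M' := by
      rw [← heq, Finset.sum_div]
      refine Finset.sum_congr rfl fun j _ => ?_
      ring
    rw [e, abs_div, abs_of_pos hM'0, div_le_iff₀ hM'0] at hb
    exact hb
  have hcont : Filter.Tendsto (fun M' : ℝ => (N : ℝ) * M') (nhdsWithin M (Set.Ioi M))
      (nhds (N * M)) := by
    have : Continuous fun M' : ℝ => (N : ℝ) * M' := by fun_prop
    exact this.continuousAt.tendsto.mono_left nhdsWithin_le_nhds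
  exact ge_of_tendsto hcont (Filter.eventually_of_mem self_mem_nhdsWithin key)

/-- the linear coefficient of a polynomial which is bounded on `[-1/2, 1/2]` -/
theorem bern_half (N : ℕ) (hN : 1 ≤ N) (c : ℕ → ℝ) (M : ℝ)
    (h : ∀ ρ : ℝ, |ρ| ≤ 1 / 2 → |∑ k ∈ Finset.range (N + 1), c k * ρ ^ k| ≤ M) :
    |c 1| ≤ 2 * N * M := by
  have h1 := bern0 N hN (fun k => c k * (1 / 2) ^ k) M (by
    intro ρ hρ
    have h2 := h (ρ / 2) (by
      rw [abs_div, abs_of_pos (by norm_num : (0 : ℝ) < 2)]
      linarith)
    refine le_trans (le_of_eq ?_) h2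
    congr 1
    refine Finset.sum_congr rfl fun k _ => ?_
    rw [div_pow, div_pow, one_pow]
    ring)
  simp only [pow_one, abs_mul] at h1
  rw [abs_of_pos (by norm_num : (0 : ℝ) < 1 / 2)] at h1
  linarith

end Pool.Agent.N555.RZ
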