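import Mathlib

set_option autoImplicit false

/-!
Moments of bilinear functions.
-/

namespace Pool.Agent.N555.RZ

open MeasureTheory Set
open scoped ENNReal RealInnerProductSpace

variable {d : ℕ}

/-- second moments of the Hilbert space valued function with the components `⟪c i, z⟫`. -/
theorem vec_moment (P : Measure (EuclideanSpace ℝ (Fin d))) [IsProbabilityMeasure P]
    (hmom : ∀ (w : EuclideanSpace ℝ (Fin d)) (p : ℕ), 1 ≤ p →
      ∫⁻ z, ENNReal.ofReal (|⟪w, z⟫| ^ (2 * p)) ∂P ≤ ENNReal.ofReal ((80 * p * ‖w‖) ^ (2 * p)))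
    (c : Fin d → EuclideanSpace ℝ (Fin d)) (σ : ℝ) (hσ : 0 ≤ σ) (hc : ∑ i, ‖c i‖ ^ 2 ≤ σ ^ 2)
    (s : ℕ) (hs : 1 ≤ s) :
    ∫⁻ z, ENNReal.ofReal ((∑ i, ⟪c i, z⟫ ^ 2) ^ s) ∂P ≤ ENNReal.ofReal ((80 * s * σ) ^ (2 * s)) := by
  classical
  set S : ℝ := ∑ i, ‖c i‖ ^ 2 with hS
  have hS0 : 0 ≤ S := Finset.sum_nonneg fun i _ => by positivity
  rcases hS0.eq_or_lt with h0 | hpos
  · have hc0 : ∀ i, c i = 0 := by
      intro i
      have := (Finset.sum_eq_zero_iff_of_nonneg (fun i _ => by positivity)).mp h0.symm i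
        (Finset.mem_univ i)
      simpa using this
    have : ∀ z : EuclideanSpace ℝ (Fin d), ENNReal.ofReal ((∑ i, ⟪c i, z⟫ ^ 2) ^ s) = 0 := by
      intro z
      simp [hc0, zero_pow (by omega : s ≠ 0)]
    simp [this]
  set w : Fin d → ℝ := fun i => ‖c i‖ ^ 2 / S with hw
  set u : Fin d → EuclideanSpace ℝ (Fin d) := fun i => (Real.sqrt S / ‖c i‖) • c i with hu
  have hw0 : ∀ i, 0 ≤ w i := fun i => by positivity
  have hw1 : ∑ i, w i = 1 := by
    rw [hw, ← Finset.sum_div, ← hS, div_self hpos.ne']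
  have hun : ∀ i, ‖u i‖ ≤ σ := by
    intro i
    have h1 : ‖u i‖ ≤ Real.sqrt S := by
      rw [hu]
      simp only [norm_smul, norm_div, Real.norm_eq_abs, abs_of_nonneg (Real.sqrt_nonneg S),
        abs_of_nonneg (norm_nonneg (c i))]
      by_cases h : ‖c i‖ = 0
      · rw [h]; simp
      · rw [div_mul_cancel₀ _ h]
    exact h1.trans (Real.sqrt_le_iff.mpr ⟨hσ, hc⟩)
  have hcu : ∀ i (z : EuclideanSpace ℝ (Fin d)), ⟪c i, z⟫ ^ 2 = w i * ⟪u i, z⟫ ^ 2 := by
    intro i z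
    by_cases h : c i = 0
    · simp [hw, hu, h]
    · have hn : ‖c i‖ ≠ 0 := by simpa using h
      rw [hw, hu]
      simp only [inner_smul_left, RCLike.conj_to_real, mul_pow, div_pow, Real.sq_sqrt hS0]
      field_simp
  have hpt : ∀ z : EuclideanSpace ℝ (Fin d), (∑ i, ⟪c i, z⟫ ^ 2) ^ s
      ≤ ∑ i, w i * |⟪u i, z⟫| ^ (2 * s) := by
    intro z
    have h1 := Real.pow_arith_mean_le_arith_mean_pow Finset.univ w (fun i => ⟪u i, z⟫ ^ 2)
      (fun i _ => hw0 i) hw1 (fun i _ => sq_nonneg _) s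
    simp only [hcu]
    refine h1.trans (le_of_eq ?_)
    refine Finset.sum_congr rfl fun i _ => ?_
    rw [← sq_abs ⟪u i, z⟫, ← pow_mul]
  calc ∫⁻ z, ENNReal.ofReal ((∑ i, ⟪c i, z⟫ ^ 2) ^ s) ∂P
      ≤ ∫⁻ z, ∑ i, ENNReal.ofReal (w i) * ENNReal.ofReal (|⟪u i, z⟫| ^ (2 * s)) ∂P := by
        refine lintegral_mono fun z => ?_
        refine (ENNReal.ofReal_le_ofReal (hpt z)).trans ?_
        rw [ENNReal.ofReal_sum_of_nonneg (fun i _ => mul_nonneg (hw0 i) (by positivity))]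
        refine Finset.sum_le_sum fun i _ => ?_
        rw [ENNReal.ofReal_mul (hw0 i)]
    _ = ∑ i, ENNReal.ofReal (w i) * ∫⁻ z, ENNReal.ofReal (|⟪u i, z⟫| ^ (2 * s)) ∂P := by
        rw [lintegral_finsetSum]
        · refine Finset.sum_congr rfl fun i _ => ?_
          rw [lintegral_const_mul' _ _ ENNReal.ofReal_ne_top]
        · intro i _
          refine Measurable.const_mul ?_ _
          refine Measurable.ennreal_ofReal ?_
          have : Continuous fun z : EuclideanSpace ℝ (Fin d) => |⟪u i, z⟫| ^ (2 * s) := by fun_prop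
          exact this.measurable
    _ ≤ ∑ i, ENNReal.ofReal (w i) * ENNReal.ofReal ((80 * s * σ) ^ (2 * s)) := by
        refine Finset.sum_le_sum fun i _ => ?_
        gcongr
        refine (hmom (u i) s hs).trans ?_
        have := hun i
        gcongr
    _ = ENNReal.ofReal ((80 * s * σ) ^ (2 * s)) := by
        rw [← Finset.sum_mul, ← ENNReal.ofReal_sum_of_nonneg (fun i _ => hw0 i), hw1,
          ENNReal.ofReal_one, one_mul]

/-- moments of a bilinear function -/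
theorem bil_moment (P : Measure (EuclideanSpace ℝ (Fin d))) [IsProbabilityMeasure P]
    (hmom : ∀ (w : EuclideanSpace ℝ (Fin d)) (p : ℕ), 1 ≤ p →
      ∫⁻ z, ENNReal.ofReal (|⟪w, z⟫| ^ (2 * p)) ∂P ≤ ENNReal.ofReal ((80 * p * ‖w‖) ^ (2 * p)))
    (c : Fin d → EuclideanSpace ℝ (Fin d)) (σ : ℝ) (hσ : 0 ≤ σ) (hc : ∑ i, ‖c i‖ ^ 2 ≤ σ ^ 2)
    (s : ℕ) (hs : 1 ≤ s) :
    ∫⁻ p : EuclideanSpace ℝ (Fin d) × EuclideanSpace ℝ (Fin d),
      ENNReal.ofReal (|∑ i, ⟪c i, p.1⟫ * p.2 i| ^ (2 * s)) ∂(P.prod P)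
      ≤ ENNReal.ofReal ((6400 * s ^ 2 * σ) ^ (2 * s)) := by
  have hm : Measurable fun p : EuclideanSpace ℝ (Fin d) × EuclideanSpace ℝ (Fin d) =>
      ENNReal.ofReal (|∑ i, ⟪c i, p.1⟫ * p.2 i| ^ (2 * s)) := by
    refine Measurable.ennreal_ofReal ?_
    have : Continuous fun p : EuclideanSpace ℝ (Fin d) × EuclideanSpace ℝ (Fin d) =>
        |∑ i, ⟪c i, p.1⟫ * p.2 i| ^ (2 * s) := by fun_prop
    exact this.measurable
  rw [lintegral_prod _ hm.aemeasurable]
  calc ∫⁻ x, ∫⁻ y, ENNReal.ofReal (|∑ i, ⟪c i, x⟫ * y i| ^ (2 * s)) ∂P ∂P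
      ≤ ∫⁻ x, ENNReal.ofReal ((80 * s) ^ (2 * s)) * ENNReal.ofReal ((∑ i, ⟪c i, x⟫ ^ 2) ^ s) ∂P := by
        refine lintegral_mono fun x => ?_
        set v : EuclideanSpace ℝ (Fin d) := WithLp.toLp 2 fun i => ⟪c i, x⟫ with hv
        have h1 : ∀ y : EuclideanSpace ℝ (Fin d), ∑ i, ⟪c i, x⟫ * y i = ⟪v, y⟫ := by
          intro y
          rw [PiLp.inner_apply]
          refine Finset.sum_congr rfl fun i _ => ?_
          rw [hv]
          simp [mul_comm]
        have h2 : ‖v‖ ^ 2 = ∑ i, ⟪c i, x⟫ ^ 2 := by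
          rw [EuclideanSpace.norm_sq_eq]
          refine Finset.sum_congr rfl fun i _ => ?_
          rw [hv, Real.norm_eq_abs, sq_abs]
        simp only [h1]
        refine (hmom v s hs).trans ?_
        rw [← ENNReal.ofReal_mul (by positivity), ← h2, ← pow_mul, ← mul_pow]
    _ = ENNReal.ofReal ((80 * s) ^ (2 * s)) * ∫⁻ x, ENNReal.ofReal ((∑ i, ⟪c i, x⟫ ^ 2) ^ s) ∂P := by
        rw [lintegral_const_mul' _ _ ENNReal.ofReal_ne_top]
    _ ≤ ENNReal.ofReal ((80 * s) ^ (2 * s)) * ENNReal.ofReal ((80 * s * σ) ^ (2 * s)) := by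
        gcongr
        exact vec_moment P hmom c σ hσ hc s hs
    _ = ENNReal.ofReal ((6400 * s ^ 2 * σ) ^ (2 * s)) := by
        rw [← ENNReal.ofReal_mul (by positivity), ← mul_pow]
        congr 2
        ring

/-- elementary sum -/
theorem sum_elem (m : ℕ) : ∑ s ∈ Finset.range m, ((s : ℝ) + 1) * (1 / 2) ^ s
    = 4 - (m + 2) * 2 * (1 / 2) ^ m := by
  induction m with
  | zero => norm_num
  | succ m ih =>
    rw [Finset.sum_range_succ, ih]
    push_cast
    ring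

/-- The excess of the Riesz product. -/
theorem eta_bound {W : Type*} [MeasurableSpace W] (Q : Measure W) [IsProbabilityMeasure Q]
    (h : W → ℝ) (hm : Measurable h) (h1 : ∀ w, |h w| ≤ 1) (B : ℝ) (hB : 0 ≤ B)
    (hmom : ∀ s : ℕ, 1 ≤ s → ∫⁻ w, ENNReal.ofReal (|h w| ^ (2 * s)) ∂Q
      ≤ ENNReal.ofReal ((B * s ^ 2) ^ (2 * s)))
    (m : ℕ) (x : ℝ) (hx : x = Real.exp 1 * B * m) (hxm : x * m ≤ 1 / 2) :
    ∫ w, ((1 + |h w|) ^ m - 1) ∂Q ≤ 4 * x := by
  have hx0 : 0 ≤ x := by rw [hx]; positivity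
  have hint : ∀ s : ℕ, Integrable (fun w => |h w| ^ s) Q := by
    intro s
    refine Integrable.of_bound ((_root_.continuous_abs.measurable.comp hm).pow_const s).aestronglyMeasurable 1
      (Filter.Eventually.of_forall fun w => ?_)
    rw [Real.norm_eq_abs, abs_pow, abs_abs]
    exact pow_le_one₀ (abs_nonneg _) (h1 w)
  -- moments
  have hmo : ∀ s : ℕ, 1 ≤ s → ∫ w, |h w| ^ s ∂Q ≤ (B * s ^ 2) ^ s := by
    intro s hs
    have h2 : ∫ w, |h w| ^ (2 * s) ∂Q ≤ (B * s ^ 2) ^ (2 * s) := by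
      rw [integral_eq_lintegral_of_nonneg_ae (Filter.Eventually.of_forall fun _ => by positivity)
        (hint _).aestronglyMeasurable]
      exact ENNReal.toReal_le_of_le_ofReal (by positivity) (hmom s hs)
    have h3 : (∫ w, |h w| ^ s ∂Q) ^ 2 ≤ ∫ w, |h w| ^ (2 * s) ∂Q := by
      have h4 : 0 ≤ ∫ w, (|h w| ^ s - ∫ w, |h w| ^ s ∂Q) ^ 2 ∂Q :=
        integral_nonneg fun w => sq_nonneg _
      set I := ∫ w, |h w| ^ s ∂Q with hI
      have e : ∀ w, (|h w| ^ s - I) ^ 2 = |h w| ^ (2 * s) - 2 * I * |h w| ^ s + I ^ 2 := by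
        intro w; ring
      simp only [e] at h4
      have e5 : ∫ w, (|h w| ^ (2 * s) - 2 * I * |h w| ^ s + I ^ 2) ∂Q
          = ∫ w, |h w| ^ (2 * s) ∂Q - 2 * I * I + I ^ 2 := by
        have e6 := integral_add ((hint (2 * s)).sub ((hint s).const_mul (2 * I)))
          (integrable_const (I ^ 2))
        have e7 := integral_sub (hint (2 * s)) ((hint s).const_mul (2 * I))
        have e8 := integral_const_mul (μ := Q) (2 * I) (fun w => |h w| ^ s)
        have e9 : ∫ _w : W, I ^ 2 ∂Q = I ^ 2 := by simp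
        rw [e9] at e6
        rw [e8, ← hI] at e7
        rw [← e7]
        exact e6
      rw [e5] at h4
      nlinarith
    have h5 : (∫ w, |h w| ^ s ∂Q) ^ 2 ≤ ((B * s ^ 2) ^ s) ^ 2 := by
      refine (h3.trans h2).trans (le_of_eq ?_)
      rw [← pow_mul, mul_comm s 2]
    exact le_of_sq_le_sq h5 (by positivity)
  -- binomial expansion
  have hbin : ∀ w, (1 + |h w|) ^ m - 1
      = ∑ s ∈ Finset.range m, (m.choose (s + 1) : ℝ) * |h w| ^ (s + 1) := by
    intro w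
    rw [add_comm, add_pow, Finset.sum_range_succ']
    simp only [one_pow, mul_one, pow_zero, Nat.choose_zero_right, Nat.cast_one]
    rw [add_sub_cancel_right]
    refine Finset.sum_congr rfl fun s _ => ?_
    ring
  simp only [hbin]
  rw [integral_finsetSum _ (fun s _ => (hint _).const_mul _)]
  simp only [integral_const_mul]
  have hterm : ∀ s ∈ Finset.range m, (m.choose (s + 1) : ℝ) * ∫ w, |h w| ^ (s + 1) ∂Q
      ≤ x * (((s : ℝ) + 1) * (1 / 2) ^ s) := by
    intro s hs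
    have hsm : s + 1 ≤ m := by
      have := Finset.mem_range.mp hs
      omega
    have hsm' : ((s : ℝ) + 1) ≤ m := by exact_mod_cast hsm
    have e1 : (m.choose (s + 1) : ℝ) ≤ m ^ (s + 1) / (s + 1).factorial :=
      Nat.choose_le_pow_div (s + 1) m
    have e2 := hmo (s + 1) (by omega)
    have e3 : ((s : ℝ) + 1) ^ (s + 1) / (s + 1).factorial ≤ Real.exp 1 ^ (s + 1) := by
      have := Real.pow_div_factorial_le_exp ((s : ℝ) + 1) (by positivity) (s + 1)
      rw [← Real.exp_nat_mul, mul_one]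
      push_cast at this ⊢
      exact this
    push_cast at e2
    calc (m.choose (s + 1) : ℝ) * ∫ w, |h w| ^ (s + 1) ∂Q
        ≤ m ^ (s + 1) / (s + 1).factorial * (B * ((s : ℝ) + 1) ^ 2) ^ (s + 1) := by
          refine mul_le_mul e1 e2 (integral_nonneg fun w => by positivity) (by positivity)
      _ = (((s : ℝ) + 1) ^ (s + 1) / (s + 1).factorial) * (m * B * ((s : ℝ) + 1)) ^ (s + 1) := by
          rw [mul_pow, mul_pow, mul_pow, ← pow_mul, mul_comm 2 (s + 1), pow_mul]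
          ring
      _ ≤ Real.exp 1 ^ (s + 1) * (m * B * ((s : ℝ) + 1)) ^ (s + 1) := by
          gcongr
      _ = (x * ((s : ℝ) + 1)) ^ (s + 1) := by
          rw [← mul_pow, hx]
          congr 1
          ring
      _ = (x * ((s : ℝ) + 1)) ^ s * (x * ((s : ℝ) + 1)) := pow_succ _ _
      _ ≤ (1 / 2) ^ s * (x * ((s : ℝ) + 1)) := by
          have : x * ((s : ℝ) + 1) ≤ 1 / 2 :=
            (mul_le_mul_of_nonneg_left hsm' hx0).trans hxm
          gcongr
      _ = _ := by ring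
  calc _ ≤ ∑ s ∈ Finset.range m, x * (((s : ℝ) + 1) * (1 / 2) ^ s) := Finset.sum_le_sum hterm
    _ = x * (4 - (m + 2) * 2 * (1 / 2) ^ m) := by rw [← Finset.mul_sum, sum_elem]
    _ ≤ 4 * x := by
        have : 0 ≤ x * (((m : ℝ) + 2) * 2 * (1 / 2) ^ m) := by positivity
        nlinarith

end Pool.Agent.N555.RZ
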