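import Mathlib

set_option autoImplicit false

/-!
Averages over the signs of products.
-/

namespace Pool.Agent.N555.RZ

open Finset

/-- the sign of a bit -/
def sg (b : Bool) : ℝ := if b then 1 else -1

theorem sg_sq (b : Bool) : sg b * sg b = 1 := by
  cases b <;> simp [sg]

theorem sg_abs (b : Bool) : |sg b| = 1 := by
  cases b <;> simp [sg]

variable {m : ℕ}

theorem sum_prod (F : Fin m → Bool → ℝ) :
    ∑ δ : Fin m → Bool, ∏ i, F i (δ i) = ∏ i, (F i true + F i false) := by
  have h := Finset.prod_univ_sum (fun _ : Fin m => (Finset.univ : Finset Bool)) F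
  rw [Fintype.piFinset_univ] at h
  rw [← h]
  simp

/-- the Riesz product -/
def R (δ : Fin m → Bool) (x : Fin m → ℝ) : ℝ := ∏ i, (1 + sg (δ i) * x i)

theorem R_nonneg (δ : Fin m → Bool) (x : Fin m → ℝ) (hx : ∀ i, |x i| ≤ 1) : 0 ≤ R δ x := by
  refine Finset.prod_nonneg fun i _ => ?_
  have := abs_le.mp (hx i)
  cases h : δ i <;> simp only [sg] <;> norm_num <;> linarith

theorem R_le (δ : Fin m → Bool) (x : Fin m → ℝ) (hx : ∀ i, |x i| ≤ 1) : |R δ x| ≤ 2 ^ m := by
  rw [R, Finset.abs_prod]
  calc ∏ i, |1 + sg (δ i) * x i| ≤ ∏ _i : Fin m, (2 : ℝ) := by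
        refine Finset.prod_le_prod (fun i _ => abs_nonneg _) fun i _ => ?_
        have := abs_le.mp (hx i)
        rw [abs_le]
        cases h : δ i <;> simp only [sg] <;> norm_num <;> constructor <;> linarith
    _ = 2 ^ m := by simp

theorem sum_R (x : Fin m → ℝ) : ∑ δ : Fin m → Bool, R δ x = 2 ^ m := by
  have := sum_prod (fun i b => 1 + sg b * x i)
  simp only [R]
  rw [this]
  have : ∀ i, (1 + sg true * x i + (1 + sg false * x i)) = 2 := by
    intro i; simp [sg]; ring
  simp [this]

theorem sum_RR (x y : Fin m → ℝ) :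
    ∑ δ : Fin m → Bool, R δ x * R δ y = 2 ^ m * ∏ i, (1 + x i * y i) := by
  have := sum_prod (fun i b => (1 + sg b * x i) * (1 + sg b * y i))
  simp only [R, ← Finset.prod_mul_distrib]
  rw [this]
  have h2 : ∀ i, ((1 + sg true * x i) * (1 + sg true * y i)
      + (1 + sg false * x i) * (1 + sg false * y i)) = 2 * (1 + x i * y i) := by
    intro i; simp [sg]; ring
  simp only [h2, Finset.prod_mul_distrib]
  simp

theorem sum_sgR (x : Fin m → ℝ) (j : Fin m) :
    ∑ δ : Fin m → Bool, sg (δ j) * R δ x = 2 ^ m * x j := by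
  have := sum_prod (fun i b => (if i = j then sg b else 1) * (1 + sg b * x i))
  have h0 : ∀ δ : Fin m → Bool, sg (δ j) * R δ x =
      ∏ i, (if i = j then sg (δ i) else 1) * (1 + sg (δ i) * x i) := by
    intro δ
    rw [Finset.prod_mul_distrib, R]
    congr 1
    rw [Finset.prod_ite_eq']
    simp
  simp only [h0]
  rw [this]
  have h2 : ∀ i, ((if i = j then sg true else 1) * (1 + sg true * x i)
      + (if i = j then sg false else 1) * (1 + sg false * x i)) =
      2 * (if i = j then x i else 1) := by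
    intro i
    by_cases h : i = j
    · simp [h, sg]; ring
    · simp [h, sg]; ring
  simp only [h2, Finset.prod_mul_distrib]
  simp [Finset.prod_ite_eq']

end Pool.Agent.N555.RZ
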