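import Pool.Agent.N555.RZ.Cube

set_option autoImplicit false

/-!
Riesz products on a probability space: second moments over the signs.
-/

namespace Pool.Agent.N555.RZ

open Finset MeasureTheory

variable {m : ℕ} {Z : Type*} [MeasurableSpace Z] (P : Measure Z) [IsProbabilityMeasure P]

theorem intg {W : Type*} [MeasurableSpace W] (Q : Measure W) [IsFiniteMeasure Q] {h : W → ℝ}
    (hm : Measurable h) (C : ℝ) (hb : ∀ w, |h w| ≤ C) : Integrable h Q :=
  Integrable.of_bound hm.aestronglyMeasurable C (Filter.Eventually.of_forall fun w => by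
    rw [Real.norm_eq_abs]; exact hb w)

theorem meas_R (δ : Fin m → Bool) {x : Z → Fin m → ℝ} (hx : ∀ i, Measurable fun z => x z i) :
    Measurable fun z => R δ (x z) := by
  unfold R
  exact Finset.measurable_prod _ fun i _ => ((hx i).const_mul _).const_add _

theorem prod_bound (x y : Fin m → ℝ) (hx : ∀ i, |x i| ≤ 1) (hy : ∀ i, |y i| ≤ 1) :
    |∏ i, (1 + x i * y i)| ≤ 2 ^ m := by
  rw [Finset.abs_prod]
  calc ∏ i, |1 + x i * y i| ≤ ∏ _i : Fin m, (2 : ℝ) := by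
        refine Finset.prod_le_prod (fun i _ => abs_nonneg _) fun i _ => ?_
        have h1 : |x i * y i| ≤ 1 := by
          rw [abs_mul]
          exact mul_le_one₀ (hx i) (abs_nonneg _) (hy i)
        have := abs_le.mp h1
        rw [abs_le]
        constructor <;> linarith
    _ = 2 ^ m := by simp

variable {P}

/-- `∑ (N - 1)²` -/
theorem sum_N {x : Z → Fin m → ℝ} (hx : ∀ i, Measurable fun z => x z i)
    (hb : ∀ z i, |x z i| ≤ 1) :
    ∑ δ : Fin m → Bool, ((∫ z, R δ (x z) ∂P) - 1) ^ 2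
      = 2 ^ m * ((∫ p : Z × Z, ∏ i, (1 + x p.1 i * x p.2 i) ∂(P.prod P)) - 1) := by
  have hRi : ∀ δ : Fin m → Bool, Integrable (fun z => R δ (x z)) P := fun δ =>
    intg P (meas_R δ hx) (2 ^ m) fun z => R_le δ _ (hb z)
  have h1 : ∑ δ : Fin m → Bool, (∫ z, R δ (x z) ∂P) = 2 ^ m := by
    rw [← integral_finsetSum _ fun δ _ => hRi δ]
    simp only [sum_R]
    simp
  have h2 : ∑ δ : Fin m → Bool, (∫ z, R δ (x z) ∂P) ^ 2
      = 2 ^ m * ∫ p : Z × Z, ∏ i, (1 + x p.1 i * x p.2 i) ∂(P.prod P) := by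
    have h3 : ∀ δ : Fin m → Bool, (∫ z, R δ (x z) ∂P) ^ 2
        = ∫ p : Z × Z, R δ (x p.1) * R δ (x p.2) ∂(P.prod P) := by
      intro δ
      rw [integral_prod_mul (fun z => R δ (x z)) (fun z => R δ (x z)), sq]
    simp only [h3]
    rw [← integral_finsetSum]
    · simp only [sum_RR]
      rw [integral_const_mul]
    · intro δ _
      exact (hRi δ).mul_prod (hRi δ)
  have h4 : ∀ δ : Fin m → Bool, ((∫ z, R δ (x z) ∂P) - 1) ^ 2
      = (∫ z, R δ (x z) ∂P) ^ 2 - 2 * (∫ z, R δ (x z) ∂P) + 1 := fun δ => by ring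
  simp only [h4, Finset.sum_add_distrib, Finset.sum_sub_distrib, ← Finset.mul_sum, h1, h2]
  simp
  ring

/-- `∑ (V - sg a)²` -/
theorem sum_V {x : Z → Fin m → ℝ} (hx : ∀ i, Measurable fun z => x z i)
    (hb : ∀ z i, |x z i| ≤ 1) (j : Fin m) :
    ∑ δ : Fin m → Bool, ((∫ z, R δ (x z) * x z j ∂P) - sg (δ j) * ∫ z, x z j ^ 2 ∂P) ^ 2
      = 2 ^ m * ((∫ p : Z × Z, x p.1 j * x p.2 j * ∏ i, (1 + x p.1 i * x p.2 i) ∂(P.prod P))
        - (∫ z, x z j ^ 2 ∂P) ^ 2) := by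
  have hRi : ∀ δ : Fin m → Bool, Integrable (fun z => R δ (x z) * x z j) P := fun δ =>
    intg P ((meas_R δ hx).mul (hx j)) (2 ^ m) fun z => by
      rw [abs_mul]
      calc |R δ (x z)| * |x z j| ≤ 2 ^ m * 1 := by
            gcongr
            · exact R_le δ _ (hb z)
            · exact hb z j
        _ = 2 ^ m := mul_one _
  set a : ℝ := ∫ z, x z j ^ 2 ∂P with ha
  have h1 : ∑ δ : Fin m → Bool, sg (δ j) * (∫ z, R δ (x z) * x z j ∂P) = 2 ^ m * a := by
    simp only [← integral_const_mul]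
    rw [← integral_finsetSum _ fun δ _ => (hRi δ).const_mul _]
    have h5 : ∀ z, ∑ δ : Fin m → Bool, sg (δ j) * (R δ (x z) * x z j) = 2 ^ m * x z j ^ 2 := by
      intro z
      simp only [← mul_assoc]
      rw [← Finset.sum_mul, sum_sgR]
      ring
    simp only [h5]
    rw [integral_const_mul]
  have h2 : ∑ δ : Fin m → Bool, (∫ z, R δ (x z) * x z j ∂P) ^ 2
      = 2 ^ m * ∫ p : Z × Z, x p.1 j * x p.2 j * ∏ i, (1 + x p.1 i * x p.2 i) ∂(P.prod P) := by
    have h3 : ∀ δ : Fin m → Bool, (∫ z, R δ (x z) * x z j ∂P) ^ 2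
        = ∫ p : Z × Z, (R δ (x p.1) * x p.1 j) * (R δ (x p.2) * x p.2 j) ∂(P.prod P) := by
      intro δ
      rw [integral_prod_mul (fun z => R δ (x z) * x z j) (fun z => R δ (x z) * x z j), sq]
    simp only [h3]
    rw [← integral_finsetSum]
    · have h5 : ∀ p : Z × Z, ∑ δ : Fin m → Bool, (R δ (x p.1) * x p.1 j) * (R δ (x p.2) * x p.2 j)
          = 2 ^ m * (x p.1 j * x p.2 j * ∏ i, (1 + x p.1 i * x p.2 i)) := by
        intro p
        have : ∀ δ : Fin m → Bool, (R δ (x p.1) * x p.1 j) * (R δ (x p.2) * x p.2 j)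
            = (R δ (x p.1) * R δ (x p.2)) * (x p.1 j * x p.2 j) := fun δ => by ring
        simp only [this]
        rw [← Finset.sum_mul, sum_RR]
        ring
      simp only [h5]
      rw [integral_const_mul]
    · intro δ _
      exact (hRi δ).mul_prod (hRi δ)
  have h4 : ∀ δ : Fin m → Bool, ((∫ z, R δ (x z) * x z j ∂P) - sg (δ j) * a) ^ 2
      = (∫ z, R δ (x z) * x z j ∂P) ^ 2 - 2 * a * (sg (δ j) * (∫ z, R δ (x z) * x z j ∂P))
        + a ^ 2 := fun δ => by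
    have := sg_sq (δ j)
    linear_combination a ^ 2 * this
  simp only [h4, Finset.sum_add_distrib, Finset.sum_sub_distrib, ← Finset.mul_sum, h1, h2]
  simp
  ring

open Classical in
/-- Good signs: if the total deviation is small then for more than half of the signs there is a
density which realizes them. -/
theorem good_signs {x : Z → Fin m → ℝ} (hx : ∀ i, Measurable fun z => x z i)
    (hb : ∀ z i, |x z i| ≤ 1) (a0 : ℝ) (ha0 : 0 < a0) (ha : ∀ i, a0 ≤ ∫ z, x z i ^ 2 ∂P)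
    (ha1 : a0 ≤ 1) (t : ℝ)
    (ht : ∑ δ : Fin m → Bool, (((∫ z, R δ (x z) ∂P) - 1) ^ 2 +
      ∑ i, ((∫ z, R δ (x z) * x z i ∂P) - sg (δ i) * ∫ z, x z i ^ 2 ∂P) ^ 2) ≤ 2 ^ m * t)
    (hsmall : 2 * t < (a0 / 8) ^ 2) :
    2 ^ m < 2 * (Finset.univ.filter fun δ : Fin m → Bool => ∃ r : Z → ℝ, (∀ z, 0 ≤ r z) ∧
      Integrable r P ∧ ∫ z, r z ∂P = 1 ∧
      ∀ i, a0 / 2 ≤ sg (δ i) * ∫ z, r z * x z i ∂P).card := by
  set Ψ : (Fin m → Bool) → ℝ := fun δ => ((∫ z, R δ (x z) ∂P) - 1) ^ 2 +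
      ∑ i, ((∫ z, R δ (x z) * x z i ∂P) - sg (δ i) * ∫ z, x z i ^ 2 ∂P) ^ 2 with hΨ
  have hΨ0 : ∀ δ, 0 ≤ Ψ δ := fun δ =>
    add_nonneg (sq_nonneg _) (Finset.sum_nonneg fun i _ => sq_nonneg _)
  set G := (Finset.univ.filter fun δ : Fin m → Bool => ∃ r : Z → ℝ, (∀ z, 0 ≤ r z) ∧
      Integrable r P ∧ ∫ z, r z ∂P = 1 ∧
      ∀ i, a0 / 2 ≤ sg (δ i) * ∫ z, r z * x z i ∂P) with hG
  have hgood : ∀ δ, Ψ δ < (a0 / 8) ^ 2 → δ ∈ G := by
    intro δ hδ
    rw [hG, Finset.mem_filter]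
    refine ⟨Finset.mem_univ _, ?_⟩
    set N : ℝ := ∫ z, R δ (x z) ∂P with hN
    have hNsq : (N - 1) ^ 2 < (a0 / 8) ^ 2 := lt_of_le_of_lt (le_add_of_nonneg_right
      (Finset.sum_nonneg fun i _ => sq_nonneg _)) hδ
    have hN1 := abs_lt.mp (abs_lt_of_sq_lt_sq hNsq (by positivity))
    have hNpos : 0 < N := by linarith
    refine ⟨fun z => R δ (x z) / N, fun z => div_nonneg (R_nonneg δ _ (hb z)) hNpos.le,
      (intg P (meas_R δ hx) (2 ^ m) fun z => R_le δ _ (hb z)).div_const _, ?_, ?_⟩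
    · rw [integral_div, div_self hNpos.ne']
    · intro i
      set V : ℝ := ∫ z, R δ (x z) * x z i ∂P with hV
      set a : ℝ := ∫ z, x z i ^ 2 ∂P with haa
      have hVsq : (V - sg (δ i) * a) ^ 2 < (a0 / 8) ^ 2 := by
        refine lt_of_le_of_lt ?_ hδ
        refine le_trans ?_ (le_add_of_nonneg_left (sq_nonneg _))
        exact Finset.single_le_sum (f := fun i => ((∫ z, R δ (x z) * x z i ∂P)
          - sg (δ i) * ∫ z, x z i ^ 2 ∂P) ^ 2) (fun i _ => sq_nonneg _) (Finset.mem_univ i)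
      have hV1 := abs_lt.mp (abs_lt_of_sq_lt_sq hVsq (by positivity))
      have e1 : ∫ z, R δ (x z) / N * x z i ∂P = V / N := by
        have : ∀ z, R δ (x z) / N * x z i = (R δ (x z) * x z i) / N := fun z => by ring
        simp only [this]
        rw [integral_div]
      rw [e1]
      have hs := sg_sq (δ i)
      have hkey : a - a0 / 8 ≤ sg (δ i) * V := by
        have : sg (δ i) = 1 ∨ sg (δ i) = -1 := by
          cases δ i <;> simp [sg]
        rcases this with h | h <;> rw [h] at hV1 ⊢ <;> linarith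
      rw [← mul_div_assoc, le_div_iff₀ hNpos]
      have := ha i
      nlinarith
  by_contra hcon
  push Not at hcon
  have hcompl : (2 : ℝ) ^ m ≤ 2 * (Gᶜ.card : ℝ) := by
    have h1 : G.card + Gᶜ.card = 2 ^ m := by
      rw [Finset.card_add_card_compl]
      simp
    have h2 : (2 : ℕ) ^ m ≤ 2 * Gᶜ.card := by omega
    exact_mod_cast h2
  have hsum : (Gᶜ.card : ℝ) * (a0 / 8) ^ 2 ≤ ∑ δ : Fin m → Bool, Ψ δ := by
    calc (Gᶜ.card : ℝ) * (a0 / 8) ^ 2 = ∑ δ ∈ Gᶜ, (a0 / 8) ^ 2 := by simp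
      _ ≤ ∑ δ ∈ Gᶜ, Ψ δ := by
          refine Finset.sum_le_sum fun δ hδ => ?_
          by_contra h
          push Not at h
          exact (Finset.mem_compl.mp hδ) (hgood δ h)
      _ ≤ ∑ δ : Fin m → Bool, Ψ δ :=
          Finset.sum_le_univ_sum_of_nonneg hΨ0
  have h2m : (0 : ℝ) < 2 ^ m := by positivity
  have h3 : (Gᶜ.card : ℝ) * (a0 / 8) ^ 2 ≤ 2 ^ m * t := hsum.trans ht
  have h4 : (0 : ℝ) < (a0 / 8) ^ 2 := by positivity
  nlinarith

end Pool.Agent.N555.RZ
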