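import Pool.Agent.N555.RZ.Iso

set_option autoImplicit false

/-!
Supporting functionals in isotropic position.
-/

namespace Pool.Agent.N555.RZ

open MeasureTheory Set
open scoped ENNReal RealInnerProductSpace
open Pool.Agent.TH591.Ns

variable {d : ℕ}

/-- the scaled gradient of the gauge -/
noncomputable def ga (K : Set (EuclideanSpace ℝ (Fin d))) (a : ℝ)
    (y : EuclideanSpace ℝ (Fin d)) : EuclideanSpace ℝ (Fin d) :=
  a⁻¹ • (InnerProductSpace.toDual ℝ (EuclideanSpace ℝ (Fin d))).symm (fderiv ℝ (gauge K) y)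

theorem ga_inner (K : Set (EuclideanSpace ℝ (Fin d))) (a : ℝ) (y z : EuclideanSpace ℝ (Fin d)) :
    ⟪ga K a y, z⟫ = a⁻¹ * fderiv ℝ (gauge K) y z := by
  unfold ga
  rw [inner_smul_left, InnerProductSpace.toDual_symm_apply]
  simp

theorem ga_meas (K : Set (EuclideanSpace ℝ (Fin d))) (a : ℝ) : Measurable (ga K a) := by
  have h : Measurable fun y => (InnerProductSpace.toDual ℝ (EuclideanSpace ℝ (Fin d))).symm
      (fderiv ℝ (gauge K) y) :=
    (LinearIsometryEquiv.continuous _).measurable.comp (measurable_fderiv ℝ (gauge K))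
  exact h.const_smul a⁻¹

variable {K : Set (EuclideanSpace ℝ (Fin d))}

theorem gauge_le_one (hK : Convex ℝ K) (hKc : IsCompact K) (hK0 : K ∈ nhds 0) {z} (hz : z ∈ K) :
    gauge K z ≤ 1 := by
  have := ball_eq hK hKc hK0
  rw [← this] at hz
  exact hz

theorem mem_of_gauge (hK : Convex ℝ K) (hKc : IsCompact K) (hK0 : K ∈ nhds 0) {z}
    (hz : gauge K z ≤ 1) : z ∈ K := by
  have := ball_eq hK hKc hK0
  rw [← this]
  exact hz

theorem fderiv_abs_le (hK : Convex ℝ K) (hK0 : K ∈ nhds 0)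
    (a : ℝ) (ha : 1 ≤ a) (hsym : ∀ x, gauge K (-x) ≤ a * gauge K x) (y z : EuclideanSpace ℝ (Fin d)) :
    |fderiv ℝ (gauge K) y z| ≤ a * gauge K z := by
  have hg := isG_gauge hK hK0
  have h1 := fderiv_le_g hg y z
  have h2 := fderiv_le_g hg y (-z)
  rw [map_neg] at h2
  have h3 := hsym z
  have h4 := hg.nonneg z
  rw [abs_le]
  constructor
  · linarith
  · nlinarith

theorem ga_le (hK : Convex ℝ K) (hKc : IsCompact K) (hK0 : K ∈ nhds 0)
    (a : ℝ) (ha : 1 ≤ a) (hsym : ∀ x, gauge K (-x) ≤ a * gauge K x) (y : EuclideanSpace ℝ (Fin d))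
    {z : EuclideanSpace ℝ (Fin d)} (hz : z ∈ K) : |⟪ga K a y, z⟫| ≤ 1 := by
  rw [ga_inner, abs_mul, abs_inv, abs_of_pos (by linarith : 0 < a), inv_mul_le_iff₀ (by linarith)]
  refine (fderiv_abs_le hK hK0 a ha hsym y z).trans ?_
  have := gauge_le_one hK hKc hK0 hz
  gcongr

variable (hK : Convex ℝ K) (hKc : IsCompact K) (hK0 : K ∈ nhds 0)
  (a : ℝ) (ha : 1 ≤ a) (hsym : ∀ x, gauge K (-x) ≤ a * gauge K x)
  (hiso : ∀ w : EuclideanSpace ℝ (Fin d), ∫ z, ⟪z, w⟫ ^ 2 ∂(mP K) = ‖w‖ ^ 2)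

include hK hKc hK0 ha hsym hiso

theorem ga_norm (y : EuclideanSpace ℝ (Fin d)) : ‖ga K a y‖ ≤ 1 := by
  have h0 : volume K ≠ 0 := (Measure.measure_pos_of_mem_nhds volume hK0).ne'
  have hfin : volume K ≠ ⊤ := hKc.measure_lt_top.ne
  have hPr := mP_prob h0 hfin
  have h1 : ‖ga K a y‖ ^ 2 ≤ 1 := by
    rw [← hiso (ga K a y)]
    have h2 : ∫ z, ⟪z, ga K a y⟫ ^ 2 ∂(mP K) ≤ ∫ _z, (1 : ℝ) ∂(mP K) := by
      refine integral_mono_ae (int_K hKc h0 (by fun_prop)) (integrable_const _) ?_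
      filter_upwards [mP_ae hKc.isClosed.measurableSet] with z hz
      rw [real_inner_comm, ← sq_abs]
      exact pow_le_one₀ (abs_nonneg _) (ga_le hK hKc hK0 a ha hsym y hz)
    simpa using h2
  nlinarith [norm_nonneg (ga K a y)]

omit hK hK0 ha hsym hiso in
/-- flatness in terms of the probability measure -/
theorem flat_eq :
    (∫ z in K, ∫ z' in K, |fderiv ℝ (gauge K) z z'|) / (volume K).toReal ^ 2
      = ∫ z, ∫ z', |fderiv ℝ (gauge K) z z'| ∂(mP K) ∂(mP K) := by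
  have hfin : volume K ≠ ⊤ := hKc.measure_lt_top.ne
  have h1 : ∀ h : EuclideanSpace ℝ (Fin d) → ℝ, ∫ z, h z ∂(mP K)
      = (volume K).toReal⁻¹ * ∫ z in K, h z := by
    intro h
    rw [mP, integral_smul_measure, ENNReal.toReal_inv, smul_eq_mul]
  simp only [h1]
  rw [integral_const_mul]
  field_simp

theorem norm_mean (ρ : ℝ) (hρ : 0 < ρ)
    (hflat : ρ ≤ (∫ z in K, ∫ z' in K, |fderiv ℝ (gauge K) z z'|) / (volume K).toReal ^ 2) :
    (ρ / a) ^ 2 ≤ ∫ y, ‖ga K a y‖ ^ 2 ∂(mP K) := by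
  have h0 : volume K ≠ 0 := (Measure.measure_pos_of_mem_nhds volume hK0).ne'
  have hfin : volume K ≠ ⊤ := hKc.measure_lt_top.ne
  have hPr := mP_prob h0 hfin
  rw [flat_eq hKc] at hflat
  have ha0 : 0 < a := by linarith
  have hN : ∀ y, ‖ga K a y‖ ≤ 1 := ga_norm hK hKc hK0 a ha hsym hiso
  have hNm : Measurable fun y => ‖ga K a y‖ := (ga_meas K a).norm
  have hi1 : Integrable (fun y => ‖ga K a y‖) (mP K) :=
    Integrable.of_bound hNm.aestronglyMeasurable 1 (Filter.Eventually.of_forall fun y => by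
      rw [norm_norm]; exact hN y)
  have hi2 : Integrable (fun y => ‖ga K a y‖ ^ 2) (mP K) :=
    Integrable.of_bound (hNm.pow_const 2).aestronglyMeasurable 1
      (Filter.Eventually.of_forall fun y => by
        rw [norm_pow, norm_norm]; exact pow_le_one₀ (norm_nonneg _) (hN y))
  -- inner integral
  have hin : ∀ y, ∫ z', |fderiv ℝ (gauge K) y z'| ∂(mP K) ≤ a * ‖ga K a y‖ := by
    intro y
    have e1 : ∀ z', |fderiv ℝ (gauge K) y z'| = a * |⟪ga K a y, z'⟫| := by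
      intro z'
      rw [ga_inner, abs_mul, abs_inv, abs_of_pos ha0, ← mul_assoc, mul_inv_cancel₀ ha0.ne', one_mul]
    simp only [e1]
    rw [integral_const_mul]
    gcongr
    set u := ga K a y with hu
    have hc1 : Integrable (fun z' => |⟪u, z'⟫|) (mP K) := int_K hKc h0 (by fun_prop)
    have hc2 : Integrable (fun z' => ⟪u, z'⟫ ^ 2) (mP K) := int_K hKc h0 (by fun_prop)
    set I := ∫ z', |⟪u, z'⟫| ∂(mP K) with hI
    have h1 : I ^ 2 ≤ ‖u‖ ^ 2 := by
      have h2 : 0 ≤ ∫ z', (|⟪u, z'⟫| - I) ^ 2 ∂(mP K) := integral_nonneg fun _ => sq_nonneg _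
      have e2 : ∀ z', (|⟪u, z'⟫| - I) ^ 2 = ⟪u, z'⟫ ^ 2 - 2 * I * |⟪u, z'⟫| + I ^ 2 := by
        intro z'
        rw [sub_sq, sq_abs]; ring
      have e3 : ∫ z', (|⟪u, z'⟫| - I) ^ 2 ∂(mP K) = ‖u‖ ^ 2 - 2 * I * I + I ^ 2 := by
        simp only [e2]
        have f1 := integral_add (hc2.sub (hc1.const_mul (2 * I))) (integrable_const (I ^ 2))
        have f2 := integral_sub hc2 (hc1.const_mul (2 * I))
        have f3 := integral_const_mul (μ := mP K) (2 * I) (fun z' => |⟪u, z'⟫|)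
        have f4 : ∫ _z' : EuclideanSpace ℝ (Fin d), I ^ 2 ∂(mP K) = I ^ 2 := by simp
        have f5 : ∫ z', ⟪u, z'⟫ ^ 2 ∂(mP K) = ‖u‖ ^ 2 := by
          rw [← hiso u]
          simp only [real_inner_comm]
        rw [f4] at f1
        rw [f3, ← hI, f5] at f2
        rw [← f2]
        exact f1
      rw [e3] at h2
      nlinarith
    exact le_of_sq_le_sq h1 (norm_nonneg _)
  have hmean : ρ ≤ a * ∫ y, ‖ga K a y‖ ∂(mP K) := by
    refine hflat.trans ?_
    rw [← integral_const_mul]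
    refine integral_mono_of_nonneg (Filter.Eventually.of_forall fun y =>
      integral_nonneg fun _ => abs_nonneg _) (hi1.const_mul a) (Filter.Eventually.of_forall hin)
  set J := ∫ y, ‖ga K a y‖ ∂(mP K) with hJ
  have h3 : J ^ 2 ≤ ∫ y, ‖ga K a y‖ ^ 2 ∂(mP K) := by
    have h2 : 0 ≤ ∫ y, (‖ga K a y‖ - J) ^ 2 ∂(mP K) := integral_nonneg fun _ => sq_nonneg _
    have e2 : ∀ y, (‖ga K a y‖ - J) ^ 2 = ‖ga K a y‖ ^ 2 - 2 * J * ‖ga K a y‖ + J ^ 2 := by
      intro y; ring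
    have e3 : ∫ y, (‖ga K a y‖ - J) ^ 2 ∂(mP K)
        = ∫ y, ‖ga K a y‖ ^ 2 ∂(mP K) - 2 * J * J + J ^ 2 := by
      simp only [e2]
      have f1 := integral_add (hi2.sub (hi1.const_mul (2 * J))) (integrable_const (J ^ 2))
      have f2 := integral_sub hi2 (hi1.const_mul (2 * J))
      have f3 := integral_const_mul (μ := mP K) (2 * J) (fun y => ‖ga K a y‖)
      have f4 : ∫ _y : EuclideanSpace ℝ (Fin d), J ^ 2 ∂(mP K) = J ^ 2 := by simp
      rw [f4] at f1
      rw [f3, ← hJ] at f2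
      rw [← f2]
      exact f1
    rw [e3] at h2
    nlinarith
  refine le_trans ?_ h3
  have h4 : ρ / a ≤ J := by
    rw [div_le_iff₀ ha0]
    linarith
  gcongr

end Pool.Agent.N555.RZ
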