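import Mathlib

set_option autoImplicit false
set_option linter.unusedSectionVars false
set_option linter.unusedVariables false

/-!
The covariance form of random functionals; groups without small invariant subspaces.
-/

namespace Pool.Agent.N555.RZ

open MeasureTheory Set
open scoped ENNReal RealInnerProductSpace

variable {d : ℕ} {Y : Type*} [MeasurableSpace Y]

theorem cs_of (A B C : ℝ) (h : ∀ t : ℝ, 0 ≤ A + 2 * t * B + t ^ 2 * C) : B ^ 2 ≤ A * C := by
  have h1 := discrim_le_zero (a := C) (b := 2 * B) (c := A) (fun t => by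
    have := h t
    nlinarith)
  unfold discrim at h1
  nlinarith

/-- covariance form -/
noncomputable def cov (ν : Measure Y) (a : Y → EuclideanSpace ℝ (Fin d))
    (x y : EuclideanSpace ℝ (Fin d)) : ℝ := ∫ t, ⟪a t, x⟫ * ⟪a t, y⟫ ∂ν

variable {ν : Measure Y} [IsFiniteMeasure ν] {a : Y → EuclideanSpace ℝ (Fin d)}

theorem cov_int (ha : Measurable a) (ha1 : ∀ t, ‖a t‖ ≤ 1) (x y : EuclideanSpace ℝ (Fin d)) :
    Integrable (fun t => ⟪a t, x⟫ * ⟪a t, y⟫) ν := by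
  refine Integrable.of_bound ?_ (‖x‖ * ‖y‖) (Filter.Eventually.of_forall fun t => ?_)
  · exact ((ha.inner measurable_const).mul (ha.inner measurable_const)).aestronglyMeasurable
  · rw [norm_mul]
    have h1 := norm_inner_le_norm (𝕜 := ℝ) (a t) x
    have h2 := norm_inner_le_norm (𝕜 := ℝ) (a t) y
    have h3 := ha1 t
    have h4 : ‖a t‖ * ‖x‖ ≤ ‖x‖ := mul_le_of_le_one_left (norm_nonneg _) h3
    have h5 : ‖a t‖ * ‖y‖ ≤ ‖y‖ := mul_le_of_le_one_left (norm_nonneg _) h3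
    exact mul_le_mul (h1.trans h4) (h2.trans h5) (norm_nonneg _) (norm_nonneg _)

theorem cov_symm (x y : EuclideanSpace ℝ (Fin d)) : cov ν a x y = cov ν a y x := by
  unfold cov
  simp only [mul_comm]

theorem cov_add (ha : Measurable a) (ha1 : ∀ t, ‖a t‖ ≤ 1) (x x' y : EuclideanSpace ℝ (Fin d)) :
    cov ν a (x + x') y = cov ν a x y + cov ν a x' y := by
  unfold cov
  rw [← integral_add (cov_int ha ha1 _ _) (cov_int ha ha1 _ _)]
  congr 1
  ext t
  rw [inner_add_right, add_mul]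

theorem cov_smul (c : ℝ) (x y : EuclideanSpace ℝ (Fin d)) :
    cov ν a (c • x) y = c * cov ν a x y := by
  unfold cov
  rw [← integral_const_mul]
  congr 1
  ext t
  rw [inner_smul_right, mul_assoc]

theorem cov_nonneg (x : EuclideanSpace ℝ (Fin d)) : 0 ≤ cov ν a x x :=
  integral_nonneg fun t => mul_self_nonneg _

theorem cov_quad (ha : Measurable a) (ha1 : ∀ t, ‖a t‖ ≤ 1) (x y : EuclideanSpace ℝ (Fin d))
    (s : ℝ) : cov ν a (x + s • y) (x + s • y)
      = cov ν a x x + 2 * s * cov ν a x y + s ^ 2 * cov ν a y y := by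
  have e1 : cov ν a (x + s • y) (x + s • y) = cov ν a x (x + s • y) + s * cov ν a y (x + s • y) := by
    rw [cov_add ha ha1, cov_smul]
  have e2 : ∀ w, cov ν a w (x + s • y) = cov ν a w x + s * cov ν a w y := by
    intro w
    rw [cov_symm, cov_add ha ha1, cov_smul, cov_symm x, cov_symm y]
  rw [e1, e2, e2, cov_symm y x]
  ring

theorem cov_cs (ha : Measurable a) (ha1 : ∀ t, ‖a t‖ ≤ 1) (x y : EuclideanSpace ℝ (Fin d)) :
    cov ν a x y ^ 2 ≤ cov ν a x x * cov ν a y y := by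
  refine cs_of _ _ _ fun s => ?_
  rw [← cov_quad ha ha1]
  exact cov_nonneg _

/-- `c_i = ∫ (a_t)_i a_t` -/
noncomputable def cvec (ν : Measure Y) (a : Y → EuclideanSpace ℝ (Fin d)) (i : Fin d) :
    EuclideanSpace ℝ (Fin d) := WithLp.toLp 2 fun j => cov ν a (EuclideanSpace.single i 1)
      (EuclideanSpace.single j 1)

theorem cvec_inner (ha : Measurable a) (ha1 : ∀ t, ‖a t‖ ≤ 1) (i : Fin d)
    (x : EuclideanSpace ℝ (Fin d)) : ⟪cvec ν a i, x⟫ = cov ν a (EuclideanSpace.single i 1) x := by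
  have h1 : ∀ t, ⟪a t, x⟫ = ∑ j, ⟪a t, EuclideanSpace.single j 1⟫ * x j := by
    intro t
    rw [PiLp.inner_apply]
    refine Finset.sum_congr rfl fun j _ => ?_
    rw [EuclideanSpace.inner_single_right]
    simp [mul_comm]
  unfold cov
  simp only [h1 _]
  have h2 : ∀ t, ⟪a t, EuclideanSpace.single i (1 : ℝ)⟫
      * ∑ j, ⟪a t, EuclideanSpace.single j (1 : ℝ)⟫ * x j
      = ∑ j, (⟪a t, EuclideanSpace.single i (1 : ℝ)⟫ * ⟪a t, EuclideanSpace.single j (1 : ℝ)⟫) * x j := by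
    intro t
    rw [Finset.mul_sum]
    refine Finset.sum_congr rfl fun j _ => ?_
    ring
  simp only [h2]
  rw [integral_finsetSum _ fun j _ => (cov_int ha ha1 _ _).mul_const _]
  rw [PiLp.inner_apply]
  refine Finset.sum_congr rfl fun j _ => ?_
  rw [integral_mul_const]
  simp [cvec, cov, mul_comm]

theorem cov_eq (ha : Measurable a) (ha1 : ∀ t, ‖a t‖ ≤ 1) (x y : EuclideanSpace ℝ (Fin d)) :
    cov ν a x y = ∑ i, ⟪cvec ν a i, x⟫ * y i := by
  have h1 : ∀ t, ⟪a t, y⟫ = ∑ j, ⟪a t, EuclideanSpace.single j 1⟫ * y j := by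
    intro t
    rw [PiLp.inner_apply]
    refine Finset.sum_congr rfl fun j _ => ?_
    rw [EuclideanSpace.inner_single_right]
    simp [mul_comm]
  have h2 : ∀ t, ⟪a t, x⟫ * ⟪a t, y⟫
      = ∑ j, (⟪a t, EuclideanSpace.single j (1 : ℝ)⟫ * ⟪a t, x⟫) * y j := by
    intro t
    rw [h1, Finset.mul_sum]
    refine Finset.sum_congr rfl fun j _ => ?_
    ring
  have h3 : cov ν a x y = ∫ t, ∑ j, (⟪a t, EuclideanSpace.single j (1 : ℝ)⟫ * ⟪a t, x⟫) * y j ∂ν := by
    unfold cov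
    simp only [h2]
  rw [h3, integral_finsetSum _ fun j _ => (cov_int ha ha1 _ _).mul_const _]
  refine Finset.sum_congr rfl fun j _ => ?_
  rw [integral_mul_const, cvec_inner ha ha1]
  rfl

theorem cov_cont (ha : Measurable a) (ha1 : ∀ t, ‖a t‖ ≤ 1) :
    Continuous fun x : EuclideanSpace ℝ (Fin d) => cov ν a x x := by
  simp only [cov_eq ha ha1]
  fun_prop

/-- trace -/
theorem cov_trace (ha : Measurable a) (ha1 : ∀ t, ‖a t‖ ≤ 1) :
    ∑ i, cov ν a (EuclideanSpace.single i 1) (EuclideanSpace.single i 1) = ∫ t, ‖a t‖ ^ 2 ∂ν := by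
  unfold cov
  rw [← integral_finsetSum _ fun j _ => cov_int ha ha1 _ _]
  congr 1
  ext t
  rw [EuclideanSpace.norm_sq_eq]
  refine Finset.sum_congr rfl fun i _ => ?_
  rw [EuclideanSpace.inner_single_right]
  simp [sq]

/-- Hilbert–Schmidt norm -/
theorem hs_bound (ha : Measurable a) (ha1 : ∀ t, ‖a t‖ ≤ 1) (lam : ℝ) (hlam : 0 ≤ lam)
    (h : ∀ x, cov ν a x x ≤ lam * ‖x‖ ^ 2) :
    ∑ i, ‖cvec ν a i‖ ^ 2 ≤ lam * ∫ t, ‖a t‖ ^ 2 ∂ν := by
  rw [← cov_trace ha ha1, Finset.mul_sum]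
  refine Finset.sum_le_sum fun i _ => ?_
  set c := cvec ν a i with hc
  have h1 : ‖c‖ ^ 2 = cov ν a (EuclideanSpace.single i 1) c := by
    rw [← cvec_inner ha ha1, ← hc, real_inner_self_eq_norm_sq]
  have h2 := cov_cs (ν := ν) ha ha1 (EuclideanSpace.single i 1) c
  rw [← h1] at h2
  have h3 := h c
  have h4 := cov_nonneg (ν := ν) (a := a) (EuclideanSpace.single i 1)
  by_cases h0 : ‖c‖ ^ 2 = 0
  · rw [h0]
    positivity
  · have h5 : 0 < ‖c‖ ^ 2 := lt_of_le_of_ne (sq_nonneg _) (Ne.symm h0)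
    have h6 : ‖c‖ ^ 2 * ‖c‖ ^ 2
        ≤ (lam * cov ν a (EuclideanSpace.single i 1) (EuclideanSpace.single i 1)) * ‖c‖ ^ 2 := by
      calc ‖c‖ ^ 2 * ‖c‖ ^ 2 = (‖c‖ ^ 2) ^ 2 := by ring
        _ ≤ _ := h2
        _ ≤ cov ν a (EuclideanSpace.single i 1) (EuclideanSpace.single i 1) * (lam * ‖c‖ ^ 2) := by
            gcongr
        _ = _ := by ring
    exact le_of_mul_le_mul_right h6 h5

/-- A group without small invariant subspaces: the largest eigenvalue is small. -/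
theorem eig_bound (hd : 1 ≤ d) (ha : Measurable a) (ha1 : ∀ t, ‖a t‖ ≤ 1)
    (G : Set (EuclideanSpace ℝ (Fin d) ≃ₗ[ℝ] EuclideanSpace ℝ (Fin d))) (D : ℕ)
    (hG : ∀ W : Submodule ℝ (EuclideanSpace ℝ (Fin d)), W ≠ ⊥ →
      (∀ T ∈ G, ∀ x ∈ W, T x ∈ W) → D ≤ Module.finrank ℝ W)
    (hiso : ∀ T ∈ G, ∀ x, ‖T x‖ = ‖x‖)
    (hcov : ∀ T ∈ G, ∀ x, cov ν a (T x) (T x) = cov ν a x x)
    (x : EuclideanSpace ℝ (Fin d)) :
    D * cov ν a x x ≤ (∫ t, ‖a t‖ ^ 2 ∂ν) * ‖x‖ ^ 2 := by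
  have : Nonempty (Fin d) := ⟨⟨0, hd⟩⟩
  have hne : (Metric.sphere (0 : EuclideanSpace ℝ (Fin d)) 1).Nonempty :=
    ⟨EuclideanSpace.single ⟨0, hd⟩ 1, by simp⟩
  obtain ⟨w, hw, hmax⟩ := (isCompact_sphere (0 : EuclideanSpace ℝ (Fin d)) 1).exists_isMaxOn hne
    (cov_cont (ν := ν) ha ha1).continuousOn
  have hw1 : ‖w‖ = 1 := by simpa using hw
  set μ := cov ν a w w with hμ
  have hμ0 : 0 ≤ μ := cov_nonneg _
  have hle : ∀ x, cov ν a x x ≤ μ * ‖x‖ ^ 2 := by
    intro x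
    by_cases hx : x = 0
    · subst hx
      have : cov ν a (0 : EuclideanSpace ℝ (Fin d)) 0 = 0 := by simp [cov]
      rw [this]; simp
    · have hn : 0 < ‖x‖ := norm_pos_iff.mpr hx
      have h1 : ‖x‖⁻¹ • x ∈ Metric.sphere (0 : EuclideanSpace ℝ (Fin d)) 1 := by
        rw [mem_sphere_zero_iff_norm, norm_smul, norm_inv, norm_norm, inv_mul_cancel₀ hn.ne']
      have h2 : cov ν a (‖x‖⁻¹ • x) (‖x‖⁻¹ • x) ≤ μ := hmax h1
      rw [cov_smul, cov_symm, cov_smul] at h2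
      have h3 : cov ν a x x = ‖x‖ ^ 2 * (‖x‖⁻¹ * (‖x‖⁻¹ * cov ν a x x)) := by
        field_simp
      rw [h3, mul_comm μ]
      gcongr
  -- kernel
  have hpsd : ∀ x y, (μ * ⟪x, y⟫ - cov ν a x y) ^ 2
      ≤ (μ * ‖x‖ ^ 2 - cov ν a x x) * (μ * ‖y‖ ^ 2 - cov ν a y y) := by
    intro x y
    refine cs_of _ _ _ fun s => ?_
    have h1 := hle (x + s • y)
    rw [cov_quad ha ha1, norm_add_sq_real, inner_smul_right, norm_smul, mul_pow, Real.norm_eq_abs,
      sq_abs] at h1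
    nlinarith
  let W : Submodule ℝ (EuclideanSpace ℝ (Fin d)) :=
    { carrier := {x | ∀ y, cov ν a x y = μ * ⟪x, y⟫}
      add_mem' := by
        intro x x' hx hx' y
        rw [cov_add ha ha1, hx y, hx' y, inner_add_left]
        ring
      zero_mem' := by
        intro y
        simp [cov]
      smul_mem' := by
        intro c x hx y
        rw [cov_smul, hx y, inner_smul_left]
        simp
        ring }
  have hWmem : ∀ x, x ∈ W ↔ ∀ y, cov ν a x y = μ * ⟪x, y⟫ := fun x => Iff.rfl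
  have hW2 : ∀ x, cov ν a x x = μ * ‖x‖ ^ 2 → x ∈ W := by
    intro x hx
    rw [hWmem]
    intro y
    have h1 := hpsd x y
    rw [hx, sub_self, zero_mul] at h1
    have h2 : μ * ⟪x, y⟫ - cov ν a x y = 0 := by
      have := le_antisymm h1 (sq_nonneg _)
      exact pow_eq_zero_iff (two_ne_zero) |>.mp this
    linarith
  have hW3 : ∀ x ∈ W, cov ν a x x = μ * ‖x‖ ^ 2 := by
    intro x hx
    rw [(hWmem x).mp hx x, real_inner_self_eq_norm_sq]
  have hwW : w ∈ W := hW2 w (by rw [hw1, ← hμ]; ring)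
  have hWne : W ≠ ⊥ := by
    intro hbot
    rw [hbot, Submodule.mem_bot] at hwW
    rw [hwW, norm_zero] at hw1
    exact zero_ne_one hw1
  have hD := hG W hWne (by
    intro T hT x hx
    refine hW2 _ ?_
    rw [hcov T hT, hiso T hT]
    exact hW3 x hx)
  -- Bessel
  set e := stdOrthonormalBasis ℝ W with he
  have hon : Orthonormal ℝ fun j => (e j : EuclideanSpace ℝ (Fin d)) :=
    e.orthonormal.comp_linearIsometry W.subtypeₗᵢ
  have hsum : (Module.finrank ℝ W : ℝ) * μ = ∑ j, cov ν a (e j : EuclideanSpace ℝ (Fin d)) (e j) := by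
    have : ∀ j, cov ν a (e j : EuclideanSpace ℝ (Fin d)) (e j) = μ := by
      intro j
      rw [hW3 _ (e j).2, hon.1 j]
      ring
    simp [this]
  have hbess : ∑ j, cov ν a (e j : EuclideanSpace ℝ (Fin d)) (e j) ≤ ∫ t, ‖a t‖ ^ 2 ∂ν := by
    have h1 : ∑ j, cov ν a (e j : EuclideanSpace ℝ (Fin d)) (e j)
        = ∫ t, ∑ j, ⟪a t, (e j : EuclideanSpace ℝ (Fin d))⟫ * ⟪a t, (e j : EuclideanSpace ℝ (Fin d))⟫ ∂ν := by
      rw [integral_finsetSum _ fun j _ => cov_int ha ha1 _ _]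
      rfl
    rw [h1]
    refine integral_mono (integrable_finsetSum _ fun j _ => cov_int ha ha1 _ _) ?_ fun t => ?_
    · refine Integrable.of_bound (ha.norm.pow_const 2).aestronglyMeasurable 1
        (Filter.Eventually.of_forall fun t => ?_)
      rw [norm_pow, norm_norm]
      exact pow_le_one₀ (norm_nonneg _) (ha1 t)
    · have h2 := hon.sum_inner_products_le (a t) (s := Finset.univ)
      refine le_trans (le_of_eq ?_) h2
      refine Finset.sum_congr rfl fun j _ => ?_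
      rw [Real.norm_eq_abs, sq_abs, real_inner_comm, sq]
  calc (D : ℝ) * cov ν a x x ≤ D * (μ * ‖x‖ ^ 2) := by
        gcongr
        exact hle x
    _ = (D * μ) * ‖x‖ ^ 2 := by ring
    _ ≤ (Module.finrank ℝ W * μ) * ‖x‖ ^ 2 := by
        gcongr
    _ ≤ _ := by
        rw [hsum]
        gcongr

end Pool.Agent.N555.RZ
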