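import Pool.Agent.N555.RZ.Mom
import Pool.Agent.N555.RZ.Group

set_option autoImplicit false

/-!
Isotropic position, and linear maps.
-/

namespace Pool.Agent.N555.RZ

open MeasureTheory Set
open scoped ENNReal RealInnerProductSpace

variable {d : ℕ}

theorem equiv_meas (A : EuclideanSpace ℝ (Fin d) ≃ₗ[ℝ] EuclideanSpace ℝ (Fin d)) :
    Measurable A := A.toContinuousLinearEquiv.continuous.measurable

theorem image_meas (A : EuclideanSpace ℝ (Fin d) ≃ₗ[ℝ] EuclideanSpace ℝ (Fin d))
    {K : Set (EuclideanSpace ℝ (Fin d))} (hK : MeasurableSet K) : MeasurableSet (A '' K) := by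
  have : A '' K = A.symm ⁻¹' K := by
    ext x
    simp only [Set.mem_image, Set.mem_preimage]
    constructor
    · rintro ⟨y, hy, rfl⟩
      simpa using hy
    · intro h
      exact ⟨A.symm x, h, by simp⟩
  rw [this]
  exact equiv_meas A.symm hK

/-- the image of the uniform probability measure under a linear map -/
theorem mP_map {K : Set (EuclideanSpace ℝ (Fin d))} (hK : MeasurableSet K)
    (A : EuclideanSpace ℝ (Fin d) ≃ₗ[ℝ] EuclideanSpace ℝ (Fin d)) :
    (mP K).map A = mP (A '' K) := by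
  have hdet : LinearMap.det (A : EuclideanSpace ℝ (Fin d) →ₗ[ℝ] EuclideanSpace ℝ (Fin d)) ≠ 0 :=
    (LinearEquiv.isUnit_det' A).ne_zero
  have h1 : Measure.map A (volume : Measure (EuclideanSpace ℝ (Fin d)))
      = ENNReal.ofReal |(LinearMap.det (A : EuclideanSpace ℝ (Fin d) →ₗ[ℝ] _))⁻¹| • volume :=
    Measure.map_linearMap_addHaar_eq_smul_addHaar volume hdet
  have h2 : (volume.restrict K).map A = (Measure.map A volume).restrict (A '' K) := by
    rw [Measure.restrict_map (equiv_meas A) (image_meas A hK)]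
    congr 2
    ext x
    simp
  have h3 : volume (A '' K)
      = ENNReal.ofReal |LinearMap.det (A : EuclideanSpace ℝ (Fin d) →ₗ[ℝ] _)| * volume K :=
    Measure.addHaar_image_linearMap volume (A : EuclideanSpace ℝ (Fin d) →ₗ[ℝ] _) K
  unfold mP
  rw [Measure.map_smul, h2, h1, Measure.restrict_smul, smul_smul, h3]
  congr 1
  have hpos : 0 < |LinearMap.det (A : EuclideanSpace ℝ (Fin d) →ₗ[ℝ] EuclideanSpace ℝ (Fin d))| :=
    abs_pos.mpr hdet
  rw [ENNReal.mul_inv (Or.inl (ENNReal.ofReal_pos.mpr hpos).ne') (Or.inl ENNReal.ofReal_ne_top),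
    abs_inv, ENNReal.ofReal_inv_of_pos hpos, mul_comm]

theorem cov_add' {Y : Type*} [MeasurableSpace Y] {ν : Measure Y} {a : Y → EuclideanSpace ℝ (Fin d)}
    (hI : ∀ x y, Integrable (fun t => ⟪a t, x⟫ * ⟪a t, y⟫) ν) (x x' y : EuclideanSpace ℝ (Fin d)) :
    cov ν a (x + x') y = cov ν a x y + cov ν a x' y := by
  unfold cov
  rw [← integral_add (hI _ _) (hI _ _)]
  congr 1
  ext t
  rw [inner_add_right, add_mul]

theorem cov_smul' {Y : Type*} [MeasurableSpace Y] {ν : Measure Y}
    {a : Y → EuclideanSpace ℝ (Fin d)} (c : ℝ) (x y : EuclideanSpace ℝ (Fin d)) :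
    cov ν a (c • x) y = c * cov ν a x y := by
  unfold cov
  rw [← integral_const_mul]
  congr 1
  ext t
  rw [inner_smul_right, mul_assoc]

theorem cov_symm' {Y : Type*} [MeasurableSpace Y] {ν : Measure Y}
    {a : Y → EuclideanSpace ℝ (Fin d)} (x y : EuclideanSpace ℝ (Fin d)) :
    cov ν a x y = cov ν a y x := by
  unfold cov
  simp only [mul_comm]

theorem int_K {K : Set (EuclideanSpace ℝ (Fin d))} (hKc : IsCompact K) (h0 : volume K ≠ 0)
    {h : EuclideanSpace ℝ (Fin d) → ℝ} (hh : Continuous h) : Integrable h (mP K) := by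
  unfold mP
  refine Integrable.smul_measure ?_ (ENNReal.inv_ne_top.mpr h0)
  exact hh.continuousOn.integrableOn_compact hKc

theorem exists_iso {K : Set (EuclideanSpace ℝ (Fin d))} (hKc : IsCompact K)
    (hK0 : K ∈ nhds (0 : EuclideanSpace ℝ (Fin d))) :
    ∃ A : EuclideanSpace ℝ (Fin d) ≃ₗ[ℝ] EuclideanSpace ℝ (Fin d),
      ∀ w, ∫ z, ⟪z, w⟫ ^ 2 ∂(mP (A '' K)) = ‖w‖ ^ 2 := by
  classical
  have h0 : volume K ≠ 0 := (Measure.measure_pos_of_mem_nhds volume hK0).ne'
  have hfin : volume K ≠ ⊤ := hKc.measure_lt_top.ne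
  have hPr := mP_prob h0 hfin
  have hI : ∀ x y : EuclideanSpace ℝ (Fin d),
      Integrable (fun t : EuclideanSpace ℝ (Fin d) => ⟪id t, x⟫ * ⟪id t, y⟫) (mP K) := by
    intro x y
    refine int_K hKc h0 ?_
    simp only [id]
    fun_prop
  let B : LinearMap.BilinForm ℝ (EuclideanSpace ℝ (Fin d)) :=
    LinearMap.mk₂ ℝ (cov (mP K) id) (fun x x' y => cov_add' hI x x' y)
      (fun c x y => cov_smul' c x y)
      (fun x y y' => by rw [cov_symm', cov_add' hI, cov_symm' y, cov_symm' y'])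
      (fun c x y => by rw [cov_symm', cov_smul', cov_symm' y]; rfl)
  have hB : ∀ x y, B x y = cov (mP K) id x y := fun x y => rfl
  have hBs : LinearMap.IsSymm B := ⟨fun x y => by
    rw [hB, hB, cov_symm']
    rfl⟩
  obtain ⟨v0, hv0⟩ := LinearMap.BilinForm.exists_orthogonal_basis hBs
  let v := v0.reindex (finCongr (finrank_euclideanSpace_fin (𝕜 := ℝ) (n := d)))
  have hv : ∀ i j, i ≠ j → B (v i) (v j) = 0 := by
    intro i j hij
    simp only [v, Module.Basis.reindex_apply]
    exact hv0 (by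
      intro h
      apply hij
      have := congrArg (finCongr (finrank_euclideanSpace_fin (𝕜 := ℝ) (n := d))) h
      simpa using this)
  have hpos : ∀ x : EuclideanSpace ℝ (Fin d), x ≠ 0 → 0 < B x x := by
    intro x hx
    rw [hB]
    unfold cov
    rw [integral_pos_iff_support_of_nonneg (fun t => mul_self_nonneg _) (hI x x)]
    have hnull : (mP K) (Function.support fun t : EuclideanSpace ℝ (Fin d) => ⟪id t, x⟫ * ⟪id t, x⟫)ᶜ
        = 0 := by
      have hsub : (Function.support fun t : EuclideanSpace ℝ (Fin d) => ⟪id t, x⟫ * ⟪id t, x⟫)ᶜ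
          = ((ℝ ∙ x)ᗮ : Submodule ℝ (EuclideanSpace ℝ (Fin d))) := by
        ext t
        simp only [Set.mem_compl_iff, Function.mem_support, id, SetLike.mem_coe,
          Submodule.mem_orthogonal_singleton_iff_inner_left]
        simp
      have hvol : volume (((ℝ ∙ x)ᗮ : Submodule ℝ (EuclideanSpace ℝ (Fin d))) :
          Set (EuclideanSpace ℝ (Fin d))) = 0 := by
        refine Measure.addHaar_submodule _ _ ?_
        intro htop
        have : x ∈ ((ℝ ∙ x)ᗮ : Submodule ℝ (EuclideanSpace ℝ (Fin d))) := by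
          rw [htop]; trivial
        rw [Submodule.mem_orthogonal_singleton_iff_inner_left] at this
        exact hx (inner_self_eq_zero.mp this)
      rw [hsub, mP, Measure.smul_apply, smul_eq_mul]
      have : volume.restrict K (((ℝ ∙ x)ᗮ : Submodule ℝ (EuclideanSpace ℝ (Fin d))) :
          Set (EuclideanSpace ℝ (Fin d))) = 0 :=
        le_antisymm ((Measure.restrict_apply_le _ _).trans hvol.le) bot_le
      rw [this, mul_zero]
    by_contra hcon
    have h2 : (mP K) (Function.support fun t : EuclideanSpace ℝ (Fin d) => ⟪id t, x⟫ * ⟪id t, x⟫)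
        = 0 := le_antisymm (not_lt.mp hcon) bot_le
    have h3 : (mP K) Set.univ ≤ 0 := by
      rw [← Set.union_compl_self (Function.support fun t : EuclideanSpace ℝ (Fin d) =>
        ⟪id t, x⟫ * ⟪id t, x⟫)]
      refine (measure_union_le _ _).trans ?_
      rw [h2, hnull, add_zero]
    rw [measure_univ] at h3
    exact absurd h3 (by norm_num)
  set b : Fin d → EuclideanSpace ℝ (Fin d) := fun i => (Real.sqrt (B (v i) (v i)))⁻¹ • v i with hb
  have hvpos : ∀ i, 0 < B (v i) (v i) := fun i => hpos _ (v.ne_zero i)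
  have hbb : ∀ i j, B (b i) (b j) = if i = j then 1 else 0 := by
    intro i j
    simp only [hb, map_smul, LinearMap.smul_apply, smul_eq_mul]
    split_ifs with h
    · subst h
      have h1 := Real.mul_self_sqrt (hvpos i).le
      have h2 : Real.sqrt (B (v i) (v i)) ≠ 0 := (Real.sqrt_pos.mpr (hvpos i)).ne'
      field_simp
      rw [sq, h1]
    · rw [hv i j h]
      ring
  let A0 : EuclideanSpace ℝ (Fin d) →ₗ[ℝ] EuclideanSpace ℝ (Fin d) :=
    { toFun := fun z => WithLp.toLp 2 fun i => ⟪b i, z⟫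
      map_add' := by
        intro x y
        ext i
        simp [inner_add_right]
      map_smul' := by
        intro c x
        ext i
        simp [inner_smul_right] }
  have hA0 : ∀ z i, (A0 z) i = ⟪b i, z⟫ := fun z i => rfl
  have hinj : Function.Injective A0 := by
    rw [injective_iff_map_eq_zero]
    intro z hz
    have h2 : innerₛₗ ℝ z = 0 := by
      refine v.ext fun i => ?_
      rw [innerₛₗ_apply_apply, LinearMap.zero_apply]
      have h1 : (A0 z) i = 0 := by rw [hz]; rfl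
      rw [hA0, hb] at h1
      simp only [inner_smul_left, RCLike.conj_to_real, mul_eq_zero] at h1
      rw [real_inner_comm]
      rcases h1 with h | h
      · exact absurd h (inv_ne_zero (Real.sqrt_pos.mpr (hvpos i)).ne')
      · exact h
    have h3 : ⟪z, z⟫ = 0 := by
      rw [← innerₛₗ_apply_apply (𝕜 := ℝ), h2, LinearMap.zero_apply]
    exact inner_self_eq_zero.mp h3
  let A : EuclideanSpace ℝ (Fin d) ≃ₗ[ℝ] EuclideanSpace ℝ (Fin d) :=
    LinearEquiv.ofInjectiveEndo A0 hinj
  have hA : ∀ z, A z = A0 z := fun z => rfl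
  refine ⟨A, fun w => ?_⟩
  have hc : Continuous fun z : EuclideanSpace ℝ (Fin d) => ⟪z, w⟫ ^ 2 := by fun_prop
  rw [← mP_map hKc.isClosed.measurableSet A, integral_map (equiv_meas A).aemeasurable
    hc.aestronglyMeasurable]
  have e1 : ∀ z : EuclideanSpace ℝ (Fin d), ⟪A z, w⟫ = ⟪z, ∑ i, w i • b i⟫ := by
    intro z
    rw [inner_sum, PiLp.inner_apply]
    refine Finset.sum_congr rfl fun i _ => ?_
    rw [hA, hA0, inner_smul_right, real_inner_comm z]
    simp [mul_comm]
  have e2 : ∫ z, ⟪A z, w⟫ ^ 2 ∂(mP K) = B (∑ i, w i • b i) (∑ i, w i • b i) := by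
    rw [hB]
    unfold cov
    congr 1
    ext z
    rw [e1, sq]
    rfl
  rw [e2, EuclideanSpace.norm_sq_eq]
  simp only [map_sum, LinearMap.sum_apply, map_smul, LinearMap.smul_apply, hbb, smul_eq_mul,
    mul_ite, mul_one, mul_zero, Finset.sum_ite_eq, Finset.sum_ite_eq', Finset.mem_univ, if_true,
    Real.norm_eq_abs, sq_abs]
  refine Finset.sum_congr rfl fun i _ => ?_
  ring

/-- A linear map preserving an isotropic body is an isometry -/
theorem isometry_of_iso {K : Set (EuclideanSpace ℝ (Fin d))} (hKc : IsCompact K)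
    (hiso : ∀ w : EuclideanSpace ℝ (Fin d), ∫ z, ⟪z, w⟫ ^ 2 ∂(mP K) = ‖w‖ ^ 2)
    (T : EuclideanSpace ℝ (Fin d) ≃ₗ[ℝ] EuclideanSpace ℝ (Fin d)) (hT : T '' K = K)
    (x : EuclideanSpace ℝ (Fin d)) : ‖T x‖ = ‖x‖ := by
  set S : EuclideanSpace ℝ (Fin d) →ₗ[ℝ] EuclideanSpace ℝ (Fin d) :=
    LinearMap.adjoint (T : EuclideanSpace ℝ (Fin d) →ₗ[ℝ] EuclideanSpace ℝ (Fin d)) with hS
  have hadj : ∀ x y, ⟪x, S y⟫ = ⟪T x, y⟫ := fun x y =>
    LinearMap.adjoint_inner_right (T : EuclideanSpace ℝ (Fin d) →ₗ[ℝ] EuclideanSpace ℝ (Fin d)) x y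
  have h1 : ∀ w, ‖S w‖ = ‖w‖ := by
    intro w
    have hc : Continuous fun z : EuclideanSpace ℝ (Fin d) => ⟪z, w⟫ ^ 2 := by fun_prop
    have h2 : ‖S w‖ ^ 2 = ‖w‖ ^ 2 := by
      rw [← hiso (S w), ← hiso w]
      conv_rhs => rw [← hT, ← mP_map hKc.isClosed.measurableSet T,
        integral_map (equiv_meas T).aemeasurable hc.aestronglyMeasurable]
      simp only [hadj]
    exact (pow_left_inj₀ (norm_nonneg _) (norm_nonneg _) two_ne_zero).mp h2
  have h3 := (LinearMap.norm_map_iff_inner_map_map S).mp h1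
  have h4 : ∀ w, T (S w) = w := by
    intro w
    refine ext_inner_right ℝ fun y => ?_
    rw [← hadj, h3]
  have h5 : S (T x) = x := T.injective (h4 (T x))
  rw [← h1 (T x), h5]

theorem gauge_inv {K : Set (EuclideanSpace ℝ (Fin d))}
    (T : EuclideanSpace ℝ (Fin d) ≃ₗ[ℝ] EuclideanSpace ℝ (Fin d)) (hT : T '' K = K)
    (x : EuclideanSpace ℝ (Fin d)) : gauge K (T x) = gauge K x := by
  rw [gauge_def', gauge_def']
  congr 1
  ext r
  simp only [Set.mem_ofPred_eq]
  refine and_congr_right fun _ => ?_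
  rw [← map_smul]
  constructor
  · intro h
    rw [← hT] at h
    obtain ⟨y, hy, hyx⟩ := h
    rwa [← T.injective hyx]
  · intro h
    rw [← hT]
    exact ⟨_, h, rfl⟩

theorem fderiv_inv {K : Set (EuclideanSpace ℝ (Fin d))}
    (T : EuclideanSpace ℝ (Fin d) ≃ₗ[ℝ] EuclideanSpace ℝ (Fin d)) (hT : T '' K = K)
    (y x : EuclideanSpace ℝ (Fin d)) :
    fderiv ℝ (gauge K) (T y) (T x) = fderiv ℝ (gauge K) y x := by
  have h1 : (gauge K) ∘ T.toContinuousLinearEquiv = gauge K := by
    ext x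
    exact gauge_inv T hT x
  have h2 := ContinuousLinearEquiv.comp_right_fderiv (𝕜 := ℝ) T.toContinuousLinearEquiv
    (f := gauge K) (x := y)
  rw [h1] at h2
  rw [h2]
  rfl

end Pool.Agent.N555.RZ
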