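import Pool.Agent.N555.RZ.Cube
import Pool.Agent.N555.RZ.Bern0

set_option autoImplicit false

/-!
The Rademacher projection (K-convexity): if `z δ` is in the unit ball for all signs `δ` then the
Rademacher part of `z` has norm at most `4 N` in `L²`, where `2^N` is at least the distance of
the space from a Euclidean space.
-/

namespace Pool.Agent.N555.RZ

open Finset
open scoped RealInnerProductSpace

variable {n : ℕ}

/-- Walsh functions -/
def wal (S : Finset (Fin n)) (δ : Fin n → Bool) : ℝ := ∏ i ∈ S, sg (δ i)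

theorem wal_eq (S : Finset (Fin n)) (δ : Fin n → Bool) :
    wal S δ = ∏ i, if i ∈ S then sg (δ i) else 1 := by
  rw [wal, Finset.prod_ite_mem, Finset.univ_inter]

theorem wal_orth (S T : Finset (Fin n)) :
    ∑ δ : Fin n → Bool, wal S δ * wal T δ = if S = T then 2 ^ n else 0 := by
  have h1 : ∀ δ : Fin n → Bool, wal S δ * wal T δ
      = ∏ i, (if i ∈ S then sg (δ i) else 1) * (if i ∈ T then sg (δ i) else 1) := by
    intro δ
    rw [wal_eq, wal_eq, ← Finset.prod_mul_distrib]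
  simp only [h1]
  rw [sum_prod (fun i b => (if i ∈ S then sg b else 1) * (if i ∈ T then sg b else 1))]
  split_ifs with h
  · subst h
    have : ∀ i, ((if i ∈ S then sg true else 1) * (if i ∈ S then sg true else 1)
        + (if i ∈ S then sg false else 1) * (if i ∈ S then sg false else 1)) = 2 := by
      intro i
      split_ifs <;> norm_num [sg]
    simp only [this]
    simp
  · have : ∃ i, ¬ (i ∈ S ↔ i ∈ T) := by
      by_contra hcon
      push Not at hcon
      exact h (Finset.ext hcon)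
    obtain ⟨i, hi⟩ := this
    refine Finset.prod_eq_zero (Finset.mem_univ i) ?_
    by_cases h1 : i ∈ S <;> by_cases h2 : i ∈ T <;> simp_all [sg]

variable {V : Type*} [AddCommGroup V] [Module ℝ V]

/-- Walsh coefficients -/
noncomputable def hat (z : (Fin n → Bool) → V) (S : Finset (Fin n)) : V :=
  ((2 : ℝ) ^ n)⁻¹ • ∑ δ, wal S δ • z δ

/-- homogeneous parts -/
noncomputable def hom (z : (Fin n → Bool) → V) (k : ℕ) (δ : Fin n → Bool) : V :=
  ∑ S ∈ Finset.powersetCard k Finset.univ, wal S δ • hat z S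

theorem hom_zero (z : (Fin n → Bool) → V) (k : ℕ) (hk : n < k) (δ : Fin n → Bool) :
    hom z k δ = 0 := by
  unfold hom
  rw [Finset.powersetCard_eq_empty.mpr (by simpa using hk), Finset.sum_empty]

theorem noise (z : (Fin n → Bool) → V) (ρ : ℝ) (δ : Fin n → Bool) :
    ∑ k ∈ Finset.range (n + 1), ρ ^ k • hom z k δ
      = ((2 : ℝ) ^ n)⁻¹ • ∑ δ' : Fin n → Bool, R δ' (fun i => ρ * sg (δ i)) • z δ' := by
  have h1 : ∀ δ' : Fin n → Bool, R δ' (fun i => ρ * sg (δ i))
      = ∑ S ∈ (Finset.univ : Finset (Fin n)).powerset, ρ ^ S.card * (wal S δ * wal S δ') := by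
    intro δ'
    rw [R, Finset.prod_one_add]
    refine Finset.sum_congr rfl fun S _ => ?_
    rw [wal, wal, ← Finset.prod_mul_distrib, ← Finset.prod_const, ← Finset.prod_mul_distrib]
    refine Finset.prod_congr rfl fun i _ => ?_
    ring
  simp only [h1]
  simp only [Finset.sum_smul]
  rw [Finset.sum_comm, Finset.smul_sum, Finset.sum_powerset]
  rw [Finset.card_univ, Fintype.card_fin]
  refine Finset.sum_congr rfl fun k _ => ?_
  rw [hom, Finset.smul_sum]
  refine Finset.sum_congr rfl fun S hS => ?_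
  have hc : S.card = k := (Finset.mem_powersetCard.mp hS).2
  rw [hat, hc, smul_smul, smul_smul, Finset.smul_sum, Finset.smul_sum]
  refine Finset.sum_congr rfl fun δ' _ => ?_
  rw [smul_smul, smul_smul]
  congr 1
  ring

theorem noise_one (z : (Fin n → Bool) → V) (δ : Fin n → Bool) :
    ∑ k ∈ Finset.range (n + 1), hom z k δ = z δ := by
  have h := noise z 1 δ
  simp only [one_pow, one_smul, one_mul] at h
  rw [h, Finset.sum_eq_single δ]
  · have : R δ (fun i => sg (δ i)) = 2 ^ n := by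
      rw [R]
      have : ∀ i, 1 + sg (δ i) * sg (δ i) = 2 := fun i => by rw [sg_sq]; norm_num
      simp [this]
    rw [this, smul_smul, inv_mul_cancel₀ (by positivity), one_smul]
  · intro δ' _ hδ
    have : ∃ i, δ' i ≠ δ i := by
      by_contra hcon
      push Not at hcon
      exact hδ (funext hcon)
    obtain ⟨i, hi⟩ := this
    have : R δ' (fun i => sg (δ i)) = 0 := by
      refine Finset.prod_eq_zero (Finset.mem_univ i) ?_
      cases h1 : δ' i <;> cases h2 : δ i <;> simp_all [sg]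
    rw [this, zero_smul]
  · intro h
    exact absurd (Finset.mem_univ _) h

theorem seminorm_sum' (N : Seminorm ℝ V) {ι : Type*} (s : Finset ι) (g : ι → V) :
    N (∑ i ∈ s, g i) ≤ ∑ i ∈ s, N (g i) :=
  Finset.le_sum_of_subadditive N (map_zero N).le (map_add_le_add N) s g

theorem noise_le (N : Seminorm ℝ V) (z : (Fin n → Bool) → V) (hz : ∀ δ, N (z δ) ≤ 1) (ρ : ℝ)
    (hρ : |ρ| ≤ 1) (δ : Fin n → Bool) :
    N (∑ k ∈ Finset.range (n + 1), ρ ^ k • hom z k δ) ≤ 1 := by
  rw [noise, map_smul_eq_mul, norm_inv, norm_pow, Real.norm_ofNat, inv_mul_le_iff₀ (by positivity),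
    mul_one]
  have hb : ∀ i, |ρ * sg (δ i)| ≤ 1 := fun i => by rw [abs_mul, sg_abs, mul_one]; exact hρ
  calc N (∑ δ' : Fin n → Bool, R δ' (fun i => ρ * sg (δ i)) • z δ')
      ≤ ∑ δ' : Fin n → Bool, N (R δ' (fun i => ρ * sg (δ i)) • z δ') := seminorm_sum' N _ _
    _ ≤ ∑ δ' : Fin n → Bool, R δ' (fun i => ρ * sg (δ i)) := by
        refine Finset.sum_le_sum fun δ' _ => ?_
        have h0 := R_nonneg δ' (fun i => ρ * sg (δ i)) hb
        rw [map_smul_eq_mul, Real.norm_of_nonneg h0]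
        calc _ ≤ R δ' (fun i => ρ * sg (δ i)) * 1 := by
              gcongr
              exact hz δ'
          _ = _ := mul_one _
    _ = 2 ^ n := sum_R _

section Hilbert

variable {H : Type*} [NormedAddCommGroup H] [InnerProductSpace ℝ H]

theorem parseval (A : Finset (Finset (Fin n))) (c : Finset (Fin n) → H) :
    ∑ δ : Fin n → Bool, ‖∑ S ∈ A, wal S δ • c S‖ ^ 2 = 2 ^ n * ∑ S ∈ A, ‖c S‖ ^ 2 := by
  have h1 : ∀ δ : Fin n → Bool, ‖∑ S ∈ A, wal S δ • c S‖ ^ 2
      = ∑ S ∈ A, ∑ T ∈ A, (wal S δ * wal T δ) * ⟪c S, c T⟫ := by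
    intro δ
    rw [← real_inner_self_eq_norm_sq, sum_inner]
    refine Finset.sum_congr rfl fun S _ => ?_
    rw [inner_sum]
    refine Finset.sum_congr rfl fun T _ => ?_
    rw [inner_smul_left, inner_smul_right]
    simp
    ring
  simp only [h1]
  rw [Finset.sum_comm, Finset.mul_sum]
  refine Finset.sum_congr rfl fun S hS => ?_
  rw [Finset.sum_comm]
  simp only [← Finset.sum_mul, wal_orth]
  rw [Finset.sum_eq_single S]
  · simp
  · intro T _ hT
    rw [if_neg (Ne.symm hT), zero_mul]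
  · intro h
    exact absurd hS h

theorem hat_map (L : V →ₗ[ℝ] H) (z : (Fin n → Bool) → V) (S : Finset (Fin n)) :
    L (hat z S) = hat (fun δ => L (z δ)) S := by
  simp only [hat, map_smul, map_sum]

theorem hom_map (L : V →ₗ[ℝ] H) (z : (Fin n → Bool) → V) (k : ℕ) (δ : Fin n → Bool) :
    L (hom z k δ) = hom (fun δ => L (z δ)) k δ := by
  simp only [hom, map_sum, map_smul, hat_map]

theorem hom_bessel (z : (Fin n → Bool) → H) (k : ℕ) :
    ∑ δ : Fin n → Bool, ‖hom z k δ‖ ^ 2 ≤ ∑ δ : Fin n → Bool, ‖z δ‖ ^ 2 := by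
  have h1 : ∀ δ, z δ = ∑ S ∈ (Finset.univ : Finset (Fin n)).powerset, wal S δ • hat z S := by
    intro δ
    conv_lhs => rw [← noise_one z δ]
    rw [Finset.sum_powerset, Finset.card_univ, Fintype.card_fin]
    rfl
  have h2 : ∑ δ : Fin n → Bool, ‖z δ‖ ^ 2
      = 2 ^ n * ∑ S ∈ (Finset.univ : Finset (Fin n)).powerset, ‖hat z S‖ ^ 2 := by
    rw [← parseval]
    refine Finset.sum_congr rfl fun δ _ => ?_
    rw [← h1]
  rw [h2]
  unfold hom
  rw [parseval]
  gcongr
  intro S _
  simp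

end Hilbert

/-- Hahn–Banach for a seminorm -/
theorem exists_func (N : Seminorm ℝ V) (x : V) :
    ∃ φ : V →ₗ[ℝ] ℝ, φ x = N x ∧ ∀ y, |φ y| ≤ N y := by
  by_cases hx : x = 0
  · subst hx
    exact ⟨0, by simp, fun y => by simp⟩
  · set f : V →ₗ.[ℝ] ℝ := LinearPMap.mkSpanSingleton x (N x) hx with hf
    obtain ⟨φ, h1, h2⟩ := exists_extension_of_le_sublinear f N
      (fun c hc y => by rw [map_smul_eq_mul, Real.norm_of_nonneg hc.le])
      (fun y y' => map_add_le_add N y y') (by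
        rintro ⟨y, hy⟩
        obtain ⟨t, rfl⟩ := Submodule.mem_span_singleton.mp hy
        have e : f ⟨t • x, hy⟩ = t * N x := by
          exact LinearPMap.mkSpanSingleton'_apply x (N x) _ t _
        rw [e, map_smul_eq_mul, Real.norm_eq_abs]
        gcongr
        exact le_abs_self t)
    refine ⟨φ, ?_, fun y => ?_⟩
    · have h3 := h1 ⟨(1 : ℝ) • x, Submodule.mem_span_singleton.mpr ⟨1, rfl⟩⟩
      have e : f ⟨(1 : ℝ) • x, Submodule.mem_span_singleton.mpr ⟨1, rfl⟩⟩ = 1 * N x := by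
        exact LinearPMap.mkSpanSingleton'_apply x (N x) _ 1 _
      rw [e] at h3
      simpa using h3
    · rw [abs_le]
      constructor
      · have := h2 (-y)
        rw [map_neg, map_neg_eq_map] at this
        linarith
      · exact h2 y

/-- **The Rademacher projection.** -/
theorem rad (N : Seminorm ℝ V) {d : ℕ} (L : V →ₗ[ℝ] EuclideanSpace ℝ (Fin d)) (α β : ℝ)
    (hα : 0 ≤ α) (hβ : 0 ≤ β) (h1 : ∀ x, N x ≤ α * ‖L x‖) (h2 : ∀ x, ‖L x‖ ≤ β * N x)
    (N₀ : ℕ) (hN : 1 ≤ N₀) (hN2 : α * β ≤ 2 ^ N₀) (z : (Fin n → Bool) → V)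
    (hz : ∀ δ, N (z δ) ≤ 1) :
    ∑ δ : Fin n → Bool, N (∑ i, sg (δ i) • hat z {i}) ^ 2 ≤ 2 ^ n * (4 * N₀) ^ 2 := by
  classical
  have hW1 : ∀ δ : Fin n → Bool, hom z 1 δ = ∑ i, sg (δ i) • hat z {i} := by
    intro δ
    rw [hom, Finset.powersetCard_one, Finset.sum_map]
    refine Finset.sum_congr rfl fun i _ => ?_
    simp [wal]
  simp only [← hW1]
  -- second moments of the homogeneous parts
  have hk : ∀ k, ∑ δ : Fin n → Bool, N (hom z k δ) ^ 2 ≤ (α * β) ^ 2 * 2 ^ n := by
    intro k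
    calc ∑ δ : Fin n → Bool, N (hom z k δ) ^ 2
        ≤ ∑ δ : Fin n → Bool, α ^ 2 * ‖hom (fun δ => L (z δ)) k δ‖ ^ 2 := by
          refine Finset.sum_le_sum fun δ _ => ?_
          rw [← hom_map, ← mul_pow]
          exact pow_le_pow_left₀ (apply_nonneg N _) (h1 _) 2
      _ = α ^ 2 * ∑ δ : Fin n → Bool, ‖hom (fun δ => L (z δ)) k δ‖ ^ 2 := by
          rw [Finset.mul_sum]
      _ ≤ α ^ 2 * ∑ δ : Fin n → Bool, ‖L (z δ)‖ ^ 2 := by
          exact mul_le_mul_of_nonneg_left (hom_bessel (fun δ => L (z δ)) k) (sq_nonneg _)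
      _ ≤ α ^ 2 * ∑ _δ : Fin n → Bool, β ^ 2 := by
          gcongr with δ _
          have := h2 (z δ)
          calc ‖L (z δ)‖ ≤ β * N (z δ) := this
            _ ≤ β * 1 := by gcongr; exact hz δ
            _ = β := mul_one _
      _ = (α * β) ^ 2 * 2 ^ n := by
          simp
          ring
  -- the tail
  set p : ℕ → ℝ := fun j => (1 / 2) ^ (N₀ + 1 + j) with hp
  have hp0 : ∀ j, 0 ≤ p j := fun j => by positivity
  have hps : ∑ j ∈ Finset.range n, p j ≤ (1 / 2) ^ N₀ := by
    have : ∀ m : ℕ, ∑ j ∈ Finset.range m, p j = (1 / 2) ^ N₀ * (1 - (1 / 2) ^ m) := by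
      intro m
      induction m with
      | zero => simp
      | succ m ih =>
        rw [Finset.sum_range_succ, ih, hp]
        simp only [pow_add]
        ring
    rw [this]
    have : (0 : ℝ) ≤ (1 / 2) ^ N₀ * (1 / 2) ^ n := by positivity
    nlinarith
  set tail : (Fin n → Bool) → ℝ := fun δ => ∑ j ∈ Finset.range n, p j * N (hom z (N₀ + 1 + j) δ)
    with htail
  have htail0 : ∀ δ, 0 ≤ tail δ := fun δ => Finset.sum_nonneg fun j _ =>
    mul_nonneg (hp0 j) (apply_nonneg N _)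
  have htail2 : ∑ δ, tail δ ^ 2 ≤ 2 ^ n := by
    calc ∑ δ, tail δ ^ 2
        ≤ ∑ δ : Fin n → Bool, (∑ j ∈ Finset.range n, p j) *
          ∑ j ∈ Finset.range n, p j * N (hom z (N₀ + 1 + j) δ) ^ 2 := by
          refine Finset.sum_le_sum fun δ _ => ?_
          refine Finset.sum_sq_le_sum_mul_sum_of_sq_le_mul _ (fun j _ => hp0 j)
            (fun j _ => mul_nonneg (hp0 j) (sq_nonneg _)) (fun j _ => le_of_eq ?_)
          ring
      _ = (∑ j ∈ Finset.range n, p j) * ∑ j ∈ Finset.range n,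
          p j * ∑ δ : Fin n → Bool, N (hom z (N₀ + 1 + j) δ) ^ 2 := by
          rw [← Finset.mul_sum, Finset.sum_comm]
          simp only [Finset.mul_sum]
      _ ≤ (∑ j ∈ Finset.range n, p j) * ∑ j ∈ Finset.range n, p j * ((α * β) ^ 2 * 2 ^ n) := by
          have : 0 ≤ ∑ j ∈ Finset.range n, p j := Finset.sum_nonneg fun j _ => hp0 j
          gcongr with j _
          exact hk _
      _ = (∑ j ∈ Finset.range n, p j) ^ 2 * (α * β) ^ 2 * 2 ^ n := by
          rw [← Finset.sum_mul]; ring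
      _ ≤ ((1 / 2) ^ N₀) ^ 2 * (2 ^ N₀) ^ 2 * 2 ^ n := by
          have : 0 ≤ ∑ j ∈ Finset.range n, p j := Finset.sum_nonneg fun j _ => hp0 j
          gcongr ?_ ^ 2 * ?_ ^ 2 * 2 ^ n
      _ = 2 ^ n := by
          rw [← mul_pow, ← mul_pow]
          norm_num
  -- pointwise
  have hpt : ∀ δ, N (hom z 1 δ) ≤ 2 * N₀ * (1 + tail δ) := by
    intro δ
    obtain ⟨φ, hφ1, hφ2⟩ := exists_func N (hom z 1 δ)
    have hb := bern_half N₀ hN (fun k => φ (hom z k δ)) (1 + tail δ) (by
      intro ρ hρ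
      have hρ1 : |ρ| ≤ 1 := by linarith
      have e1 : ∑ k ∈ Finset.range (N₀ + 1 + n), ρ ^ k • hom z k δ
          = ∑ k ∈ Finset.range (n + 1), ρ ^ k • hom z k δ := by
        have e2 : N₀ + 1 + n = (n + 1) + N₀ := by ring
        rw [e2, Finset.sum_range_add]
        have : ∑ x ∈ Finset.range N₀, ρ ^ (n + 1 + x) • hom z (n + 1 + x) δ = 0 := by
          refine Finset.sum_eq_zero fun x _ => ?_
          rw [hom_zero z _ (by omega), smul_zero]
        rw [this, add_zero]
      have e3 : ∑ k ∈ Finset.range (N₀ + 1), φ (hom z k δ) * ρ ^ k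
          = φ (∑ k ∈ Finset.range (n + 1), ρ ^ k • hom z k δ)
            - ∑ j ∈ Finset.range n, ρ ^ (N₀ + 1 + j) * φ (hom z (N₀ + 1 + j) δ) := by
        rw [← e1, Finset.sum_range_add _ (N₀ + 1) n, map_add, map_sum, map_sum]
        simp only [map_smul, smul_eq_mul]
        rw [add_sub_cancel_right]
        refine Finset.sum_congr rfl fun k _ => ?_
        ring
      rw [e3]
      refine (abs_sub _ _).trans (add_le_add ?_ ?_)
      · exact (hφ2 _).trans (noise_le N z hz ρ hρ1 δ)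
      · refine (Finset.abs_sum_le_sum_abs _ _).trans (Finset.sum_le_sum fun j _ => ?_)
        rw [abs_mul, abs_pow]
        exact mul_le_mul (pow_le_pow_left₀ (abs_nonneg _) hρ _) (hφ2 _) (abs_nonneg _) (hp0 j))
    rw [hφ1, abs_of_nonneg (apply_nonneg N _)] at hb
    exact hb
  calc ∑ δ : Fin n → Bool, N (hom z 1 δ) ^ 2
      ≤ ∑ δ : Fin n → Bool, (2 * N₀) ^ 2 * (2 + 2 * tail δ ^ 2) := by
        refine Finset.sum_le_sum fun δ _ => ?_
        have h3 : N (hom z 1 δ) ^ 2 ≤ (2 * N₀ * (1 + tail δ)) ^ 2 :=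
          pow_le_pow_left₀ (apply_nonneg N _) (hpt δ) 2
        refine h3.trans ?_
        rw [mul_pow]
        gcongr
        nlinarith [sq_nonneg (1 - tail δ)]
    _ = (2 * N₀) ^ 2 * (2 * 2 ^ n + 2 * ∑ δ, tail δ ^ 2) := by
        rw [← Finset.mul_sum, Finset.sum_add_distrib, ← Finset.mul_sum, Finset.sum_const,
          Finset.card_univ]
        simp only [Fintype.card_pi, Fintype.card_bool, Finset.prod_const, Finset.card_univ,
          Fintype.card_fin, nsmul_eq_mul]
        push_cast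
        ring
    _ ≤ (2 * N₀) ^ 2 * (2 * 2 ^ n + 2 * 2 ^ n) := by gcongr
    _ = 2 ^ n * (4 * N₀) ^ 2 := by ring

end Pool.Agent.N555.RZ
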