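import Pool.Agent.N555.RZ.Fix

set_option autoImplicit false

/-!
Riesz products of random functions: if the kernel `k(z, z') = ∫ f(y, z) f(y, z') dν(y)` is small
then there are `m` functions `f(ζ_i, ·)` whose signs are almost independent.
-/

namespace Pool.Agent.N555.RZ

open Finset MeasureTheory

variable {m : ℕ} {Y Z : Type*} [MeasurableSpace Y] [MeasurableSpace Z]

/-- the kernel -/
noncomputable def ker (ν : Measure Y) (f : Y → Z → ℝ) (p : Z × Z) : ℝ :=
  ∫ y, f y p.1 * f y p.2 ∂ν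

variable {ν : Measure Y} {P : Measure Z} [IsProbabilityMeasure ν] [IsProbabilityMeasure P]
  {f : Y → Z → ℝ}

theorem ker_abs_le (hf1 : ∀ y z, |f y z| ≤ 1) (p : Z × Z) : |ker ν f p| ≤ 1 := by
  unfold ker
  have h := norm_integral_le_of_norm_le_const (μ := ν) (f := fun y => f y p.1 * f y p.2) (C := 1)
    (Filter.Eventually.of_forall fun y => by
      rw [Real.norm_eq_abs, abs_mul]
      exact mul_le_one₀ (hf1 _ _) (abs_nonneg _) (hf1 _ _))
  simpa using h

theorem meas_slice (hf : Measurable (Function.uncurry f)) (z : Z) : Measurable fun y => f y z :=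
  hf.comp (measurable_id.prodMk measurable_const)

theorem meas_ff (hf : Measurable (Function.uncurry f)) :
    Measurable fun q : (Z × Z) × Y => f q.2 q.1.1 * f q.2 q.1.2 := by
  have h1 : Measurable fun q : (Z × Z) × Y => f q.2 q.1.1 :=
    hf.comp (measurable_snd.prodMk (measurable_fst.comp measurable_fst))
  have h2 : Measurable fun q : (Z × Z) × Y => f q.2 q.1.2 :=
    hf.comp (measurable_snd.prodMk (measurable_snd.comp measurable_fst))
  exact h1.mul h2

theorem meas_ker (hf : Measurable (Function.uncurry f)) : Measurable (ker ν f) := by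
  unfold ker
  exact ((meas_ff hf).stronglyMeasurable.integral_prod_right' (ν := ν)).measurable

theorem meas_f_pi (hf : Measurable (Function.uncurry f)) (i : Fin m) :
    Measurable fun q : (Fin m → Y) × (Z × Z) => f (q.1 i) q.2.1 := by
  have h1 : Measurable fun q : (Fin m → Y) × (Z × Z) => q.1 i :=
    (measurable_pi_apply i).comp measurable_fst
  have h2 : Measurable fun q : (Fin m → Y) × (Z × Z) => q.2.1 :=
    measurable_fst.comp measurable_snd
  exact hf.comp (h1.prodMk h2)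

theorem meas_f_pi2 (hf : Measurable (Function.uncurry f)) (i : Fin m) :
    Measurable fun q : (Fin m → Y) × (Z × Z) => f (q.1 i) q.2.2 := by
  have h1 : Measurable fun q : (Fin m → Y) × (Z × Z) => q.1 i :=
    (measurable_pi_apply i).comp measurable_fst
  have h2 : Measurable fun q : (Fin m → Y) × (Z × Z) => q.2.2 :=
    measurable_snd.comp measurable_snd
  exact hf.comp (h1.prodMk h2)

/-- average of the product over the choice of the functions -/
theorem avg_prod (hf : Measurable (Function.uncurry f)) (hf1 : ∀ y z, |f y z| ≤ 1) (p : Z × Z) :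
    ∫ ζ : Fin m → Y, ∏ i, (1 + f (ζ i) p.1 * f (ζ i) p.2) ∂(Measure.pi fun _ => ν)
      = (1 + ker ν f p) ^ m := by
  have h := integral_fintype_prod_eq_prod (μ := fun _ : Fin m => ν)
    (fun _ : Fin m => fun y : Y => 1 + f y p.1 * f y p.2)
  rw [h]
  have hi : Integrable (fun y => f y p.1 * f y p.2) ν :=
    intg ν ((meas_slice hf _).mul (meas_slice hf _)) 1 fun y => by
      rw [abs_mul]; exact mul_le_one₀ (hf1 _ _) (abs_nonneg _) (hf1 _ _)
  have e : ∫ y, (1 + f y p.1 * f y p.2) ∂ν = 1 + ker ν f p := by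
    rw [integral_add (integrable_const _) hi]
    simp [ker]
  simp [e]

theorem avg_prod2 (hf : Measurable (Function.uncurry f)) (hf1 : ∀ y z, |f y z| ≤ 1) (p : Z × Z)
    (j : Fin m) :
    ∫ ζ : Fin m → Y, f (ζ j) p.1 * f (ζ j) p.2 * ∏ i, (1 + f (ζ i) p.1 * f (ζ i) p.2)
        ∂(Measure.pi fun _ => ν)
      = (ker ν f p + ∫ y, f y p.1 ^ 2 * f y p.2 ^ 2 ∂ν) * (1 + ker ν f p) ^ (m - 1) := by
  have h := integral_fintype_prod_eq_prod (μ := fun _ : Fin m => ν)
    (fun i : Fin m => fun y : Y => (if i = j then f y p.1 * f y p.2 else 1) *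
      (1 + f y p.1 * f y p.2))
  have e0 : ∀ ζ : Fin m → Y, f (ζ j) p.1 * f (ζ j) p.2 * ∏ i, (1 + f (ζ i) p.1 * f (ζ i) p.2)
      = ∏ i, (if i = j then f (ζ i) p.1 * f (ζ i) p.2 else 1) *
      (1 + f (ζ i) p.1 * f (ζ i) p.2) := by
    intro ζ
    rw [Finset.prod_mul_distrib, Finset.prod_ite_eq']
    simp
  simp only [e0]
  rw [h]
  have hi : Integrable (fun y => f y p.1 * f y p.2) ν :=
    intg ν ((meas_slice hf _).mul (meas_slice hf _)) 1 fun y => by
      rw [abs_mul]; exact mul_le_one₀ (hf1 _ _) (abs_nonneg _) (hf1 _ _)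
  have hi2 : Integrable (fun y => f y p.1 ^ 2 * f y p.2 ^ 2) ν :=
    intg ν (((meas_slice hf _).pow_const 2).mul ((meas_slice hf _).pow_const 2)) 1 fun y => by
      rw [← mul_pow, abs_pow]
      refine pow_le_one₀ (abs_nonneg _) ?_
      rw [abs_mul]; exact mul_le_one₀ (hf1 _ _) (abs_nonneg _) (hf1 _ _)
  have e : ∫ y, (1 + f y p.1 * f y p.2) ∂ν = 1 + ker ν f p := by
    rw [integral_add (integrable_const _) hi]
    simp [ker]
  have e2 : ∫ y, (f y p.1 * f y p.2) * (1 + f y p.1 * f y p.2) ∂ν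
      = ker ν f p + ∫ y, f y p.1 ^ 2 * f y p.2 ^ 2 ∂ν := by
    have : ∀ y, (f y p.1 * f y p.2) * (1 + f y p.1 * f y p.2)
        = f y p.1 * f y p.2 + f y p.1 ^ 2 * f y p.2 ^ 2 := fun y => by ring
    simp only [this]
    rw [integral_add hi hi2]
    rfl
  rw [← Finset.mul_prod_erase Finset.univ _ (Finset.mem_univ j)]
  simp only [if_true, e2]
  congr 1
  calc ∏ i ∈ Finset.univ.erase j, ∫ y, (if i = j then f y p.1 * f y p.2 else 1) *
      (1 + f y p.1 * f y p.2) ∂ν = ∏ i ∈ (Finset.univ : Finset (Fin m)).erase j,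
        (1 + ker ν f p) := by
        refine Finset.prod_congr rfl fun i hi => ?_
        have : i ≠ j := (Finset.mem_erase.mp hi).1
        simp only [if_neg this, one_mul, e]
    _ = (1 + ker ν f p) ^ (m - 1) := by
        rw [Finset.prod_const, Finset.card_erase_of_mem (Finset.mem_univ j)]
        simp

theorem pow_bound (k c : ℝ) (hk : |k| ≤ 1) (hc0 : 0 ≤ c) (hc1 : c ≤ 1) (n : ℕ) :
    (k + c) * (1 + k) ^ n - c ≤ (1 + |k|) ^ (n + 1) - 1 := by
  have h0 : 0 ≤ 1 + k := by linarith [(abs_le.mp hk).1]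
  have h1 : (1 + k) ^ n ≤ (1 + |k|) ^ n := by
    gcongr
    exact le_abs_self k
  have h2 : 0 ≤ (1 + k) ^ n := pow_nonneg h0 n
  have h3 : (1 : ℝ) ≤ (1 + |k|) ^ n := one_le_pow₀ (by linarith [abs_nonneg k])
  have h4 : k * (1 + k) ^ n ≤ |k| * (1 + |k|) ^ n := by
    calc k * (1 + k) ^ n ≤ |k| * (1 + k) ^ n := by
          gcongr
          exact le_abs_self k
      _ ≤ |k| * (1 + |k|) ^ n := by gcongr
  have h5 : c * (1 + k) ^ n - c ≤ (1 + |k|) ^ n - 1 := by
    have : c * ((1 + k) ^ n - 1) ≤ c * ((1 + |k|) ^ n - 1) := by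
      gcongr
    have h6 : c * ((1 + |k|) ^ n - 1) ≤ 1 * ((1 + |k|) ^ n - 1) := by
      apply mul_le_mul_of_nonneg_right hc1
      linarith
    linarith
  rw [pow_succ]
  nlinarith

open Classical in
/-- **The Riesz product lemma.** -/
theorem riesz (hf : Measurable (Function.uncurry f)) (hf1 : ∀ y z, |f y z| ≤ 1)
    (A : Set Y) (hA : ∀ᵐ y ∂ν, y ∈ A) (a0 : ℝ) (ha0 : 0 < a0) (ha1 : a0 ≤ 1)
    (ha : ∀ y ∈ A, a0 ≤ ∫ z, f y z ^ 2 ∂P) (η : ℝ)
    (hη : ∫ p : Z × Z, ((1 + |ker ν f p|) ^ m - 1) ∂(P.prod P) ≤ η)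
    (hsmall : 2 * ((m + 1) * η) < (a0 / 8) ^ 2) :
    ∃ ζ : Fin m → Y, (∀ i, ζ i ∈ A) ∧
    2 ^ m < 2 * (Finset.univ.filter fun δ : Fin m → Bool => ∃ r : Z → ℝ, (∀ z, 0 ≤ r z) ∧
      Integrable r P ∧ ∫ z, r z ∂P = 1 ∧
      ∀ i, a0 / 2 ≤ sg (δ i) * ∫ z, r z * f (ζ i) z ∂P).card := by
  set Q : Measure (Fin m → Y) := Measure.pi fun _ => ν with hQ
  -- the two functionals
  set H0 : (Fin m → Y) → Z × Z → ℝ := fun ζ p => ∏ i, (1 + f (ζ i) p.1 * f (ζ i) p.2) with hH0
  set H1 : Fin m → (Fin m → Y) → Z × Z → ℝ := fun j ζ p =>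
    f (ζ j) p.1 * f (ζ j) p.2 * ∏ i, (1 + f (ζ i) p.1 * f (ζ i) p.2) with hH1
  set H2 : Fin m → (Fin m → Y) → Z × Z → ℝ := fun j ζ p =>
    f (ζ j) p.1 ^ 2 * f (ζ j) p.2 ^ 2 with hH2
  have hff : ∀ y z z', |f y z * f y z'| ≤ 1 := fun y z z' => by
    rw [abs_mul]; exact mul_le_one₀ (hf1 _ _) (abs_nonneg _) (hf1 _ _)
  have hm0 : Measurable (Function.uncurry H0) := by
    refine Finset.measurable_prod _ fun i _ => ?_
    exact ((meas_f_pi hf i).mul (meas_f_pi2 hf i)).const_add _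
  have hb0 : ∀ q, |Function.uncurry H0 q| ≤ 2 ^ m := fun q =>
    prod_bound (fun i => f (q.1 i) q.2.1) (fun i => f (q.1 i) q.2.2) (fun i => hf1 _ _)
      fun i => hf1 _ _
  have hm1 : ∀ j, Measurable (Function.uncurry (H1 j)) := fun j =>
    ((meas_f_pi hf j).mul (meas_f_pi2 hf j)).mul hm0
  have hb1 : ∀ j q, |Function.uncurry (H1 j) q| ≤ 2 ^ m := fun j q => by
    show |f (q.1 j) q.2.1 * f (q.1 j) q.2.2 * _| ≤ _
    rw [abs_mul]
    refine le_trans (mul_le_mul (hff _ _ _) (hb0 q) (abs_nonneg _) zero_le_one) ?_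
    rw [one_mul]
  have hm2 : ∀ j, Measurable (Function.uncurry (H2 j)) := fun j =>
    ((meas_f_pi hf j).pow_const 2).mul ((meas_f_pi2 hf j).pow_const 2)
  have hb2 : ∀ j q, |Function.uncurry (H2 j) q| ≤ 1 := fun j q => by
    show |f (q.1 j) q.2.1 ^ 2 * f (q.1 j) q.2.2 ^ 2| ≤ 1
    rw [← mul_pow, abs_pow]
    exact pow_le_one₀ (abs_nonneg _) (hff _ _ _)
  have hi0 : Integrable (Function.uncurry H0) (Q.prod (P.prod P)) := intg _ hm0 _ hb0
  have hi1 : ∀ j, Integrable (Function.uncurry (H1 j)) (Q.prod (P.prod P)) := fun j =>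
    intg _ (hm1 j) _ (hb1 j)
  have hi2 : ∀ j, Integrable (Function.uncurry (H2 j)) (Q.prod (P.prod P)) := fun j =>
    intg _ (hm2 j) _ (hb2 j)
  set Φ : (Fin m → Y) → ℝ := fun ζ => ((∫ p, H0 ζ p ∂(P.prod P)) - 1) +
    ∑ j, ((∫ p, H1 j ζ p ∂(P.prod P)) - ∫ p, H2 j ζ p ∂(P.prod P)) with hΦ
  have hj0 : Integrable (fun ζ => ∫ p, H0 ζ p ∂(P.prod P)) Q := hi0.integral_prod_left
  have hj1 : ∀ j, Integrable (fun ζ => ∫ p, H1 j ζ p ∂(P.prod P)) Q := fun j =>
    (hi1 j).integral_prod_left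
  have hj2 : ∀ j, Integrable (fun ζ => ∫ p, H2 j ζ p ∂(P.prod P)) Q := fun j =>
    (hi2 j).integral_prod_left
  have hΦi : Integrable Φ Q := by
    refine (hj0.sub (integrable_const _)).add (integrable_finsetSum _ fun j _ => ?_)
    exact (hj1 j).sub (hj2 j)
  have hk1 := ker_abs_le (ν := ν) hf1
  have hkm := meas_ker (ν := ν) hf
  have hki : Integrable (fun p => (1 + |ker ν f p|) ^ m - 1) (P.prod P) := by
    refine intg _ ?_ (2 ^ m) fun p => ?_
    · exact (((_root_.continuous_abs.measurable.comp hkm).const_add 1).pow_const m).sub_const 1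
    · have h1 : (1 : ℝ) ≤ (1 + |ker ν f p|) ^ m := one_le_pow₀ (by linarith [abs_nonneg (ker ν f p)])
      have h2 : (1 + |ker ν f p|) ^ m ≤ 2 ^ m := by
        gcongr
        linarith [hk1 p]
      rw [abs_of_nonneg (by linarith)]
      linarith
  -- the averages
  have hE0 : ∫ ζ, (∫ p, H0 ζ p ∂(P.prod P)) ∂Q - 1 ≤ η := by
    rw [integral_integral_swap hi0]
    have : ∀ p : Z × Z, ∫ ζ, H0 ζ p ∂Q = (1 + ker ν f p) ^ m := fun p => avg_prod hf hf1 p
    simp only [this]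
    have h1 : ∫ p, (1 + ker ν f p) ^ m ∂(P.prod P) - 1
        = ∫ p, ((1 + ker ν f p) ^ m - 1) ∂(P.prod P) := by
      rw [integral_sub _ (integrable_const _)]
      · simp
      · refine intg _ ((hkm.const_add 1).pow_const m) (2 ^ m) fun p => ?_
        rw [abs_pow]
        gcongr
        have := abs_le.mp (hk1 p)
        rw [abs_le]
        constructor <;> linarith
    rw [h1]
    refine le_trans (integral_mono ?_ hki fun p => ?_) hη
    · refine intg _ (((hkm.const_add 1).pow_const m).sub_const 1) (2 ^ m + 1) fun p => ?_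
      refine (abs_sub _ _).trans ?_
      rw [abs_pow, abs_one]
      gcongr
      have := abs_le.mp (hk1 p)
      rw [abs_le]
      constructor <;> linarith
    · show (1 + ker ν f p) ^ m - 1 ≤ (1 + |ker ν f p|) ^ m - 1
      have : 0 ≤ 1 + ker ν f p := by linarith [(abs_le.mp (hk1 p)).1]
      gcongr
      exact le_abs_self _
  have hE1 : ∀ j, ∫ ζ, ((∫ p, H1 j ζ p ∂(P.prod P)) - ∫ p, H2 j ζ p ∂(P.prod P)) ∂Q ≤ η := by
    intro j
    rw [integral_sub (hj1 j) (hj2 j), integral_integral_swap (hi1 j),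
      integral_integral_swap (hi2 j), ← integral_sub]
    · have e1 : ∀ p : Z × Z, ∫ ζ, H1 j ζ p ∂Q = (ker ν f p + ∫ y, f y p.1 ^ 2 * f y p.2 ^ 2 ∂ν)
          * (1 + ker ν f p) ^ (m - 1) := fun p => avg_prod2 hf hf1 p j
      have e2 : ∀ p : Z × Z, ∫ ζ, H2 j ζ p ∂Q = ∫ y, f y p.1 ^ 2 * f y p.2 ^ 2 ∂ν := by
        intro p
        exact integral_comp_eval (μ := fun _ : Fin m => ν) (i := j)
          (f := fun y : Y => f y p.1 ^ 2 * f y p.2 ^ 2)
          (((meas_slice hf _).pow_const 2).mul ((meas_slice hf _).pow_const 2)).aestronglyMeasurable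
      have hc0 : ∀ p : Z × Z, 0 ≤ ∫ y, f y p.1 ^ 2 * f y p.2 ^ 2 ∂ν := fun p =>
        integral_nonneg fun y => by positivity
      have hc1 : ∀ p : Z × Z, ∫ y, f y p.1 ^ 2 * f y p.2 ^ 2 ∂ν ≤ 1 := fun p => by
        have h := norm_integral_le_of_norm_le_const (μ := ν)
          (f := fun y => f y p.1 ^ 2 * f y p.2 ^ 2) (C := 1)
          (Filter.Eventually.of_forall fun y => by
            rw [Real.norm_eq_abs, ← mul_pow, abs_pow]
            exact pow_le_one₀ (abs_nonneg _) (hff _ _ _))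
        have h2 := (le_abs_self _).trans h
        simpa using h2
      have hm1' : m - 1 + 1 = m := Nat.sub_add_cancel (Nat.one_le_of_lt j.pos)
      refine le_trans (integral_mono ?_ hki fun p => ?_) hη
      · exact (hi1 j).integral_prod_right.sub (hi2 j).integral_prod_right
      · show ∫ ζ, H1 j ζ p ∂Q - ∫ ζ, H2 j ζ p ∂Q ≤ (1 + |ker ν f p|) ^ m - 1
        rw [e1, e2]
        have := pow_bound (ker ν f p) _ (hk1 p) (hc0 p) (hc1 p) (m - 1)
        rwa [hm1'] at this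
    · exact (hi1 j).integral_prod_right
    · exact (hi2 j).integral_prod_right
  have hEΦ : ∫ ζ, Φ ζ ∂Q ≤ (m + 1) * η := by
    have e : ∫ ζ, Φ ζ ∂Q = (∫ ζ, (∫ p, H0 ζ p ∂(P.prod P)) ∂Q - 1) +
        ∑ j, ∫ ζ, ((∫ p, H1 j ζ p ∂(P.prod P)) - ∫ p, H2 j ζ p ∂(P.prod P)) ∂Q := by
      rw [hΦ]
      rw [integral_add, integral_sub hj0 (integrable_const _), integral_finsetSum]
      · simp
      · intro j _
        exact (hj1 j).sub (hj2 j)
      · exact hj0.sub (integrable_const _)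
      · exact integrable_finsetSum _ fun j _ => (hj1 j).sub (hj2 j)
    rw [e]
    have h3 : ∑ j, ∫ ζ, ((∫ p, H1 j ζ p ∂(P.prod P)) - ∫ p, H2 j ζ p ∂(P.prod P)) ∂Q ≤ m * η := by
      calc _ ≤ ∑ _j : Fin m, η := Finset.sum_le_sum fun j _ => hE1 j
        _ = m * η := by simp
    linarith
  have hnull : Q {ζ | ¬ ∀ i, ζ i ∈ A} = 0 := by
    rw [← ae_iff]
    rw [ae_all_iff]
    intro i
    exact (Measure.quasiMeasurePreserving_eval (μ := fun _ : Fin m => ν) i).ae hA
  obtain ⟨ζ, hζ, hζΦ⟩ := exists_notMem_null_le_integral hΦi hnull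
  simp only [Set.mem_setOf_eq, not_not] at hζ
  refine ⟨ζ, hζ, ?_⟩
  refine good_signs (P := P) (x := fun z i => f (ζ i) z) (fun i => hf.comp measurable_prodMk_left)
    (fun z i => hf1 _ _) a0 ha0 (fun i => ha _ (hζ i)) ha1 ((m + 1) * η) ?_ hsmall
  rw [Finset.sum_add_distrib, Finset.sum_comm]
  rw [sum_N (P := P) (x := fun z i => f (ζ i) z) (fun i => hf.comp measurable_prodMk_left)
    (fun z i => hf1 _ _)]
  have h6 : ∀ j, ∑ δ : Fin m → Bool, ((∫ z, R δ (fun i => f (ζ i) z) * f (ζ j) z ∂P)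
      - sg (δ j) * ∫ z, f (ζ j) z ^ 2 ∂P) ^ 2
      = 2 ^ m * ((∫ p, H1 j ζ p ∂(P.prod P)) - ∫ p, H2 j ζ p ∂(P.prod P)) := by
    intro j
    rw [sum_V (P := P) (x := fun z i => f (ζ i) z) (fun i => hf.comp measurable_prodMk_left)
      (fun z i => hf1 _ _) j]
    congr 2
    have := integral_prod_mul (μ := P) (ν := P) (fun z => f (ζ j) z ^ 2) (fun z => f (ζ j) z ^ 2)
    rw [sq, ← this]
  simp only [h6]
  rw [← Finset.mul_sum, ← mul_add]
  gcongr
  exact hζΦ.trans hEΦ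

end Pool.Agent.N555.RZ
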