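import Mathlib

set_option autoImplicit false

/-!
More than half of all sign vectors of length `2 n` shatter a set of `n` coordinates (Sauer-Shelah).
-/

namespace Pool.Agent.N555.RZ

open Finset

theorem small_sets (m : ℕ) :
    2 * (Finset.univ.filter fun s : Finset (Fin m) => 2 * s.card < m).card ≤ 2 ^ m := by
  set A := Finset.univ.filter fun s : Finset (Fin m) => 2 * s.card < m with hA
  have h1 : (A.image fun s => sᶜ).card = A.card :=
    Finset.card_image_of_injective _ compl_injective
  have h2 : Disjoint A (A.image fun s => sᶜ) := by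
    rw [Finset.disjoint_left]
    intro s hs hs'
    rw [Finset.mem_image] at hs'
    obtain ⟨t, ht, hts⟩ := hs'
    rw [hA, Finset.mem_filter] at hs ht
    have := Finset.card_add_card_compl t
    rw [Fintype.card_fin, hts] at this
    omega
  have h3 := Finset.card_union_of_disjoint h2
  have h4 : (A ∪ A.image fun s => sᶜ).card ≤ 2 ^ m := by
    have := Finset.card_le_univ (A ∪ A.image fun s => sᶜ)
    rwa [Fintype.card_finset, Fintype.card_fin] at this
  omega

theorem shatter (n : ℕ) (G : Finset (Fin (2 * n) → Bool)) (h : 2 ^ (2 * n) < 2 * G.card) :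
    ∃ e : Fin n ↪ Fin (2 * n), ∀ δ : Fin n → Bool, ∃ γ ∈ G, ∀ i, γ (e i) = δ i := by
  classical
  set φ : (Fin (2 * n) → Bool) → Finset (Fin (2 * n)) := fun γ => Finset.univ.filter fun i => γ i
    with hφ
  have hinj : Function.Injective φ := by
    intro γ γ' hγ
    ext i
    have : i ∈ φ γ ↔ i ∈ φ γ' := by rw [hγ]
    simp only [hφ, Finset.mem_filter, Finset.mem_univ, true_and] at this
    exact Bool.eq_iff_iff.mpr this
  set 𝒜 := G.image φ with h𝒜
  have hcard : 𝒜.card = G.card := Finset.card_image_of_injective _ hinj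
  have hsh := Finset.card_le_card_shatterer 𝒜
  have hsmall := small_sets (2 * n)
  obtain ⟨s, hs, hns⟩ : ∃ s ∈ 𝒜.shatterer, n ≤ s.card := by
    by_contra hcon
    push Not at hcon
    have : 𝒜.shatterer ⊆ Finset.univ.filter fun s : Finset (Fin (2 * n)) => 2 * s.card < 2 * n := by
      intro s hs
      rw [Finset.mem_filter]
      exact ⟨Finset.mem_univ _, by have := hcon s hs; omega⟩
    have := Finset.card_le_card this
    omega
  rw [Finset.mem_shatterer] at hs
  obtain ⟨t, hts, htn⟩ := Finset.exists_subset_card_eq hns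
  have ht : 𝒜.Shatters t := hs.mono_right hts
  let e : Fin n ↪ Fin (2 * n) := (t.orderEmbOfFin htn).toEmbedding
  refine ⟨e, fun δ => ?_⟩
  obtain ⟨u, hu, hut⟩ := ht (t := (Finset.univ.filter fun i => δ i).map e) (by
    intro x hx
    rw [Finset.mem_map] at hx
    obtain ⟨i, _, rfl⟩ := hx
    exact Finset.orderEmbOfFin_mem t htn i)
  rw [h𝒜, Finset.mem_image] at hu
  obtain ⟨γ, hγ, rfl⟩ := hu
  refine ⟨γ, hγ, fun i => ?_⟩
  have h1 : e i ∈ t ∩ φ γ ↔ e i ∈ (Finset.univ.filter fun i => δ i).map e := by rw [hut]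
  have h2 : e i ∈ t := Finset.orderEmbOfFin_mem t htn i
  simp only [Finset.mem_inter, h2, true_and, Finset.mem_map' e, hφ, Finset.mem_filter,
    Finset.mem_univ] at h1
  exact Bool.eq_iff_iff.mpr h1

end Pool.Agent.N555.RZ
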