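import Pool.Agent.N555.RZ.Flatness
import Pool.Agent.N555.RZ.Bil
import Pool.Agent.N555.RZ.Riesz
import Pool.Agent.N555.RZ.Shatter

set_option autoImplicit false
set_option maxHeartbeats 4000000

/-!
The main theorem in isotropic position.
-/

namespace Pool.Agent.N555.RZ

open MeasureTheory Set
open scoped ENNReal RealInnerProductSpace
open Pool.Agent.TH591.Ns

variable {d : ℕ} {K : Set (EuclideanSpace ℝ (Fin d))}

theorem mom_inner (hK : Convex ℝ K) (hKc : IsCompact K) (hK0 : K ∈ nhds 0)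
    (hiso : ∀ w : EuclideanSpace ℝ (Fin d), ∫ z, ⟪z, w⟫ ^ 2 ∂(mP K) = ‖w‖ ^ 2)
    (w : EuclideanSpace ℝ (Fin d)) (p : ℕ) (hp : 1 ≤ p) :
    ∫⁻ z, ENNReal.ofReal (|⟪w, z⟫| ^ (2 * p)) ∂(mP K) ≤ ENNReal.ofReal ((80 * p * ‖w‖) ^ (2 * p)) := by
  have h0 : volume K ≠ 0 := (Measure.measure_pos_of_mem_nhds volume hK0).ne'
  have hfin : volume K ≠ ⊤ := hKc.measure_lt_top.ne
  have hg := isG_gauge hK hK0
  have hb := ball_eq hK hKc hK0
  have h := moment hg (by rw [hb]; exact h0) (by rw [hb]; exact hfin) (innerSL ℝ w) ‖w‖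
    (norm_nonneg _) (by rw [hb]; exact int_K hKc h0 (by simp only [innerSL_apply_apply]; fun_prop))
    (by
      rw [hb, ← hiso w]
      refine le_of_eq ?_
      congr 1
      ext z
      rw [innerSL_apply_apply, real_inner_comm]) p hp
  rw [hb] at h
  simpa only [innerSL_apply_apply] using h

/-- a point of the body from a density -/
theorem bary (hK : Convex ℝ K) (hKc : IsCompact K)
    (r : EuclideanSpace ℝ (Fin d) → ℝ) (hr0 : ∀ z, 0 ≤ r z) (hri : Integrable r (mP K))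
    (hr1 : ∫ z, r z ∂(mP K) = 1) :
    ∃ z ∈ K, ∀ w : EuclideanSpace ℝ (Fin d), ⟪w, z⟫ = ∫ x, r x * ⟪w, x⟫ ∂(mP K) := by
  set μ : Measure (EuclideanSpace ℝ (Fin d)) :=
    (mP K).withDensity fun z => ENNReal.ofReal (r z) with hμ
  have hPr : IsProbabilityMeasure μ := by
    constructor
    rw [hμ, withDensity_apply _ MeasurableSet.univ, Measure.restrict_univ,
      ← ofReal_integral_eq_lintegral_ofReal hri (Filter.Eventually.of_forall hr0), hr1,
      ENNReal.ofReal_one]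
  have hae : ∀ᵐ x ∂μ, x ∈ K :=
    (withDensity_absolutelyContinuous _ _).ae_le (mP_ae hKc.isClosed.measurableSet)
  have hint : Integrable (fun x : EuclideanSpace ℝ (Fin d) => x) μ := by
    obtain ⟨B, hB⟩ := hKc.isBounded.subset_closedBall (0 : EuclideanSpace ℝ (Fin d))
    refine Integrable.of_bound measurable_id.aestronglyMeasurable B ?_
    filter_upwards [hae] with x hx
    simpa using hB hx
  have hmem := hK.integral_mem hKc.isClosed hae hint
  refine ⟨∫ x, x ∂μ, hmem, fun w => ?_⟩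
  have h1 := (innerSL ℝ w).integral_comp_comm hint
  simp only [innerSL_apply_apply] at h1
  rw [← h1, hμ, integral_withDensity_eq_integral_toReal_smul₀
    hri.aestronglyMeasurable.aemeasurable.ennreal_ofReal
    (Filter.Eventually.of_forall fun _ => ENNReal.ofReal_lt_top)]
  congr 1
  ext x
  rw [ENNReal.toReal_ofReal (hr0 x), smul_eq_mul]

/-- a group without small invariant subspaces -/
theorem group_cov (D : ℕ) (hd : 1 ≤ d) (hK : Convex ℝ K) (hKc : IsCompact K)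
    (hK0 : K ∈ nhds 0) (a : ℝ) (ha : 1 ≤ a) (hsym : ∀ x, gauge K (-x) ≤ a * gauge K x)
    (hiso : ∀ w : EuclideanSpace ℝ (Fin d), ∫ z, ⟪z, w⟫ ^ 2 ∂(mP K) = ‖w‖ ^ 2)
    (G : Set (EuclideanSpace ℝ (Fin d) ≃ₗ[ℝ] EuclideanSpace ℝ (Fin d)))
    (hGK : ∀ T ∈ G, T '' K = K)
    (hG : ∀ W : Submodule ℝ (EuclideanSpace ℝ (Fin d)), W ≠ ⊥ →
      (∀ T ∈ G, ∀ x ∈ W, T x ∈ W) → D ≤ Module.finrank ℝ W) (x : EuclideanSpace ℝ (Fin d)) :
    (D : ℝ) * cov (mP K) (ga K a) x x ≤ ‖x‖ ^ 2 := by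
  have h0 : volume K ≠ 0 := (Measure.measure_pos_of_mem_nhds volume hK0).ne'
  have hfin : volume K ≠ ⊤ := hKc.measure_lt_top.ne
  have hPr := mP_prob h0 hfin
  have hN : ∀ y, ‖ga K a y‖ ≤ 1 := ga_norm hK hKc hK0 a ha hsym hiso
  have hAm : Measurable (ga K a) := ga_meas K a
  have hmean1 : ∫ y, ‖ga K a y‖ ^ 2 ∂(mP K) ≤ 1 := by
    have : ∫ y, ‖ga K a y‖ ^ 2 ∂(mP K) ≤ ∫ _y, (1 : ℝ) ∂(mP K) := by
      refine integral_mono ?_ (integrable_const _) fun y =>
        pow_le_one₀ (norm_nonneg _) (hN y)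
      exact Integrable.of_bound (hAm.norm.pow_const 2).aestronglyMeasurable 1
        (Filter.Eventually.of_forall fun y => by
          rw [norm_pow, norm_norm]; exact pow_le_one₀ (norm_nonneg _) (hN y))
    simpa using this
  have h1 := eig_bound hd hAm hN G D hG (fun T hT x => isometry_of_iso hKc hiso T (hGK T hT) x)
    (ν := mP K) (fun T hT x => by
      unfold cov
      have hc : Measurable fun t => ⟪ga K a t, T x⟫ * ⟪ga K a t, T x⟫ :=
        (hAm.inner measurable_const).mul (hAm.inner measurable_const)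
      have e1 : ∀ h : EuclideanSpace ℝ (Fin d) → ℝ, Measurable h →
          ∫ t, h t ∂(mP K) = ∫ t, h (T t) ∂(mP K) := by
        intro h hh
        conv_lhs => rw [← hGK T hT, ← mP_map hKc.isClosed.measurableSet T,
          integral_map (equiv_meas T).aemeasurable hh.aestronglyMeasurable]
      rw [e1 _ hc]
      congr 1
      ext t
      have : ⟪ga K a (T t), T x⟫ = ⟪ga K a t, x⟫ := by
        rw [ga_inner, ga_inner, fderiv_inv T (hGK T hT)]
      rw [this]) x
  calc D * cov (mP K) (ga K a) x x ≤ (∫ t, ‖ga K a t‖ ^ 2 ∂(mP K)) * ‖x‖ ^ 2 := h1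
    _ ≤ 1 * ‖x‖ ^ 2 := by gcongr
    _ = _ := one_mul _

theorem mainA_iso (n : ℕ) (D : ℝ) (hn : 1 ≤ n) (hK : Convex ℝ K) (hKc : IsCompact K)
    (hK0 : K ∈ nhds 0) (a : ℝ) (ha : 1 ≤ a) (hsym : ∀ x, gauge K (-x) ≤ a * gauge K x)
    (hiso : ∀ w : EuclideanSpace ℝ (Fin d), ∫ z, ⟪z, w⟫ ^ 2 ∂(mP K) = ‖w‖ ^ 2)
    (hcovP : ∀ x, D * cov (mP K) (ga K a) x x ≤ ‖x‖ ^ 2)
    (ρ : ℝ) (hρ : 0 < ρ)
    (hflat : ρ ≤ (∫ z in K, ∫ z' in K, |fderiv ℝ (gauge K) z z'|) / (volume K).toReal ^ 2)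
    (hD : 10 ^ 17 * (n : ℝ) ^ 4 * a ^ 10 ≤ D * ρ ^ 10) :
    ∃ φ : Fin n → EuclideanSpace ℝ (Fin d) →L[ℝ] ℝ, (∀ i, ∀ x ∈ K, φ i x ≤ 1) ∧
      ∀ δ : Fin n → Bool, ∃ z ∈ K, ∀ i, ρ ^ 2 / (4 * a) ≤ sg (δ i) * φ i z := by
  classical
  have h0 : volume K ≠ 0 := (Measure.measure_pos_of_mem_nhds volume hK0).ne'
  have hfin : volume K ≠ ⊤ := hKc.measure_lt_top.ne
  have hPr := mP_prob h0 hfin
  have ha0 : 0 < a := by linarith
  set P := mP K with hP
  set A' := ga K a with hA'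
  have hN : ∀ y, ‖A' y‖ ≤ 1 := ga_norm hK hKc hK0 a ha hsym hiso
  have hAm : Measurable A' := ga_meas K a
  have hNm : Measurable fun y => ‖A' y‖ ^ 2 := hAm.norm.pow_const 2
  have hi2 : ∀ μ : Measure (EuclideanSpace ℝ (Fin d)), IsFiniteMeasure μ →
      Integrable (fun y => ‖A' y‖ ^ 2) μ := fun μ _ =>
    Integrable.of_bound hNm.aestronglyMeasurable 1
      (Filter.Eventually.of_forall fun y => by
        rw [norm_pow, norm_norm]; exact pow_le_one₀ (norm_nonneg _) (hN y))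
  have hmean := norm_mean hK hKc hK0 a ha hsym hiso ρ hρ hflat
  rw [← hP, ← hA'] at hmean
  set a0 : ℝ := (ρ / a) ^ 2 / 2 with ha0'
  have ha0pos : 0 < a0 := by positivity
  have hmean1 : ∫ y, ‖A' y‖ ^ 2 ∂P ≤ 1 := by
    have : ∫ y, ‖A' y‖ ^ 2 ∂P ≤ ∫ _y, (1 : ℝ) ∂P :=
      integral_mono (hi2 P inferInstance) (integrable_const _) fun y =>
        pow_le_one₀ (norm_nonneg _) (hN y)
    simpa using this
  have ha01 : a0 ≤ 1 := by
    rw [ha0']; linarith
  -- the good set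
  set S : Set (EuclideanSpace ℝ (Fin d)) := {y | a0 ≤ ‖A' y‖ ^ 2} with hS
  have hSm : MeasurableSet S := measurableSet_le measurable_const hNm
  have hPS : a0 ≤ P.real S := by
    have h1 : ∫ y, ‖A' y‖ ^ 2 ∂P ≤ ∫ y, (S.indicator (fun _ => (1 : ℝ)) y + a0) ∂P := by
      refine integral_mono (hi2 P inferInstance) ?_ fun y => ?_
      · exact ((integrable_const (1 : ℝ)).indicator hSm).add (integrable_const _)
      · by_cases hy : y ∈ S
        · show _ ≤ S.indicator (fun _ => (1 : ℝ)) y + a0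
          rw [indicator_of_mem hy]
          have : ‖A' y‖ ^ 2 ≤ 1 := pow_le_one₀ (norm_nonneg _) (hN y)
          linarith
        · show _ ≤ S.indicator (fun _ => (1 : ℝ)) y + a0
          rw [indicator_of_notMem hy, zero_add]
          rw [hS, Set.mem_ofPred_eq, not_le] at hy
          exact hy.le
    rw [integral_add ((integrable_const (1 : ℝ)).indicator hSm) (integrable_const _),
      integral_indicator hSm, setIntegral_const, integral_const] at h1
    simp only [smul_eq_mul, mul_one, probReal_univ, one_mul] at h1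
    have h2 : (ρ / a) ^ 2 = 2 * a0 := by rw [ha0']; ring
    linarith
  have hPSpos : 0 < P.real S := lt_of_lt_of_le ha0pos hPS
  have hPS0 : P S ≠ 0 := by
    intro h
    rw [Measure.real, h] at hPSpos
    simp at hPSpos
  have hPSt : P S ≠ ⊤ := measure_ne_top _ _
  set ν : Measure (EuclideanSpace ℝ (Fin d)) := (P S)⁻¹ • P.restrict S with hν
  have hνp : IsProbabilityMeasure ν := by
    constructor
    rw [hν, Measure.smul_apply, Measure.restrict_apply_univ, smul_eq_mul]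
    exact ENNReal.inv_mul_cancel hPS0 hPSt
  have hνae : ∀ᵐ y ∂ν, y ∈ S := Measure.ae_smul_measure (ae_restrict_mem hSm) _
  -- covariance
  have hDpos : 0 < D := by
    have h1 : (0 : ℝ) < 10 ^ 17 * (n : ℝ) ^ 4 * a ^ 10 := by positivity
    have h2 := lt_of_lt_of_le h1 hD
    exact pos_of_mul_pos_left h2 (by positivity)
  set lam : ℝ := 1 / (a0 * D) with hlam
  have hlam0 : 0 < lam := by positivity
  have hcovν : ∀ x, cov ν A' x x ≤ lam * ‖x‖ ^ 2 := by
    intro x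
    have h1 : cov ν A' x x = (P S).toReal⁻¹ * ∫ t in S, ⟪A' t, x⟫ * ⟪A' t, x⟫ ∂P := by
      unfold cov
      rw [hν, integral_smul_measure, ENNReal.toReal_inv, smul_eq_mul]
    have h2 : ∫ t in S, ⟪A' t, x⟫ * ⟪A' t, x⟫ ∂P ≤ cov P A' x x := by
      unfold cov
      exact setIntegral_le_integral (cov_int hAm hN x x)
        (Filter.Eventually.of_forall fun t => mul_self_nonneg _)
    have h3 : cov P A' x x ≤ ‖x‖ ^ 2 / D := by
      rw [le_div_iff₀ hDpos]
      linarith [hcovP x]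
    have h4 : (P S).toReal⁻¹ ≤ a0⁻¹ := by
      apply inv_anti₀ ha0pos
      exact hPS
    have h5 : 0 ≤ ∫ t in S, ⟪A' t, x⟫ * ⟪A' t, x⟫ ∂P := integral_nonneg fun t => mul_self_nonneg _
    rw [h1]
    calc (P S).toReal⁻¹ * ∫ t in S, ⟪A' t, x⟫ * ⟪A' t, x⟫ ∂P
        ≤ a0⁻¹ * (‖x‖ ^ 2 / D) := by
          refine mul_le_mul h4 (h2.trans h3) h5 (by positivity)
      _ = lam * ‖x‖ ^ 2 := by
          rw [hlam]
          field_simp
  have hHS : ∑ i, ‖cvec ν A' i‖ ^ 2 ≤ (Real.sqrt lam) ^ 2 := by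
    rw [Real.sq_sqrt hlam0.le]
    refine (hs_bound hAm hN lam hlam0.le hcovν).trans ?_
    have : ∫ t, ‖A' t‖ ^ 2 ∂ν ≤ 1 := by
      have h1 : ∫ y, ‖A' y‖ ^ 2 ∂ν ≤ ∫ _y, (1 : ℝ) ∂ν :=
        integral_mono (hi2 ν inferInstance) (integrable_const _) fun y =>
          pow_le_one₀ (norm_nonneg _) (hN y)
      simpa using h1
    nlinarith
  -- the functions
  set f : EuclideanSpace ℝ (Fin d) → EuclideanSpace ℝ (Fin d) → ℝ :=
    fun y => K.indicator fun z => ⟪A' y, z⟫ with hf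
  have hfm : Measurable (Function.uncurry f) := by
    have h1 : Function.uncurry f = (Set.univ ×ˢ K : Set (EuclideanSpace ℝ (Fin d) ×
        EuclideanSpace ℝ (Fin d))).indicator fun q => ⟪A' q.1, q.2⟫ := by
      ext q
      simp only [Function.uncurry, hf, Set.indicator, Set.mem_prod, Set.mem_univ, true_and]
    rw [h1]
    exact ((hAm.comp measurable_fst).inner measurable_snd).indicator
      (MeasurableSet.univ.prod hKc.isClosed.measurableSet)
  have hf1 : ∀ y z, |f y z| ≤ 1 := by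
    intro y z
    by_cases hz : z ∈ K
    · rw [hf]
      simp only [indicator_of_mem hz]
      exact ga_le hK hKc hK0 a ha hsym y hz
    · rw [hf]
      simp only [indicator_of_notMem hz, abs_zero]
      exact zero_le_one
  have hfK : ∀ y z, z ∈ K → f y z = ⟪A' y, z⟫ := fun y z hz => by
    rw [hf]; simp only [indicator_of_mem hz]
  have hKae : ∀ᵐ z ∂P, z ∈ K := mP_ae hKc.isClosed.measurableSet
  have hsq : ∀ y ∈ S, a0 ≤ ∫ z, f y z ^ 2 ∂P := by
    intro y hy
    have h1 : ∫ z, f y z ^ 2 ∂P = ‖A' y‖ ^ 2 := by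
      rw [← hiso (A' y)]
      refine integral_congr_ae ?_
      filter_upwards [hKae] with z hz
      rw [hfK y z hz, real_inner_comm]
    rw [h1]
    exact hy
  -- moments of the kernel
  set m : ℕ := 2 * n with hm
  set B : ℝ := 6400 * Real.sqrt lam with hB
  have hB0 : 0 ≤ B := by positivity
  have hker : ∀ p : EuclideanSpace ℝ (Fin d) × EuclideanSpace ℝ (Fin d),
      |ker ν f p| ≤ |∑ i, ⟪cvec ν A' i, p.1⟫ * p.2 i| := by
    intro p
    by_cases hp : p.1 ∈ K ∧ p.2 ∈ K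
    · have : ker ν f p = ∑ i, ⟪cvec ν A' i, p.1⟫ * p.2 i := by
        rw [← cov_eq hAm hN]
        unfold ker cov
        simp only [hfK _ _ hp.1, hfK _ _ hp.2]
      rw [this]
    · have : ker ν f p = 0 := by
        unfold ker
        have h1 : ∀ y, f y p.1 * f y p.2 = 0 := by
          intro y
          rw [not_and_or] at hp
          rcases hp with h | h
          · have : f y p.1 = 0 := by rw [hf]; simp only [indicator_of_notMem h]
            rw [this, zero_mul]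
          · have : f y p.2 = 0 := by rw [hf]; simp only [indicator_of_notMem h]
            rw [this, mul_zero]
        simp [h1]
      rw [this, abs_zero]
      exact abs_nonneg _
  have hmom : ∀ s : ℕ, 1 ≤ s → ∫⁻ w, ENNReal.ofReal (|ker ν f w| ^ (2 * s)) ∂(P.prod P)
      ≤ ENNReal.ofReal ((B * s ^ 2) ^ (2 * s)) := by
    intro s hs
    have h1 := bil_moment P (fun w p hp => mom_inner hK hKc hK0 hiso w p hp) (cvec ν A')
      (Real.sqrt lam) (Real.sqrt_nonneg _) hHS s hs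
    refine (lintegral_mono fun w => ?_).trans (h1.trans (le_of_eq ?_))
    · exact ENNReal.ofReal_le_ofReal (pow_le_pow_left₀ (abs_nonneg _) (hker w) _)
    · congr 2
      rw [hB]
      ring
  set x : ℝ := Real.exp 1 * B * m with hx
  have hx0 : 0 ≤ x := by positivity
  -- numerics
  have hn' : (1 : ℝ) ≤ n := by exact_mod_cast hn
  have hnum : 2 * ((m + 1) * (4 * x)) < (a0 / 8) ^ 2 := by
    have hexp : Real.exp 1 < 2.7182818286 := Real.exp_one_lt_d9
    -- `D a0^5` is large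
    have hDa : 3 * 10 ^ 15 * (n : ℝ) ^ 4 ≤ D * a0 ^ 5 := by
      have h1 : a0 ^ 5 = ρ ^ 10 / a ^ 10 / 32 := by
        rw [ha0', div_pow, ← pow_mul, div_pow]
        norm_num
      rw [h1, ← mul_div_assoc, ← mul_div_assoc, le_div_iff₀ (by norm_num),
        le_div_iff₀ (by positivity)]
      refine le_trans ?_ hD
      have : 0 ≤ (n : ℝ) ^ 4 * a ^ 10 := by positivity
      nlinarith
    have h2 : Real.sqrt lam * (5.4 * 10 ^ 7 * (n : ℝ) ^ 2) < a0 ^ 2 := by
      have h3 : (Real.sqrt lam * (5.4 * 10 ^ 7 * (n : ℝ) ^ 2)) ^ 2 < (a0 ^ 2) ^ 2 := by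
        rw [mul_pow, Real.sq_sqrt hlam0.le, hlam]
        rw [one_div, inv_mul_lt_iff₀ (by positivity)]
        have h4 : a0 * D * (a0 ^ 2) ^ 2 = D * a0 ^ 5 := by ring
        rw [h4]
        refine lt_of_lt_of_le ?_ hDa
        have h5 : 0 < (n : ℝ) ^ 4 := by positivity
        nlinarith
      exact lt_of_pow_lt_pow_left₀ 2 (by positivity) h3
    have hm' : (m : ℝ) = 2 * n := by rw [hm]; push_cast; ring
    have h6 : 2 * (((m : ℝ) + 1) * (4 * x)) * 64
        ≤ Real.sqrt lam * (5.4 * 10 ^ 7 * (n : ℝ) ^ 2) := by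
      rw [hx, hB, hm']
      have h7 : (2 * (n : ℝ) + 1) * (2 * n) ≤ 6 * (n : ℝ) ^ 2 := by nlinarith
      have h8 : 0 ≤ Real.sqrt lam := Real.sqrt_nonneg _
      calc 2 * ((2 * (n : ℝ) + 1) * (4 * (Real.exp 1 * (6400 * Real.sqrt lam) * (2 * n)))) * 64
          = (512 * 6400 * Real.exp 1) * Real.sqrt lam * ((2 * (n : ℝ) + 1) * (2 * n)) := by ring
        _ ≤ (512 * 6400 * 2.7182818286) * Real.sqrt lam * (6 * (n : ℝ) ^ 2) := by gcongr
        _ ≤ Real.sqrt lam * (5.4 * 10 ^ 7 * (n : ℝ) ^ 2) := by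
            have : 0 ≤ Real.sqrt lam * (n : ℝ) ^ 2 := by positivity
            nlinarith
    have h9 : (a0 / 8) ^ 2 = a0 ^ 2 / 64 := by ring
    rw [h9, lt_div_iff₀ (by norm_num)]
    exact lt_of_le_of_lt h6 h2
  have hxm : x * m ≤ 1 / 2 := by
    have h1 : (a0 / 8) ^ 2 ≤ 1 := by
      have : a0 / 8 ≤ 1 := by linarith
      have h2 : 0 ≤ a0 / 8 := by positivity
      nlinarith
    have hmn : (0 : ℝ) ≤ m := Nat.cast_nonneg m
    nlinarith
  have hη := eta_bound (P.prod P) (ker ν f) (meas_ker hfm) (ker_abs_le hf1) B hB0 hmom m x hx hxm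
  obtain ⟨ζ, hζS, hζ⟩ := riesz (m := m) hfm hf1 S hνae a0 ha0pos ha01 hsq (4 * x) hη hnum
  obtain ⟨e, he⟩ := shatter n _ hζ
  refine ⟨fun i => fderiv ℝ (gauge K) (ζ (e i)), fun i x hx => ?_, fun δ => ?_⟩
  · exact (fderiv_le_g (isG_gauge hK hK0) _ _).trans (gauge_le_one hK hKc hK0 hx)
  · obtain ⟨γ, hγ, hγδ⟩ := he δ
    rw [Finset.mem_filter] at hγ
    obtain ⟨r, hr0, hri, hr1, hr⟩ := hγ.2
    obtain ⟨z, hz, hzr⟩ := bary hK hKc r hr0 hri hr1
    refine ⟨z, hz, fun i => ?_⟩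
    have h1 := hr (e i)
    have h2 : ∫ z, r z * f (ζ (e i)) z ∂P = ⟪A' (ζ (e i)), z⟫ := by
      rw [hzr]
      refine integral_congr_ae ?_
      filter_upwards [hKae] with z hz
      rw [hfK _ _ hz]
    rw [h2, hγδ i, hA', ga_inner] at h1
    have h3 : ρ ^ 2 / (4 * a) = a * (a0 / 2) := by
      rw [ha0']
      field_simp
      ring
    rw [h3]
    calc a * (a0 / 2) ≤ a * (sg (δ i) * (a⁻¹ * fderiv ℝ (gauge K) (ζ (e i)) z)) := by gcongr
      _ = _ := by field_simp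

end Pool.Agent.N555.RZ
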