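import Pool.Agent.N555.RZ.Trans
import Pool.Agent.N555.RZ.KC
import Pool.Agent.W338.LVFcmp

set_option autoImplicit false
set_option maxHeartbeats 4000000

/-!
Symmetric bodies: vectors with small sign averages, and finite cotype.
-/

namespace Pool.Agent.N555.RZ

open MeasureTheory Set
open scoped ENNReal RealInnerProductSpace Pointwise
open Pool.Agent.TH591.Ns

variable {d : ℕ} {K : Set (EuclideanSpace ℝ (Fin d))}

theorem exists_euclid (N : Seminorm ℝ (EuclideanSpace ℝ (Fin d))) (hN : ∀ x, N x = 0 → x = 0) :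
    ∃ L : EuclideanSpace ℝ (Fin d) →ₗ[ℝ] EuclideanSpace ℝ (Fin d),
      (∀ x, N x ≤ (d + 1) * ‖L x‖) ∧ ∀ x, ‖L x‖ ≤ Real.sqrt d * N x := by
  let e := WithLp.linearEquiv 2 ℝ (Fin d → ℝ)
  let N' : Seminorm ℝ (Fin d → ℝ) := N.comp e.symm.toLinearMap
  have hN' : ∀ w, N' w = N (WithLp.toLp 2 w) := fun w => rfl
  obtain ⟨L', -, hlo, hhi⟩ := Pool.Agent.W338.LVFcmp.auerbach N' (fun w hw => by
    rw [hN'] at hw
    have := hN _ hw
    simpa using this)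
  let L : EuclideanSpace ℝ (Fin d) →ₗ[ℝ] EuclideanSpace ℝ (Fin d) :=
    e.symm.toLinearMap ∘ₗ L' ∘ₗ e.toLinearMap
  have hL : ∀ x : EuclideanSpace ℝ (Fin d), L x = WithLp.toLp 2 (L' (WithLp.ofLp x)) := fun x => rfl
  have hnorm1 : ∀ w : Fin d → ℝ, ‖w‖ ≤ ‖(WithLp.toLp 2 w : EuclideanSpace ℝ (Fin d))‖ := by
    intro w
    rw [pi_norm_le_iff_of_nonneg (norm_nonneg _)]
    intro i
    exact PiLp.norm_apply_le (p := 2) (WithLp.toLp 2 w : EuclideanSpace ℝ (Fin d)) i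
  have hnorm2 : ∀ w : Fin d → ℝ, ‖(WithLp.toLp 2 w : EuclideanSpace ℝ (Fin d))‖
      ≤ Real.sqrt d * ‖w‖ := by
    intro w
    have h1 : ‖(WithLp.toLp 2 w : EuclideanSpace ℝ (Fin d))‖ ^ 2 ≤ (Real.sqrt d * ‖w‖) ^ 2 := by
      rw [EuclideanSpace.norm_sq_eq, mul_pow, Real.sq_sqrt (Nat.cast_nonneg d)]
      calc ∑ i, ‖(WithLp.toLp 2 w : EuclideanSpace ℝ (Fin d)) i‖ ^ 2
          ≤ ∑ _i : Fin d, ‖w‖ ^ 2 := by
            refine Finset.sum_le_sum fun i _ => ?_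
            have : ‖(WithLp.toLp 2 w : EuclideanSpace ℝ (Fin d)) i‖ ≤ ‖w‖ := norm_le_pi_norm w i
            gcongr
        _ = _ := by simp
    exact le_of_sq_le_sq h1 (by positivity)
  refine ⟨L, fun x => ?_, fun x => ?_⟩
  · have h1 := hhi (WithLp.ofLp x)
    rw [hN'] at h1
    rw [hL]
    refine le_trans h1 ?_
    gcongr
    exact hnorm1 _
  · rw [hL]
    refine (hnorm2 _).trans ?_
    have h1 := hlo (WithLp.ofLp x)
    rw [hN'] at h1
    exact mul_le_mul_of_nonneg_left h1 (Real.sqrt_nonneg _)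

theorem exists_N0 (d : ℕ) (hd : 2 ≤ d) : ∃ N₀ : ℕ, 1 ≤ N₀ ∧
    ((d : ℝ) + 1) * Real.sqrt d ≤ 2 ^ N₀ ∧ 4 * (N₀ : ℝ) ≤ 13 * Real.log (d + 1) := by
  have hℓ := log_ge_one d hd
  set ℓ := Real.log ((d : ℝ) + 1) with hℓ'
  have hlog2 := Real.log_two_gt_d9
  set y : ℝ := 3 / 2 * ℓ / Real.log 2 with hy
  have hy0 : 0 < y := by positivity
  refine ⟨⌈y⌉₊, Nat.one_le_ceil_iff.mpr hy0, ?_, ?_⟩
  · have h1 : Real.sqrt d ≤ Real.sqrt (d + 1) := Real.sqrt_le_sqrt (by linarith)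
    have h2 : ((d : ℝ) + 1) * Real.sqrt (d + 1) = Real.exp (3 / 2 * ℓ) := by
      have e1 : Real.exp (3 / 2 * ℓ) = Real.exp ℓ * Real.exp (ℓ * (1 / 2)) := by
        rw [← Real.exp_add]; congr 1; ring
      rw [e1, Real.exp_mul, hℓ', Real.exp_log (by positivity), ← Real.sqrt_eq_rpow]
    calc ((d : ℝ) + 1) * Real.sqrt d ≤ ((d : ℝ) + 1) * Real.sqrt (d + 1) := by gcongr
      _ = Real.exp (3 / 2 * ℓ) := h2
      _ = Real.exp (Real.log 2 * y) := by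
          rw [hy]
          congr 1
          field_simp
      _ = (2 : ℝ) ^ y := by rw [Real.rpow_def_of_pos (by norm_num)]
      _ ≤ (2 : ℝ) ^ ((⌈y⌉₊ : ℕ) : ℝ) :=
          Real.rpow_le_rpow_of_exponent_le (by norm_num) (Nat.le_ceil y)
      _ = 2 ^ ⌈y⌉₊ := by rw [Real.rpow_natCast]
  · have h1 : (⌈y⌉₊ : ℝ) < y + 1 := Nat.ceil_lt_add_one hy0.le
    have h2 : y ≤ 2.17 * ℓ := by
      rw [hy, div_le_iff₀ (by positivity)]
      nlinarith
    linarith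

/-- the seminorm of a symmetric body -/
noncomputable def gsem (hK : Convex ℝ K) (hK0 : K ∈ nhds (0 : EuclideanSpace ℝ (Fin d)))
    (hsym : ∀ x ∈ K, -x ∈ K) : Seminorm ℝ (EuclideanSpace ℝ (Fin d)) :=
  Seminorm.of (gauge K) (isG_gauge hK hK0).add (fun c x => by
    rcases le_total 0 c with h | h
    · rw [(isG_gauge hK hK0).smul c h, Real.norm_of_nonneg h]
    · have h1 : c • x = (-c) • (-x) := by simp
      rw [h1, (isG_gauge hK hK0).smul (-c) (by linarith), gauge_neg hsym, Real.norm_of_nonpos h])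

theorem mainB (n : ℕ) (D : ℝ) (hd : 2 ≤ d) (hn : 1 ≤ n) (hK : Convex ℝ K) (hKc : IsCompact K)
    (hKi : 0 ∈ interior K) (hsym : ∀ x ∈ K, -x ∈ K)
    (hspr : Spr K D)
    (hD : 10 ^ 64 * (n : ℝ) ^ 4 * Real.log (d + 1) ^ 10 ≤ D) :
    (∃ T : Finset (EuclideanSpace ℝ (Fin d)),
      K ⊆ ⋃ t ∈ T, (fun x => t + x) '' interior K ∧ T.card < 2 ^ d) ∨
    ∃ x : Fin n → EuclideanSpace ℝ (Fin d),
      (∀ i, 1 / (10 ^ 10 * Real.log (d + 1) ^ 2) ≤ gauge K (x i)) ∧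
      ∑ δ : Fin n → Bool, gauge K (∑ i, sg (δ i) • x i) ^ 2
        ≤ 2 ^ n * (13 * Real.log (d + 1)) ^ 2 := by
  have hK0 : K ∈ nhds (0 : EuclideanSpace ℝ (Fin d)) := mem_interior_iff_mem_nhds.mp hKi
  have hg := isG_gauge hK hK0
  rcases mainA n D hd hn hK hKc hKi 1 le_rfl (by
    intro x hx
    rw [one_smul]
    have := hsym _ hx
    rwa [neg_neg] at this) hspr (by rw [one_pow, mul_one]; exact hD) with h | ⟨φ, h1, h2⟩
  · exact Or.inl h
  right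
  choose z hz hφ using h2
  set N := gsem hK hK0 hsym with hN
  have hNx : ∀ x, N x = gauge K x := fun x => rfl
  have hN0 : ∀ x, N x = 0 → x = 0 := by
    intro x hx
    rw [hNx] at hx
    have hb := NormedSpace.isVonNBounded_of_isBounded ℝ hKc.isBounded
    exact (gauge_eq_zero (absorbent_nhds_zero hK0) hb).mp hx
  obtain ⟨L, hL1, hL2⟩ := exists_euclid N hN0
  obtain ⟨N₀, hN1, hN2, hN3⟩ := exists_N0 d hd
  have hrad := rad N L (d + 1) (Real.sqrt d) (by positivity) (Real.sqrt_nonneg _) hL1 hL2 N₀ hN1 hN2 z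
    (fun δ => by rw [hNx]; exact gauge_le_one hK hKc hK0 (hz δ))
  refine ⟨fun i => hat z {i}, fun i => ?_, ?_⟩
  · have hle : ∀ x, φ i x ≤ gauge K x := by
      intro y
      refine le_of_forall_pos_le_add fun ε hε => ?_
      have hc : 0 < gauge K y + ε := by
        have := hg.nonneg y
        linarith
      have h1' := h1 i ((gauge K y + ε)⁻¹ • y) (mem_of_gauge hK hKc hK0 (by
        rw [hg.smul _ (by positivity), inv_mul_le_iff₀ hc]
        linarith))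
      rw [map_smul, smul_eq_mul, inv_mul_le_iff₀ hc] at h1'
      linarith
    refine le_trans ?_ (hle _)
    show _ ≤ φ i (hat z {i})
    unfold hat
    rw [map_smul, map_sum, smul_eq_mul]
    rw [← div_eq_inv_mul, le_div_iff₀ (by positivity)]
    have h3 : ∀ δ, φ i (wal {i} δ • z δ) = sg (δ i) * φ i (z δ) := by
      intro δ
      rw [map_smul, smul_eq_mul]
      simp [wal]
    simp only [h3]
    calc 1 / (10 ^ 10 * Real.log (d + 1) ^ 2) * 2 ^ n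
        = ∑ _δ : Fin n → Bool, 1 / (10 ^ 10 * 1 * Real.log (d + 1) ^ 2) := by
          simp
          ring
      _ ≤ _ := Finset.sum_le_sum fun δ _ => hφ δ i
  · calc ∑ δ : Fin n → Bool, gauge K (∑ i, sg (δ i) • hat z {i}) ^ 2
        ≤ 2 ^ n * (4 * N₀) ^ 2 := hrad
      _ ≤ _ := by gcongr

/-- finite cotype -/
theorem mainC (D : ℝ) (hd : 2 ≤ d) (hK : Convex ℝ K) (hKc : IsCompact K)
    (hKi : 0 ∈ interior K) (hsym : ∀ x ∈ K, -x ∈ K)
    (hspr : Spr K D)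
    (q Cq : ℝ) (hq : 2 ≤ q) (hCq : 1 ≤ Cq)
    (hcot : ∀ (m : ℕ) (x : Fin m → EuclideanSpace ℝ (Fin d)),
      (∑ i, gauge K (x i) ^ q) ^ (1 / q)
        ≤ Cq * Real.sqrt ((∑ δ : Fin m → Bool, gauge K (∑ i, sg (δ i) • x i) ^ 2) / 2 ^ m))
    (hD : (10 ^ 7 * Cq * Real.log (d + 1)) ^ (17 * q) ≤ D) :
    ∃ T : Finset (EuclideanSpace ℝ (Fin d)),
      K ⊆ ⋃ t ∈ T, (fun x => t + x) '' interior K ∧ T.card < 2 ^ d := by
  have hK0 : K ∈ nhds (0 : EuclideanSpace ℝ (Fin d)) := mem_interior_iff_mem_nhds.mp hKi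
  have hg := isG_gauge hK hK0
  have hℓ := log_ge_one d hd
  set ℓ := Real.log ((d : ℝ) + 1) with hℓ'
  have hq0 : 0 < q := by linarith
  set X : ℝ := 13 * 10 ^ 10 * Cq * ℓ ^ 3 with hX
  have hCq0 : 0 < Cq := by linarith
  have hℓ0 : 0 < ℓ := by linarith
  have hX0 : 0 < X := by positivity
  set n : ℕ := ⌊X ^ q⌋₊ + 1 with hn
  have hXn : X ^ q < n := by
    rw [hn]
    push_cast
    exact Nat.lt_floor_add_one _
  set Y : ℝ := 10 ^ 7 * Cq * ℓ with hY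
  have hY0 : 0 < Y := by positivity
  have hℓ3 : 1 ≤ ℓ ^ 3 := one_le_pow₀ hℓ
  have hY1 : 10 ^ 7 ≤ Y := by
    have : 1 ≤ Cq * ℓ := by nlinarith
    rw [hY]; nlinarith
  have hXY : 2 * X ≤ Y ^ 3 := by
    have h1 : Y ^ 3 = 10 ^ 21 * Cq ^ 3 * ℓ ^ 3 := by rw [hY]; ring
    have h2 : Cq ≤ Cq ^ 3 := le_self_pow₀ hCq (by norm_num)
    rw [h1, hX]
    have h3 : Cq * ℓ ^ 3 ≤ Cq ^ 3 * ℓ ^ 3 := by gcongr
    have h4 : 0 ≤ Cq * ℓ ^ 3 := by positivity
    nlinarith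
  have hX1 : 1 ≤ X := by
    have : 1 ≤ Cq * ℓ ^ 3 := by nlinarith
    rw [hX]
    nlinarith
  have hnY : (n : ℝ) ≤ (Y ^ 3) ^ q := by
    have h1 : (n : ℝ) ≤ X ^ q + 1 := by
      rw [hn]
      push_cast
      gcongr
      exact Nat.floor_le (by positivity)
    have h2 : 1 ≤ X ^ q := Real.one_le_rpow hX1 hq0.le
    have h3 : (2 : ℝ) ≤ 2 ^ q := by
      calc (2 : ℝ) = 2 ^ (1 : ℝ) := by rw [Real.rpow_one]
        _ ≤ 2 ^ q := Real.rpow_le_rpow_of_exponent_le (by norm_num) (by linarith)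
    calc (n : ℝ) ≤ X ^ q + 1 := h1
      _ ≤ 2 * X ^ q := by linarith
      _ ≤ 2 ^ q * X ^ q := by gcongr
      _ = (2 * X) ^ q := by rw [Real.mul_rpow (by norm_num) hX0.le]
      _ ≤ (Y ^ 3) ^ q := Real.rpow_le_rpow (by positivity) hXY hq0.le
  have hDn : 10 ^ 64 * (n : ℝ) ^ 4 * ℓ ^ 10 ≤ D := by
    refine le_trans ?_ hD
    have h1 : (n : ℝ) ^ 4 ≤ Y ^ (12 * q) := by
      calc (n : ℝ) ^ 4 ≤ ((Y ^ 3) ^ q) ^ 4 := by gcongr
        _ = Y ^ (12 * q) := by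
          rw [← Real.rpow_natCast ((Y ^ 3) ^ q) 4, ← Real.rpow_natCast Y 3, ← Real.rpow_mul hY0.le,
            ← Real.rpow_mul hY0.le]
          congr 1
          push_cast
          ring
    have h2 : 10 ^ 64 * ℓ ^ 10 ≤ Y ^ (5 * q) := by
      calc 10 ^ 64 * ℓ ^ 10 ≤ 10 ^ 70 * (Cq ^ 10 * ℓ ^ 10) := by
            have h3 : 1 ≤ Cq ^ 10 := one_le_pow₀ hCq
            have h4 : 0 < ℓ ^ 10 := by positivity
            have h5 : ℓ ^ 10 ≤ Cq ^ 10 * ℓ ^ 10 := le_mul_of_one_le_left h4.le h3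
            calc (10 : ℝ) ^ 64 * ℓ ^ 10 ≤ 10 ^ 70 * ℓ ^ 10 := by gcongr <;> norm_num
              _ ≤ _ := by gcongr
        _ = Y ^ 10 := by rw [hY]; ring
        _ = Y ^ (10 : ℝ) := by norm_cast
        _ ≤ Y ^ (5 * q) := Real.rpow_le_rpow_of_exponent_le (by linarith) (by linarith)
    calc 10 ^ 64 * (n : ℝ) ^ 4 * ℓ ^ 10 = (n : ℝ) ^ 4 * (10 ^ 64 * ℓ ^ 10) := by ring
      _ ≤ Y ^ (12 * q) * Y ^ (5 * q) := by gcongr
      _ = Y ^ (17 * q) := by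
          rw [← Real.rpow_add hY0]
          congr 1
          ring
  rcases mainB n D hd (by omega) hK hKc hKi hsym hspr hDn with h | ⟨x, hx1, hx2⟩
  · exact h
  exfalso
  have h1 := hcot n x
  have h2 : Real.sqrt ((∑ δ : Fin n → Bool, gauge K (∑ i, sg (δ i) • x i) ^ 2) / 2 ^ n)
      ≤ 13 * ℓ := by
    rw [Real.sqrt_le_iff]
    refine ⟨by positivity, ?_⟩
    rw [div_le_iff₀ (by positivity)]
    linarith
  set c : ℝ := 1 / (10 ^ 10 * ℓ ^ 2) with hc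
  have hc0 : 0 < c := by positivity
  have h3 : (n : ℝ) ^ (1 / q) * c ≤ (∑ i, gauge K (x i) ^ q) ^ (1 / q) := by
    have h4 : (n : ℝ) * c ^ q ≤ ∑ i, gauge K (x i) ^ q := by
      calc (n : ℝ) * c ^ q = ∑ _i : Fin n, c ^ q := by simp
        _ ≤ ∑ i, gauge K (x i) ^ q := by
            refine Finset.sum_le_sum fun i _ => ?_
            exact Real.rpow_le_rpow hc0.le (hx1 i) hq0.le
    calc (n : ℝ) ^ (1 / q) * c = ((n : ℝ) * c ^ q) ^ (1 / q) := by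
          rw [Real.mul_rpow (Nat.cast_nonneg n) (by positivity), ← Real.rpow_mul hc0.le,
            mul_one_div_cancel hq0.ne', Real.rpow_one]
      _ ≤ _ := Real.rpow_le_rpow (by positivity) h4 (by positivity)
  have h5 : (n : ℝ) ^ (1 / q) * c ≤ Cq * (13 * ℓ) :=
    (h3.trans h1).trans (by gcongr)
  have h6 : X < (n : ℝ) ^ (1 / q) := by
    calc X = (X ^ q) ^ (1 / q) := by
          rw [← Real.rpow_mul hX0.le, mul_one_div_cancel hq0.ne', Real.rpow_one]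
      _ < (n : ℝ) ^ (1 / q) := Real.rpow_lt_rpow (by positivity) hXn (by positivity)
  have h7 : X * c = Cq * (13 * ℓ) := by
    rw [hX, hc]
    field_simp
  have h8 : X * c < (n : ℝ) ^ (1 / q) * c := by gcongr
  linarith

end Pool.Agent.N555.RZ
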