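import Pool.Agent.TH591.Ns.Flat

set_option autoImplicit false

/-!
Moments of linear functionals on a convex body.
-/

namespace Pool.Agent.N555.RZ

open MeasureTheory Set
open scoped ENNReal RealInnerProductSpace
open Pool.Agent.TH591.Ns (IsG tail1)

variable {d : ℕ} {g : EuclideanSpace ℝ (Fin d) → ℝ}

/-- the uniform probability measure on `K` -/
noncomputable def mP (K : Set (EuclideanSpace ℝ (Fin d))) : Measure (EuclideanSpace ℝ (Fin d)) :=
  (volume K)⁻¹ • volume.restrict K

theorem mP_prob {K : Set (EuclideanSpace ℝ (Fin d))} (h0 : volume K ≠ 0) (hfin : volume K ≠ ⊤) :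
    IsProbabilityMeasure (mP K) := by
  constructor
  rw [mP, Measure.smul_apply, Measure.restrict_apply_univ, smul_eq_mul]
  exact ENNReal.inv_mul_cancel h0 hfin

theorem mP_ae {K : Set (EuclideanSpace ℝ (Fin d))} (hK : MeasurableSet K) :
    ∀ᵐ z ∂(mP K), z ∈ K := by
  refine Measure.ae_smul_measure ?_ _
  exact ae_restrict_mem hK

theorem log_ge : (2 / 5 : ℝ) ≤ Real.log (3 / 2) := by
  rw [Real.le_log_iff_exp_le (by norm_num)]
  have h1 : Real.exp (2 / 5) ^ 5 ≤ (3 / 2) ^ 5 := by
    rw [← Real.exp_nat_mul]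
    have e : ((5 : ℕ) : ℝ) * (2 / 5) = 1 + 1 := by norm_num
    rw [e, Real.exp_add]
    have := Real.exp_one_lt_d9
    have h0 := Real.exp_pos 1
    nlinarith
  exact le_of_pow_le_pow_left₀ (by norm_num) (by norm_num) h1

theorem exp_one_side (hg : IsG g)
    (hfin : volume {y : EuclideanSpace ℝ (Fin d) | g y ≤ 1} ≠ ⊤)
    (φ : EuclideanSpace ℝ (Fin d) →L[ℝ] ℝ) (s : ℝ) (hs : 0 < s)
    (hφ : ∫⁻ z in {y : EuclideanSpace ℝ (Fin d) | g y ≤ 1}, ENNReal.ofReal |φ z|
      ≤ ENNReal.ofReal s * volume {y : EuclideanSpace ℝ (Fin d) | g y ≤ 1}) :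
    ∫⁻ z in {y : EuclideanSpace ℝ (Fin d) | g y ≤ 1},
      ENNReal.ofReal (Real.exp (Real.log (3 / 2) / (8 * s) * φ z))
      ≤ 2 * volume {y : EuclideanSpace ℝ (Fin d) | g y ≤ 1} := by
  set K : Set (EuclideanSpace ℝ (Fin d)) := {y | g y ≤ 1} with hK
  have hKm : MeasurableSet K := (isClosed_le hg.cont continuous_const).measurableSet
  set T : ℕ → Set (EuclideanSpace ℝ (Fin d)) :=
    fun k => {z | g z ≤ 1 ∧ -(4 * s) + 8 * s * k ≤ φ z} with hT
  have hTm : ∀ k, MeasurableSet (T k) := fun k =>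
    ((isClosed_le hg.cont continuous_const).inter
      (isClosed_le continuous_const φ.continuous)).measurableSet
  have hlog : 0 < Real.log (3 / 2) := by linarith [log_ge]
  have hpt : ∀ z ∈ K, ENNReal.ofReal (Real.exp (Real.log (3 / 2) / (8 * s) * φ z))
      ≤ 1 + ∑' k : ℕ, ENNReal.ofReal (1 / 2 * (3 / 2) ^ k) * (T k).indicator 1 z := by
    intro z hz
    by_cases h0 : φ z < 0
    · have h1 : Real.exp (Real.log (3 / 2) / (8 * s) * φ z) ≤ 1 := by
        rw [Real.exp_le_one_iff]
        exact mul_nonpos_of_nonneg_of_nonpos (by positivity) h0.le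
      calc ENNReal.ofReal (Real.exp (Real.log (3 / 2) / (8 * s) * φ z)) ≤ ENNReal.ofReal 1 :=
            ENNReal.ofReal_le_ofReal h1
        _ = 1 := ENNReal.ofReal_one
        _ ≤ _ := le_self_add
    · push Not at h0
      set x : ℝ := (φ z + 4 * s) / (8 * s) with hx
      have hx0 : 0 ≤ x := by positivity
      set j := ⌊x⌋₊ with hj
      have hjx : (j : ℝ) ≤ x := Nat.floor_le hx0
      have hxj : x < j + 1 := Nat.lt_floor_add_one x
      have e1 : Real.exp (Real.log (3 / 2) / (8 * s) * φ z) ≤ (3 / 2) ^ (j + 1) := by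
        have h2 : φ z / (8 * s) ≤ j + 1 := by
          have : x = φ z / (8 * s) + 1 / 2 := by
            rw [hx]; field_simp; ring
          linarith
        have : Real.log (3 / 2) / (8 * s) * φ z = Real.log (3 / 2) * (φ z / (8 * s)) := by
          ring
        rw [this, ← Real.rpow_natCast, Real.rpow_def_of_pos (by norm_num : (0 : ℝ) < 3 / 2)]
        apply Real.exp_le_exp.mpr
        push_cast
        exact mul_le_mul_of_nonneg_left h2 hlog.le
      have e2 : ∀ n : ℕ, (3 / 2 : ℝ) ^ (n + 1)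
          = 1 + ∑ k ∈ Finset.range (n + 1), 1 / 2 * (3 / 2) ^ k := by
        intro n
        induction n with
        | zero => norm_num
        | succ n ih =>
          rw [Finset.sum_range_succ, ← add_assoc, ← ih]
          ring
      calc ENNReal.ofReal (Real.exp (Real.log (3 / 2) / (8 * s) * φ z))
          ≤ ENNReal.ofReal ((3 / 2) ^ (j + 1)) := ENNReal.ofReal_le_ofReal e1
        _ = 1 + ∑ k ∈ Finset.range (j + 1), ENNReal.ofReal (1 / 2 * (3 / 2) ^ k) := by
            rw [e2 j, ENNReal.ofReal_add (by norm_num)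
              (Finset.sum_nonneg fun k _ => by positivity), ENNReal.ofReal_one,
              ENNReal.ofReal_sum_of_nonneg (fun k _ => by positivity)]
        _ = 1 + ∑ k ∈ Finset.range (j + 1), ENNReal.ofReal (1 / 2 * (3 / 2) ^ k)
              * (T k).indicator 1 z := by
            congr 1
            refine Finset.sum_congr rfl fun k hk => ?_
            have hkj : (k : ℝ) ≤ j := by
              have := Finset.mem_range.mp hk
              exact_mod_cast (by omega : k ≤ j)
            have hmem : z ∈ T k := by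
              refine ⟨hz, ?_⟩
              have : (k : ℝ) ≤ x := hkj.trans hjx
              rw [hx, le_div_iff₀ (by positivity)] at this
              linarith
            rw [indicator_of_mem hmem]
            simp
        _ ≤ 1 + ∑' k : ℕ, ENNReal.ofReal (1 / 2 * (3 / 2) ^ k) * (T k).indicator 1 z := by
            gcongr
            exact ENNReal.sum_le_tsum _
  calc ∫⁻ z in K, ENNReal.ofReal (Real.exp (Real.log (3 / 2) / (8 * s) * φ z))
      ≤ ∫⁻ z in K, (1 + ∑' k : ℕ, ENNReal.ofReal (1 / 2 * (3 / 2) ^ k) * (T k).indicator 1 z) :=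
        setLIntegral_mono' hKm hpt
    _ = (∫⁻ z in K, 1) + ∫⁻ z in K, ∑' k : ℕ, ENNReal.ofReal (1 / 2 * (3 / 2) ^ k)
          * (T k).indicator 1 z :=
        lintegral_add_left measurable_const _
    _ = volume K + ∑' k : ℕ, ∫⁻ z in K, ENNReal.ofReal (1 / 2 * (3 / 2) ^ k)
          * (T k).indicator 1 z := by
        rw [lintegral_tsum]
        · simp
        · intro k
          exact ((measurable_one.indicator (hTm k)).const_mul _).aemeasurable
    _ ≤ volume K + ∑' k : ℕ, (2 : ℝ≥0∞)⁻¹ * ((2 : ℝ≥0∞)⁻¹ ^ k * volume K) := by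
        gcongr with k
        rw [lintegral_const_mul _ (measurable_one.indicator (hTm k)),
          lintegral_indicator_one (hTm k), Measure.restrict_apply (hTm k)]
        have h1 : T k ∩ K ⊆ T k := inter_subset_left
        calc ENNReal.ofReal (1 / 2 * (3 / 2) ^ k) * volume (T k ∩ K)
            ≤ ENNReal.ofReal (1 / 2 * (3 / 2) ^ k) * volume (T k) := by
              gcongr
          _ ≤ ENNReal.ofReal (1 / 2 * (3 / 2) ^ k)
              * (ENNReal.ofReal ((1 / 3) ^ k) * volume K) := by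
              gcongr
              exact tail1 hg hfin φ s hs hφ k
          _ = (2 : ℝ≥0∞)⁻¹ * ((2 : ℝ≥0∞)⁻¹ ^ k * volume K) := by
              rw [← mul_assoc, ← mul_assoc, ← ENNReal.ofReal_mul (by positivity)]
              congr 1
              have : (1 / 2 : ℝ) * (3 / 2) ^ k * (1 / 3) ^ k = (1 / 2) * (1 / 2) ^ k := by
                rw [mul_assoc, ← mul_pow]
                norm_num
              rw [this, ENNReal.ofReal_mul (by norm_num), ENNReal.ofReal_pow (by norm_num)]
              have h2 : ENNReal.ofReal (1 / 2) = (2 : ℝ≥0∞)⁻¹ := by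
                rw [one_div, ENNReal.ofReal_inv_of_pos (by norm_num)]
                norm_num
              rw [h2]
    _ = 2 * volume K := by
        rw [ENNReal.tsum_mul_left, ENNReal.tsum_mul_right, ENNReal.tsum_geometric,
          ENNReal.one_sub_inv_two, inv_inv, ← mul_assoc,
          ENNReal.inv_mul_cancel (by norm_num) (by norm_num), one_mul, two_mul]

/-- moments of a linear functional -/
theorem lmoment (hg : IsG g)
    (hfin : volume {y : EuclideanSpace ℝ (Fin d) | g y ≤ 1} ≠ ⊤)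
    (φ : EuclideanSpace ℝ (Fin d) →L[ℝ] ℝ) (s : ℝ) (hs : 0 < s)
    (hφ : ∫⁻ z in {y : EuclideanSpace ℝ (Fin d) | g y ≤ 1}, ENNReal.ofReal |φ z|
      ≤ ENNReal.ofReal s * volume {y : EuclideanSpace ℝ (Fin d) | g y ≤ 1}) (p : ℕ) (hp : 1 ≤ p) :
    ∫⁻ z in {y : EuclideanSpace ℝ (Fin d) | g y ≤ 1}, ENNReal.ofReal (|φ z| ^ (2 * p))
      ≤ ENNReal.ofReal ((80 * p * s) ^ (2 * p))
        * volume {y : EuclideanSpace ℝ (Fin d) | g y ≤ 1} := by
  set K : Set (EuclideanSpace ℝ (Fin d)) := {y | g y ≤ 1} with hK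
  have hlog : 0 < Real.log (3 / 2) := by linarith [log_ge]
  set t : ℝ := Real.log (3 / 2) / (8 * s) with ht
  have ht0 : 0 < t := by positivity
  have ht20 : 1 / t ≤ 20 * s := by
    rw [ht, one_div_div, div_le_iff₀ hlog]
    have := log_ge
    nlinarith
  have hA := exp_one_side hg hfin φ s hs hφ
  have hB := exp_one_side hg hfin (-φ) s hs (by simpa using hφ)
  have hpt : ∀ z, |φ z| ^ (2 * p) ≤ ((2 * p).factorial / t ^ (2 * p)) *
      (Real.exp (t * φ z) + Real.exp (t * (-φ) z)) := by
    intro z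
    have h1 := Real.pow_div_factorial_le_exp (t * |φ z|) (by positivity) (2 * p)
    have h2 : Real.exp (t * |φ z|) ≤ Real.exp (t * φ z) + Real.exp (t * (-φ) z) := by
      have e1 := Real.exp_pos (t * φ z)
      have e2 := Real.exp_pos (t * (-φ) z)
      rcases abs_cases (φ z) with ⟨h, _⟩ | ⟨h, _⟩
      · rw [h]; linarith
      · rw [h]
        have : t * (-φ) z = t * -φ z := rfl
        rw [this] at e2 ⊢
        linarith
    rw [mul_pow, div_le_iff₀ (by positivity)] at h1
    rw [div_mul_eq_mul_div, le_div_iff₀ (by positivity)]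
    calc |φ z| ^ (2 * p) * t ^ (2 * p) = t ^ (2 * p) * |φ z| ^ (2 * p) := by ring
      _ ≤ Real.exp (t * |φ z|) * (2 * p).factorial := h1
      _ ≤ (Real.exp (t * φ z) + Real.exp (t * (-φ) z)) * (2 * p).factorial := by gcongr
      _ = _ := by ring
  have hconst : ((2 * p).factorial / t ^ (2 * p) : ℝ) * 4 ≤ (80 * p * s) ^ (2 * p) := by
    have h1 : ((2 * p).factorial : ℝ) ≤ (2 * p : ℝ) ^ (2 * p) := by
      have := Nat.factorial_le_pow (2 * p)
      exact_mod_cast this
    have h2 : (4 : ℝ) ≤ 2 ^ (2 * p) := by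
      rw [pow_mul]
      norm_num
      exact le_self_pow₀ (by norm_num) (by omega)
    calc ((2 * p).factorial / t ^ (2 * p) : ℝ) * 4
        = (2 * p).factorial * (1 / t) ^ (2 * p) * 4 := by
          rw [one_div, inv_pow]; ring
      _ ≤ (2 * p : ℝ) ^ (2 * p) * (20 * s) ^ (2 * p) * 2 ^ (2 * p) := by gcongr
      _ = (80 * p * s) ^ (2 * p) := by
          rw [← mul_pow, ← mul_pow]
          ring
  have hm1 : Measurable fun z : EuclideanSpace ℝ (Fin d) => ENNReal.ofReal (Real.exp (t * φ z)) := by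
    exact (Real.measurable_exp.comp (φ.continuous.measurable.const_mul t)).ennreal_ofReal
  calc ∫⁻ z in K, ENNReal.ofReal (|φ z| ^ (2 * p))
      ≤ ∫⁻ z in K, ENNReal.ofReal ((2 * p).factorial / t ^ (2 * p)) *
        (ENNReal.ofReal (Real.exp (t * φ z)) + ENNReal.ofReal (Real.exp (t * (-φ) z))) := by
        refine lintegral_mono fun z => ?_
        rw [← ENNReal.ofReal_add (Real.exp_pos _).le (Real.exp_pos _).le,
          ← ENNReal.ofReal_mul (by positivity)]
        exact ENNReal.ofReal_le_ofReal (hpt z)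
    _ = ENNReal.ofReal ((2 * p).factorial / t ^ (2 * p)) *
        ((∫⁻ z in K, ENNReal.ofReal (Real.exp (t * φ z)))
        + ∫⁻ z in K, ENNReal.ofReal (Real.exp (t * (-φ) z))) := by
        rw [lintegral_const_mul' _ _ ENNReal.ofReal_ne_top, lintegral_add_left hm1]
    _ ≤ ENNReal.ofReal ((2 * p).factorial / t ^ (2 * p)) * (2 * volume K + 2 * volume K) := by
        gcongr
    _ = ENNReal.ofReal ((2 * p).factorial / t ^ (2 * p) * 4) * volume K := by
        rw [ENNReal.ofReal_mul (by positivity), ← add_mul, mul_assoc]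
        norm_num
    _ ≤ _ := by
        gcongr

/-- moments of a linear functional for the probability measure on `K` -/
theorem moment (hg : IsG g)
    (h0 : volume {y : EuclideanSpace ℝ (Fin d) | g y ≤ 1} ≠ 0)
    (hfin : volume {y : EuclideanSpace ℝ (Fin d) | g y ≤ 1} ≠ ⊤)
    (φ : EuclideanSpace ℝ (Fin d) →L[ℝ] ℝ) (s : ℝ) (hs : 0 ≤ s)
    (hint : Integrable (fun z => (φ z) ^ 2) (mP {y : EuclideanSpace ℝ (Fin d) | g y ≤ 1}))
    (hφ : ∫ z, (φ z) ^ 2 ∂(mP {y : EuclideanSpace ℝ (Fin d) | g y ≤ 1}) ≤ s ^ 2)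
    (p : ℕ) (hp : 1 ≤ p) :
    ∫⁻ z, ENNReal.ofReal (|φ z| ^ (2 * p)) ∂(mP {y : EuclideanSpace ℝ (Fin d) | g y ≤ 1})
      ≤ ENNReal.ofReal ((80 * p * s) ^ (2 * p)) := by
  set K : Set (EuclideanSpace ℝ (Fin d)) := {y | g y ≤ 1} with hK
  have hPr := mP_prob h0 hfin
  -- for all larger constants
  have key : ∀ s' : ℝ, s < s' →
      ∫⁻ z, ENNReal.ofReal (|φ z| ^ (2 * p)) ∂(mP K)
      ≤ ENNReal.ofReal ((80 * p * s') ^ (2 * p)) := by
    intro s' hs'
    have hs0 : 0 < s' := lt_of_le_of_lt hs hs'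
    have h1 : ∫ z, |φ z| ∂(mP K) ≤ s' := by
      have h2 : ∫ z, |φ z| ∂(mP K) ≤ ∫ z, (1 / (2 * s') * (φ z) ^ 2 + s' / 2) ∂(mP K) := by
        refine integral_mono_of_nonneg (Filter.Eventually.of_forall fun _ => abs_nonneg _)
          ((hint.const_mul _).add (integrable_const _)) (Filter.Eventually.of_forall fun z => ?_)
        show |φ z| ≤ 1 / (2 * s') * (φ z) ^ 2 + s' / 2
        have h3 : 0 ≤ (|φ z| - s') ^ 2 / (2 * s') := by positivity
        have h4 : (|φ z| - s') ^ 2 / (2 * s') = 1 / (2 * s') * (φ z) ^ 2 + s' / 2 - |φ z| := by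
          rw [← sq_abs (φ z)]
          field_simp
          ring
        linarith
      rw [integral_add (hint.const_mul _) (integrable_const _), integral_const_mul,
        integral_const] at h2
      simp only [probReal_univ, one_smul] at h2
      have h5 : 1 / (2 * s') * ∫ z, (φ z) ^ 2 ∂(mP K) ≤ 1 / (2 * s') * s' ^ 2 := by
        gcongr
        exact hφ.trans (by gcongr)
      have h6 : 1 / (2 * s') * s' ^ 2 = s' / 2 := by field_simp
      linarith
    have hintabs : Integrable (fun z => |φ z|) (mP K) := by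
      refine Integrable.mono' ((hint.add (integrable_const (1 : ℝ)))) 
        φ.continuous.abs.aestronglyMeasurable (Filter.Eventually.of_forall fun z => ?_)
      rw [Real.norm_eq_abs, abs_abs]
      show |φ z| ≤ (φ z) ^ 2 + 1
      rw [← sq_abs]
      nlinarith [sq_nonneg (|φ z| - 1 / 2)]
    have h7 : ∫⁻ z, ENNReal.ofReal |φ z| ∂(mP K) ≤ ENNReal.ofReal s' := by
      rw [← ofReal_integral_eq_lintegral_ofReal hintabs
        (Filter.Eventually.of_forall fun _ => abs_nonneg _)]
      exact ENNReal.ofReal_le_ofReal h1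
    have hmul : ∀ (a b : ℝ≥0∞), (volume K)⁻¹ * a ≤ b → a ≤ b * volume K := by
      intro a b hab
      calc a = volume K * ((volume K)⁻¹ * a) := by
            rw [← mul_assoc, ENNReal.mul_inv_cancel h0 hfin, one_mul]
        _ ≤ volume K * b := by gcongr
        _ = _ := mul_comm _ _
    rw [mP, lintegral_smul_measure, smul_eq_mul] at h7 ⊢
    have h8 := lmoment hg hfin φ s' hs0 (hmul _ _ h7) p hp
    calc (volume K)⁻¹ * ∫⁻ z in K, ENNReal.ofReal (|φ z| ^ (2 * p))
        ≤ (volume K)⁻¹ * (ENNReal.ofReal ((80 * p * s') ^ (2 * p)) * volume K) := by gcongr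
      _ = ENNReal.ofReal ((80 * p * s') ^ (2 * p)) := by
          rw [mul_comm (ENNReal.ofReal _), ← mul_assoc, ENNReal.inv_mul_cancel h0 hfin, one_mul]
  have hcont : Filter.Tendsto (fun s' : ℝ => ENNReal.ofReal ((80 * p * s') ^ (2 * p)))
      (nhdsWithin s (Set.Ioi s)) (nhds (ENNReal.ofReal ((80 * p * s) ^ (2 * p)))) := by
    refine (ENNReal.continuous_ofReal.comp ?_).continuousAt.tendsto.mono_left nhdsWithin_le_nhds
    fun_prop
  exact ge_of_tendsto hcont (Filter.eventually_of_mem self_mem_nhdsWithin key)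

end Pool.Agent.N555.RZ
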