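import Pool.Agent.N555.RZ.Spread

set_option autoImplicit false
set_option maxHeartbeats 4000000

/-!
Reflections: if `K` is symmetric about the hyperplane `u^⊥` then the derivative of the gauge in the
direction `u` is small in the mean.
-/

namespace Pool.Agent.N555.RZ

open MeasureTheory Set
open scoped ENNReal RealInnerProductSpace Pointwise
open Pool.Agent.TH591.Ns
open Pool.Agent.H815R2.Flat (bm_E)
open Pool.Agent.H815R2.Thin (geomK)

variable {d : ℕ} {K : Set (EuclideanSpace ℝ (Fin d))}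

theorem mP_real {S : Set (EuclideanSpace ℝ (Fin d))} (hS : MeasurableSet S) (hSK : S ⊆ K) :
    (mP K).real S = (volume S).toReal / (volume K).toReal := by
  rw [Measure.real, mP, Measure.smul_apply, Measure.restrict_apply hS,
    Set.inter_eq_self_of_subset_left hSK, smul_eq_mul, ENNReal.toReal_mul, ENNReal.toReal_inv]
  field_simp

theorem refl_formula (T : EuclideanSpace ℝ (Fin d) ≃ₗ[ℝ] EuclideanSpace ℝ (Fin d))
    (hiso : ∀ x, ‖T x‖ = ‖x‖) (u : EuclideanSpace ℝ (Fin d)) (hu : ‖u‖ = 1) (hTu : T u = -u)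
    (hTx : ∀ x, ∃ c : ℝ, T x = x + c • u) (x : EuclideanSpace ℝ (Fin d)) :
    T x = x - (2 * ⟪x, u⟫) • u := by
  obtain ⟨c, hc⟩ := hTx x
  have h1 := (LinearMap.norm_map_iff_inner_map_map T).mp hiso x u
  have h2 : ⟪T x, T u⟫ = ⟪x, u⟫ := h1
  rw [hTu, hc, inner_neg_right, inner_add_left, inner_smul_left, real_inner_self_eq_norm_sq, hu] at h2
  simp only [RCLike.conj_to_real] at h2
  have h3 : c = -(2 * ⟪x, u⟫) := by linarith
  rw [hc, h3, neg_smul, sub_eq_add_neg]

theorem shift_mem (hK : Convex ℝ K) (T : EuclideanSpace ℝ (Fin d) ≃ₗ[ℝ] EuclideanSpace ℝ (Fin d))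
    (hT : T '' K = K) (u : EuclideanSpace ℝ (Fin d))
    (hTf : ∀ x, T x = x - (2 * ⟪x, u⟫) • u) {y : EuclideanSpace ℝ (Fin d)} (hy : y ∈ K) (s : ℝ)
    (hs : 0 ≤ s) (hs2 : s ≤ 2 * ⟪y, u⟫) : y - s • u ∈ K := by
  rcases hs.eq_or_lt with h0 | h0
  · rw [← h0, zero_smul, sub_zero]; exact hy
  have hpos : 0 < 2 * ⟪y, u⟫ := by linarith
  have hTy : T y ∈ K := by
    have : T y ∈ T '' K := ⟨y, hy, rfl⟩
    rwa [hT] at this
  set t := s / (2 * ⟪y, u⟫) with ht
  have ht0 : 0 ≤ t := by positivity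
  have ht1 : t ≤ 1 := (div_le_one hpos).mpr hs2
  have h1 := hK hy hTy (by linarith : 0 ≤ 1 - t) ht0 (by ring)
  have h2 : (1 - t) • y + t • T y = y - s • u := by
    rw [hTf, smul_sub, smul_smul, sub_smul, one_smul]
    have : t * (2 * ⟪y, u⟫) = s := by rw [ht, div_mul_cancel₀ _ hpos.ne']
    rw [this]
    abel
  rwa [h2] at h1

theorem sum_odd (r : ℝ) (J : ℕ) : (1 - r) ^ 2 * ∑ k ∈ Finset.range J, (2 * (k : ℝ) + 1) * r ^ k
    = 1 + r - r ^ J * ((2 * J + 1) - (2 * J - 1) * r) := by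
  induction J with
  | zero => simp
  | succ J ih =>
    rw [Finset.sum_range_succ, mul_add, ih]
    push_cast
    ring

/-- the density of a marginal is bounded -/
theorem slab_small (hK : Convex ℝ K) (hKc : IsCompact K) (hK0 : K ∈ nhds 0)
    (hiso : ∀ w : EuclideanSpace ℝ (Fin d), ∫ z, ⟪z, w⟫ ^ 2 ∂(mP K) = ‖w‖ ^ 2)
    (T : EuclideanSpace ℝ (Fin d) ≃ₗ[ℝ] EuclideanSpace ℝ (Fin d))
    (hT : T '' K = K) (u : EuclideanSpace ℝ (Fin d)) (hu : ‖u‖ = 1)
    (hTf : ∀ x, T x = x - (2 * ⟪x, u⟫) • u) (s : ℝ) (hs : 0 < s) :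
    (mP K).real {x | x ∈ K ∧ 0 ≤ ⟪x, u⟫ ∧ ⟪x, u⟫ < s} ≤ 2 * s := by
  have h0 : volume K ≠ 0 := (Measure.measure_pos_of_mem_nhds volume hK0).ne'
  have hfin : volume K ≠ ⊤ := hKc.measure_lt_top.ne
  have hPr := mP_prob h0 hfin
  set P := mP K with hP
  set S : ℕ → Set (EuclideanSpace ℝ (Fin d)) := fun k => {x | x ∈ K ∧ k * s ≤ ⟪x, u⟫} with hS
  have hcont : Continuous fun x : EuclideanSpace ℝ (Fin d) => ⟪x, u⟫ := by fun_prop
  have hSm : ∀ k, MeasurableSet (S k) := fun k =>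
    hKc.isClosed.measurableSet.inter (isClosed_le continuous_const hcont).measurableSet
  have hSK : ∀ k, S k ⊆ K := fun k x hx => hx.1
  set b : ℕ → ℝ := fun k => P.real (S k) with hb
  have hb0 : ∀ k, 0 ≤ b k := fun k => measureReal_nonneg
  have hb1 : ∀ k, b k ≤ 1 := fun k => measureReal_le_one
  have hmono : ∀ k, b (k + 1) ≤ b k := by
    intro k
    refine measureReal_mono ?_
    rintro x ⟨h1, h2⟩
    refine ⟨h1, le_trans ?_ h2⟩
    push_cast
    nlinarith
  have hlc : ∀ k, b k * b (k + 2) ≤ b (k + 1) ^ 2 := by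
    intro k
    have h1 := bm_E (hSm k) (hSm (k + 2)) (hSm (k + 1)) (by
      rintro x ⟨hx1, hx2⟩ y ⟨hy1, hy2⟩
      constructor
      · have := hK hx1 hy1 (by norm_num : (0 : ℝ) ≤ 1 / 2) (by norm_num : (0 : ℝ) ≤ 1 / 2)
          (by norm_num)
        rwa [smul_add]
      · rw [inner_smul_left, inner_add_left]
        simp only [RCLike.conj_to_real]
        push_cast at hx2 hy2 ⊢
        linarith)
    have h2 := ENNReal.toReal_mono (ENNReal.pow_ne_top
      (ne_top_of_le_ne_top hfin (measure_mono (hSK (k + 1))))) h1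
    rw [ENNReal.toReal_mul, ENNReal.toReal_pow] at h2
    simp only [hb, hP, mP_real (hSm _) (hSK _)]
    rw [div_mul_div_comm, div_pow, ← sq]
    gcongr
  -- bound of the functional
  obtain ⟨B, hB⟩ := hKc.isBounded.subset_closedBall (0 : EuclideanSpace ℝ (Fin d))
  have hYB : ∀ x ∈ K, ⟪x, u⟫ ≤ |B| := by
    intro x hx
    have h1 := real_inner_le_norm x u
    rw [hu, mul_one] at h1
    have h2 := hB hx
    rw [mem_closedBall_zero_iff] at h2
    exact h1.trans (h2.trans (le_abs_self B))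
  obtain ⟨J, hJ⟩ := exists_nat_gt (|B| / s)
  rw [div_lt_iff₀ hs] at hJ
  -- the second moment
  set I : ℝ := ∫ x, (if 0 ≤ ⟪x, u⟫ then ⟪x, u⟫ ^ 2 else 0) ∂P with hI
  have hint : ∀ h : EuclideanSpace ℝ (Fin d) → ℝ, Measurable h → (∀ x, |h x| ≤ ⟪x, u⟫ ^ 2) →
      Integrable h P := by
    intro h hm hle
    have : Integrable (fun x : EuclideanSpace ℝ (Fin d) => ⟪x, u⟫ ^ 2) P :=
      int_K hKc h0 (by fun_prop)
    exact this.mono' hm.aestronglyMeasurable (Filter.Eventually.of_forall hle)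
  have hmY : Measurable fun x : EuclideanSpace ℝ (Fin d) => ⟪x, u⟫ ^ 2 := (hcont.pow 2).measurable
  have hm1 : Measurable fun x : EuclideanSpace ℝ (Fin d) => if 0 ≤ ⟪x, u⟫ then ⟪x, u⟫ ^ 2 else 0 :=
    Measurable.ite (measurableSet_le measurable_const hcont.measurable) hmY measurable_const
  have hm2 : Measurable fun x : EuclideanSpace ℝ (Fin d) => if ⟪x, u⟫ ≤ 0 then ⟪x, u⟫ ^ 2 else 0 :=
    Measurable.ite (measurableSet_le hcont.measurable measurable_const) hmY measurable_const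
  have hi1 := hint _ hm1 (fun x => by
    split_ifs
    · rw [abs_of_nonneg (sq_nonneg _)]
    · rw [abs_zero]; positivity)
  have hi2 := hint _ hm2 (fun x => by
    split_ifs
    · rw [abs_of_nonneg (sq_nonneg _)]
    · rw [abs_zero]; positivity)
  have hTin : ∀ x, ⟪T x, u⟫ = -⟪x, u⟫ := by
    intro x
    rw [hTf, inner_sub_left, inner_smul_left, real_inner_self_eq_norm_sq, hu]
    simp only [RCLike.conj_to_real]
    ring
  have hI2 : ∫ x, (if ⟪x, u⟫ ≤ 0 then ⟪x, u⟫ ^ 2 else 0) ∂P = I := by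
    have h1 := integral_img hKc T _ hm2
    rw [hT] at h1
    rw [hP, h1, hI]
    congr 1
    ext x
    rw [hTin]
    simp only [neg_nonpos, neg_sq]
  have hI1 : 1 ≤ 2 * I := by
    have h1 := hiso u
    rw [hu, one_pow] at h1
    have h2 : ∫ z, ⟪z, u⟫ ^ 2 ∂P ≤ ∫ x, ((if 0 ≤ ⟪x, u⟫ then ⟪x, u⟫ ^ 2 else 0)
        + (if ⟪x, u⟫ ≤ 0 then ⟪x, u⟫ ^ 2 else 0)) ∂P := by
      refine integral_mono (int_K hKc h0 (by fun_prop)) (hi1.add hi2) fun x => ?_
      show ⟪x, u⟫ ^ 2 ≤ (if 0 ≤ ⟪x, u⟫ then ⟪x, u⟫ ^ 2 else 0)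
        + (if ⟪x, u⟫ ≤ 0 then ⟪x, u⟫ ^ 2 else 0)
      have := sq_nonneg ⟪x, u⟫
      rcases le_total 0 ⟪x, u⟫ with h | h
      · rw [if_pos h]
        split_ifs <;> linarith
      · rw [if_pos h]
        split_ifs <;> linarith
    rw [integral_add hi1 hi2, hI2, ← hI] at h2
    rw [hP] at h2
    linarith
  -- bound of `I`
  have hIb : I ≤ s ^ 2 * ∑ k ∈ Finset.range J, (2 * (k : ℝ) + 1) * b k := by
    have hind : ∀ k, Integrable ((S k).indicator fun _ => (1 : ℝ)) P := fun k =>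
      (integrable_const (1 : ℝ)).indicator (hSm k)
    have h1 : I ≤ ∫ x, s ^ 2 * ∑ k ∈ Finset.range J, (2 * (k : ℝ) + 1)
        * (S k).indicator (fun _ => (1 : ℝ)) x ∂P := by
      rw [hI]
      refine integral_mono_ae hi1 ((integrable_finsetSum _ fun k _ =>
        (hind k).const_mul _).const_mul _) ?_
      filter_upwards [mP_ae hKc.isClosed.measurableSet] with x hx
      have hnn : 0 ≤ s ^ 2 * ∑ k ∈ Finset.range J, (2 * (k : ℝ) + 1)
          * (S k).indicator (fun _ => (1 : ℝ)) x := by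
        refine mul_nonneg (sq_nonneg _) (Finset.sum_nonneg fun k _ => ?_)
        exact mul_nonneg (by positivity) (indicator_nonneg (fun _ _ => zero_le_one) _)
      split_ifs with hY
      · set j := ⌊⟪x, u⟫ / s⌋₊ with hj
        have hj1 : (j : ℝ) ≤ ⟪x, u⟫ / s := Nat.floor_le (by positivity)
        have hj2 : ⟪x, u⟫ / s < j + 1 := Nat.lt_floor_add_one _
        rw [le_div_iff₀ hs] at hj1
        rw [div_lt_iff₀ hs] at hj2
        have hjJ : j + 1 ≤ J := by
          have h3 : (j : ℝ) * s < J * s := lt_of_le_of_lt (hj1.trans (hYB x hx)) hJ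
          have h4 : (j : ℝ) < J := lt_of_mul_lt_mul_right h3 hs.le
          exact_mod_cast h4
        have hsum : ∀ n : ℕ, ∑ k ∈ Finset.range n, (2 * (k : ℝ) + 1) = (n : ℝ) ^ 2 := by
          intro n
          induction n with
          | zero => simp
          | succ n ih => rw [Finset.sum_range_succ, ih]; push_cast; ring
        calc ⟪x, u⟫ ^ 2 ≤ (((j : ℝ) + 1) * s) ^ 2 := by gcongr
          _ = s ^ 2 * ∑ k ∈ Finset.range (j + 1), (2 * (k : ℝ) + 1) := by
              rw [hsum]; push_cast; ring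
          _ = s ^ 2 * ∑ k ∈ Finset.range (j + 1), (2 * (k : ℝ) + 1)
              * (S k).indicator (fun _ => (1 : ℝ)) x := by
              congr 1
              refine Finset.sum_congr rfl fun k hk => ?_
              have hkj : (k : ℝ) ≤ j := by
                have := Finset.mem_range.mp hk
                exact_mod_cast (by omega : k ≤ j)
              have : x ∈ S k := ⟨hx, le_trans (mul_le_mul_of_nonneg_right hkj hs.le) hj1⟩
              rw [indicator_of_mem this, mul_one]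
          _ ≤ s ^ 2 * ∑ k ∈ Finset.range J, (2 * (k : ℝ) + 1)
              * (S k).indicator (fun _ => (1 : ℝ)) x := by
              refine mul_le_mul_of_nonneg_left ?_ (sq_nonneg s)
              refine Finset.sum_le_sum_of_subset_of_nonneg (Finset.range_mono hjJ) fun k _ _ => ?_
              exact mul_nonneg (by positivity) (indicator_nonneg (fun _ _ => zero_le_one) _)
      · exact hnn
    refine h1.trans (le_of_eq ?_)
    rw [integral_const_mul, integral_finsetSum _ fun k _ => (hind k).const_mul _]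
    congr 1
    refine Finset.sum_congr rfl fun k _ => ?_
    rw [integral_const_mul, integral_indicator (hSm k), setIntegral_const, smul_eq_mul, mul_one]
  -- conclusion
  have hdiff : P.real {x | x ∈ K ∧ 0 ≤ ⟪x, u⟫ ∧ ⟪x, u⟫ < s} = b 0 - b 1 := by
    have h1 : {x | x ∈ K ∧ 0 ≤ ⟪x, u⟫ ∧ ⟪x, u⟫ < s} = S 0 \ S 1 := by
      ext x
      simp only [hS, Set.mem_ofPred_eq, Set.mem_sdiff, Nat.cast_zero, zero_mul, Nat.cast_one,
        one_mul, not_and, not_le]
      constructor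
      · rintro ⟨h1, h2, h3⟩
        exact ⟨⟨h1, h2⟩, fun _ => h3⟩
      · rintro ⟨⟨h1, h2⟩, h3⟩
        exact ⟨h1, h2, h3 h1⟩
    rw [h1, measureReal_sdiff (by
      rintro x ⟨h2, h3⟩
      refine ⟨h2, le_trans ?_ h3⟩
      push_cast
      linarith) (hSm 1)]
  rw [hdiff]
  rcases (hb0 0).eq_or_lt with hz | hz
  · have := hb0 1
    rw [← hz]
    linarith
  set κ := b 1 / b 0 with hκ
  have hκ0 : 0 ≤ κ := div_nonneg (hb0 1) hz.le
  have hκ1 : κ ≤ 1 := (div_le_one hz).mpr (hmono 0)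
  have hκb : b 1 = κ * b 0 := by rw [hκ]; field_simp
  have hgeo := geomK b κ hκ0 hb0 hmono hlc hκb.le
  have hsum2 : (1 - κ) ^ 2 * ∑ k ∈ Finset.range J, (2 * (k : ℝ) + 1) * κ ^ k ≤ 2 := by
    rw [sum_odd]
    have h1 : 0 ≤ κ ^ J * ((2 * (J : ℝ) + 1) - (2 * J - 1) * κ) := by
      refine mul_nonneg (pow_nonneg hκ0 _) ?_
      have : (0 : ℝ) ≤ J := Nat.cast_nonneg J
      nlinarith
    linarith
  have hfinal : (1 - κ) ^ 2 ≤ 4 * s ^ 2 := by
    have h1 : ∑ k ∈ Finset.range J, (2 * (k : ℝ) + 1) * b k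
        ≤ ∑ k ∈ Finset.range J, (2 * (k : ℝ) + 1) * κ ^ k := by
      refine Finset.sum_le_sum fun k _ => ?_
      have h2 : b k ≤ κ ^ k := by
        refine (hgeo k).trans ?_
        exact mul_le_of_le_one_right (pow_nonneg hκ0 k) (hb1 0)
      gcongr
    have h3 : 0 ≤ (1 - κ) ^ 2 := sq_nonneg _
    calc (1 - κ) ^ 2 = (1 - κ) ^ 2 * 1 := by ring
      _ ≤ (1 - κ) ^ 2 * (2 * (s ^ 2 * ∑ k ∈ Finset.range J, (2 * (k : ℝ) + 1) * κ ^ k)) := by
          gcongr
          refine hI1.trans ?_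
          gcongr
          exact hIb.trans (by gcongr)
      _ = 2 * s ^ 2 * ((1 - κ) ^ 2 * ∑ k ∈ Finset.range J, (2 * (k : ℝ) + 1) * κ ^ k) := by ring
      _ ≤ 2 * s ^ 2 * 2 := by gcongr
      _ = _ := by ring
  have h5 : 1 - κ ≤ 2 * s := by
    have : (1 - κ) ^ 2 ≤ (2 * s) ^ 2 := by
      refine hfinal.trans (le_of_eq ?_)
      ring
    exact le_of_sq_le_sq this (by positivity)
  rw [hκb]
  have h6 : b 0 - κ * b 0 = (1 - κ) * b 0 := by ring
  rw [h6]
  have h7 : 0 ≤ 1 - κ := by linarith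
  calc (1 - κ) * b 0 ≤ (1 - κ) * 1 := by gcongr; exact hb1 0
    _ ≤ 2 * s := by linarith

end Pool.Agent.N555.RZ
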