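import Pool.Agent.N555.RZ.Refl

set_option autoImplicit false
set_option maxHeartbeats 4000000

/-!
Reflections, part 2: the second moment of the derivative.
-/

namespace Pool.Agent.N555.RZ

open MeasureTheory Set
open scoped ENNReal RealInnerProductSpace Pointwise
open Pool.Agent.TH591.Ns

variable {d : ℕ} {K : Set (EuclideanSpace ℝ (Fin d))}

theorem fderiv_hom (hK : Convex ℝ K) (hK0 : K ∈ nhds 0) (c : ℝ) (hc : 0 < c)
    (x v : EuclideanSpace ℝ (Fin d)) :
    fderiv ℝ (gauge K) (c • x) v = fderiv ℝ (gauge K) x v := by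
  have hg := isG_gauge hK hK0
  let A : EuclideanSpace ℝ (Fin d) ≃ₗ[ℝ] EuclideanSpace ℝ (Fin d) :=
    LinearEquiv.smulOfNeZero ℝ _ c hc.ne'
  have hA : ∀ x, A x = c • x := fun x => rfl
  have h1 : (gauge K) ∘ A.toContinuousLinearEquiv = c • gauge K := by
    ext x
    show gauge K (c • x) = c * gauge K x
    exact hg.smul c hc.le x
  have h2 := ContinuousLinearEquiv.comp_right_fderiv (𝕜 := ℝ) A.toContinuousLinearEquiv
    (f := gauge K) (x := x)
  rw [h1, fderiv_const_smul_field] at h2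
  have h3 := congrArg (fun f : EuclideanSpace ℝ (Fin d) →L[ℝ] ℝ => f v) h2
  have h4 : c * fderiv ℝ (gauge K) x v = fderiv ℝ (gauge K) (c • x) (c • v) := h3
  rw [map_smul, smul_eq_mul] at h4
  exact (mul_left_cancel₀ hc.ne' h4).symm

theorem N_nonneg (hK : Convex ℝ K) (hK0 : K ∈ nhds 0)
    (T : EuclideanSpace ℝ (Fin d) ≃ₗ[ℝ] EuclideanSpace ℝ (Fin d))
    (hT : T '' K = K) (u : EuclideanSpace ℝ (Fin d)) (hTu : T u = -u)
    (hTf : ∀ x, T x = x - (2 * ⟪x, u⟫) • u) (x : EuclideanSpace ℝ (Fin d)) (hx : 0 ≤ ⟪x, u⟫) :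
    0 ≤ fderiv ℝ (gauge K) x u := by
  have hg := isG_gauge hK hK0
  by_cases hd : DifferentiableAt ℝ (gauge K) x
  · rcases hx.eq_or_lt with h0 | h0
    · have h1 := fderiv_inv T hT x u
      have h2 : T x = x := by rw [hTf, ← h0]; simp
      rw [h2, hTu, map_neg] at h1
      linarith
    · have h1 := fderiv_le hg x (-((2 * ⟪x, u⟫) • u)) hd
      have h2 : x + -((2 * ⟪x, u⟫) • u) = T x := by rw [hTf, sub_eq_add_neg]
      rw [h2, gauge_inv T hT, sub_self, map_neg, map_smul, smul_eq_mul] at h1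
      have : 0 ≤ 2 * ⟪x, u⟫ * fderiv ℝ (gauge K) x u := by linarith
      exact nonneg_of_mul_nonneg_right this (by linarith)
  · rw [fderiv_zero_of_not_differentiableAt hd]
    simp

/-- the part of the half body which leaves the body under a translation -/
theorem shell (hK : Convex ℝ K) (hKc : IsCompact K) (hK0 : K ∈ nhds 0)
    (T : EuclideanSpace ℝ (Fin d) ≃ₗ[ℝ] EuclideanSpace ℝ (Fin d))
    (hT : T '' K = K) (u : EuclideanSpace ℝ (Fin d)) (hu : ‖u‖ = 1)
    (hTf : ∀ x, T x = x - (2 * ⟪x, u⟫) • u) (s : ℝ) (hs : 0 < s) :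
    (mP K).real {x | x ∈ K ∧ 0 ≤ ⟪x, u⟫ ∧ x + s • u ∉ K}
      ≤ (mP K).real {x | x ∈ K ∧ 0 ≤ ⟪x, u⟫ ∧ ⟪x, u⟫ < s} := by
  have h0 : volume K ≠ 0 := (Measure.measure_pos_of_mem_nhds volume hK0).ne'
  have hfin : volume K ≠ ⊤ := hKc.measure_lt_top.ne
  have hPr := mP_prob h0 hfin
  have hcont : Continuous fun x : EuclideanSpace ℝ (Fin d) => ⟪x, u⟫ := by fun_prop
  have hKm := hKc.isClosed.measurableSet
  set Kp : Set (EuclideanSpace ℝ (Fin d)) := {x | x ∈ K ∧ 0 ≤ ⟪x, u⟫} with hKp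
  set B : Set (EuclideanSpace ℝ (Fin d)) := {x | x ∈ K ∧ 0 ≤ ⟪x, u⟫ ∧ x + s • u ∈ K} with hB
  set C : Set (EuclideanSpace ℝ (Fin d)) := {x | x ∈ K ∧ s ≤ ⟪x, u⟫} with hC
  have hmh : MeasurableSet {x : EuclideanSpace ℝ (Fin d) | 0 ≤ ⟪x, u⟫} :=
    (isClosed_le continuous_const hcont).measurableSet
  have hKpm : MeasurableSet Kp := hKm.inter hmh
  have hBm : MeasurableSet B := by
    have h1 : MeasurableSet {x : EuclideanSpace ℝ (Fin d) | x + s • u ∈ K} :=
      (measurable_id.add_const (s • u)) hKm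
    exact hKm.inter (hmh.inter h1)
  have hCm : MeasurableSet C := hKm.inter (isClosed_le continuous_const hcont).measurableSet
  have hCB : (mP K).real C ≤ (mP K).real B := by
    rw [mP_real hCm (fun x hx => hx.1), mP_real hBm (fun x hx => hx.1)]
    have h1 : volume C ≤ volume B := by
      calc volume C = volume ((fun x => x + s • u) ⁻¹' C) := (measure_preimage_add_right _ _ _).symm
        _ ≤ volume B := by
          refine measure_mono ?_
          rintro x ⟨h1, h2⟩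
          have h3 : ⟪x + s • u, u⟫ = ⟪x, u⟫ + s := by
            rw [inner_add_left, inner_smul_left, real_inner_self_eq_norm_sq, hu]
            simp
          rw [h3] at h2
          have h4 : x ∈ K := by
            have := shift_mem hK T hT u hTf h1 s hs.le (by rw [h3]; linarith)
            rwa [add_sub_cancel_right] at this
          exact ⟨h4, by linarith, h1⟩
    have h2 := ENNReal.toReal_mono (ne_top_of_le_ne_top hfin (measure_mono fun x hx => hx.1)) h1
    gcongr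
  have e1 : {x | x ∈ K ∧ 0 ≤ ⟪x, u⟫ ∧ x + s • u ∉ K} = Kp \ B := by
    ext x
    simp only [hKp, hB, Set.mem_ofPred_eq, Set.mem_sdiff]
    tauto
  have e2 : {x | x ∈ K ∧ 0 ≤ ⟪x, u⟫ ∧ ⟪x, u⟫ < s} = Kp \ C := by
    ext x
    simp only [hKp, hC, Set.mem_ofPred_eq, Set.mem_sdiff, not_and, not_le]
    tauto
  have hBK : B ⊆ Kp := fun x hx => ⟨hx.1, hx.2.1⟩
  have hCK : C ⊆ Kp := fun x hx => ⟨hx.1, hs.le.trans hx.2⟩
  rw [e1, e2, measureReal_sdiff hBK hBm, measureReal_sdiff hCK hCm]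
  linarith

/-- weak type estimate -/
theorem weak (hd : 2 ≤ d) (hK : Convex ℝ K) (hKc : IsCompact K) (hK0 : K ∈ nhds 0)
    (hiso : ∀ w : EuclideanSpace ℝ (Fin d), ∫ z, ⟪z, w⟫ ^ 2 ∂(mP K) = ‖w‖ ^ 2)
    (T : EuclideanSpace ℝ (Fin d) ≃ₗ[ℝ] EuclideanSpace ℝ (Fin d))
    (hT : T '' K = K) (u : EuclideanSpace ℝ (Fin d)) (hu : ‖u‖ = 1)
    (hTf : ∀ x, T x = x - (2 * ⟪x, u⟫) • u) (θ : ℝ) (hθ : 0 < θ) :
    (mP K).real {x | x ∈ K ∧ 0 ≤ ⟪x, u⟫ ∧ θ ≤ fderiv ℝ (gauge K) x u} ≤ 4 / (d * θ) := by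
  have h0 : volume K ≠ 0 := (Measure.measure_pos_of_mem_nhds volume hK0).ne'
  have hfin : volume K ≠ ⊤ := hKc.measure_lt_top.ne
  have hPr := mP_prob h0 hfin
  have hg := isG_gauge hK hK0
  have hd' : (2 : ℝ) ≤ d := by exact_mod_cast hd
  have hcont : Continuous fun x : EuclideanSpace ℝ (Fin d) => ⟪x, u⟫ := by fun_prop
  have hKm := hKc.isClosed.measurableSet
  set s : ℝ := 1 / (d * θ) with hs
  have hs0 : 0 < s := by positivity
  set lam : ℝ := 1 - 1 / d with hlam
  have hlam0 : 0 < lam := by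
    rw [hlam]
    have : 1 / (d : ℝ) ≤ 1 / 2 := one_div_le_one_div_of_le (by norm_num) hd'
    linarith
  set S : Set (EuclideanSpace ℝ (Fin d)) :=
    {x | x ∈ K ∧ 0 ≤ ⟪x, u⟫ ∧ θ ≤ fderiv ℝ (gauge K) x u} with hS
  have hmh : MeasurableSet {x : EuclideanSpace ℝ (Fin d) | 0 ≤ ⟪x, u⟫} :=
    (isClosed_le continuous_const hcont).measurableSet
  have hSm : MeasurableSet S :=
    hKm.inter (hmh.inter (measurableSet_le measurable_const
      (measurable_fderiv_apply_const ℝ (gauge K) u)))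
  set S1 : Set (EuclideanSpace ℝ (Fin d)) := {x | x ∈ S ∧ gauge K x ≤ lam} with hS1
  have hS1m : MeasurableSet S1 := hSm.inter (hg.cont.measurable measurableSet_Iic)
  have hsub : S1 ⊆ lam • S := by
    rintro x ⟨⟨h1, h2, h3⟩, h4⟩
    refine ⟨lam⁻¹ • x, ⟨?_, ?_, ?_⟩, ?_⟩
    · refine mem_of_gauge hK hKc hK0 ?_
      rw [hg.smul _ (by positivity), inv_mul_le_iff₀ hlam0, mul_one]
      exact h4
    · rw [inner_smul_left]
      simp only [RCLike.conj_to_real]
      positivity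
    · rw [fderiv_hom hK hK0 _ (by positivity)]
      exact h3
    · show lam • lam⁻¹ • x = x
      rw [smul_smul, mul_inv_cancel₀ hlam0.ne', one_smul]
  have hpow : lam ^ d ≤ 1 / 2 := by
    have h1 := Real.one_sub_div_pow_le_exp_neg (n := d) (t := 1) (by linarith)
    have h2 : Real.exp (-1) ≤ 1 / 2 := by
      rw [Real.exp_neg, one_div]
      apply inv_anti₀ (by norm_num)
      have := Real.add_one_le_exp (1 : ℝ)
      linarith
    exact h1.trans h2
  have hhalf : (mP K).real S1 ≤ 1 / 2 * (mP K).real S := by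
    rw [mP_real hS1m (fun x hx => hx.1.1), mP_real hSm (fun x hx => hx.1)]
    have h1 : volume S1 ≤ ENNReal.ofReal (lam ^ d) * volume S := by
      refine (measure_mono hsub).trans (le_of_eq ?_)
      rw [Measure.addHaar_smul, finrank_euclideanSpace_fin, abs_of_pos (pow_pos hlam0 d)]
    have hSfin : volume S ≠ ⊤ := ne_top_of_le_ne_top hfin (measure_mono fun x hx => hx.1)
    have h2 := ENNReal.toReal_mono (ENNReal.mul_ne_top ENNReal.ofReal_ne_top hSfin) h1
    rw [ENNReal.toReal_mul, ENNReal.toReal_ofReal (pow_pos hlam0 d).le] at h2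
    have h3 : (volume S1).toReal ≤ 1 / 2 * (volume S).toReal :=
      h2.trans (by gcongr)
    rw [← mul_div_assoc]
    gcongr
  have hbig : S \ S1 ⊆ {x | x ∈ K ∧ 0 ≤ ⟪x, u⟫ ∧ x + s • u ∉ K} := by
    rintro x ⟨⟨h1, h2, h3⟩, h4⟩
    refine ⟨h1, h2, fun h5 => ?_⟩
    have h6 : lam < gauge K x := by
      by_contra hcon
      exact h4 ⟨⟨h1, h2, h3⟩, not_lt.mp hcon⟩
    have hdx : DifferentiableAt ℝ (gauge K) x := by
      by_contra hcon
      rw [fderiv_zero_of_not_differentiableAt hcon] at h3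
      simp only [zero_apply] at h3
      linarith
    have h7 := fderiv_le hg x (s • u) hdx
    rw [map_smul, smul_eq_mul] at h7
    have h8 := gauge_le_one hK hKc hK0 h5
    have h9 : s * θ ≤ s * fderiv ℝ (gauge K) x u := by gcongr
    have h10 : s * θ = 1 / d := by rw [hs]; field_simp
    rw [hlam] at h6
    linarith
  have h1 : (mP K).real (S \ S1) ≤ 2 * s :=
    (measureReal_mono hbig).trans ((shell hK hKc hK0 T hT u hu hTf s hs0).trans
      (slab_small hK hKc hK0 hiso T hT u hu hTf s hs0))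
  have hS1S : S1 ⊆ S := fun x hx => hx.1
  rw [measureReal_sdiff hS1S hS1m] at h1
  have h2 : 4 / (d * θ) = 4 * s := by rw [hs]; ring
  rw [h2]
  linarith

end Pool.Agent.N555.RZ
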