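import Pool.Agent.N555.RZ.Refl2

set_option autoImplicit false
set_option maxHeartbeats 4000000

/-!
Reflections, part 3: bodies with hyperplane symmetries are spread.
-/

namespace Pool.Agent.N555.RZ

open MeasureTheory Set
open scoped ENNReal RealInnerProductSpace Pointwise
open Pool.Agent.TH591.Ns

variable {d : ℕ} {K : Set (EuclideanSpace ℝ (Fin d))}

theorem int_pow (a : ℝ) (ha : 0 < a) (c : ℝ) :
    IntegrableOn (fun t : ℝ => c * t ^ (-(1 / 2) : ℝ)) (Ioc 0 (a ^ 2)) ∧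
    ∫ t in Ioc 0 (a ^ 2), c * t ^ (-(1 / 2) : ℝ) = c * (2 * a) := by
  have h0 : (0 : ℝ) ≤ a ^ 2 := sq_nonneg a
  have h1 : IntervalIntegrable (fun t : ℝ => t ^ (-(1 / 2) : ℝ)) volume 0 (a ^ 2) :=
    intervalIntegral.intervalIntegrable_rpow' (by norm_num)
  constructor
  · rw [← intervalIntegrable_iff_integrableOn_Ioc_of_le h0]
    exact h1.const_mul c
  · rw [← intervalIntegral.integral_of_le h0, intervalIntegral.integral_const_mul,
      integral_rpow (Or.inl (by norm_num))]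
    have e1 : (-(1 / 2) : ℝ) + 1 = 1 / 2 := by norm_num
    rw [e1, Real.zero_rpow (by norm_num), ← Real.sqrt_eq_rpow, Real.sqrt_sq ha.le]
    ring

open Classical in
theorem second (hd : 2 ≤ d) (hK : Convex ℝ K) (hKc : IsCompact K) (hK0 : K ∈ nhds 0)
    (a : ℝ) (ha : 1 ≤ a) (hsym : ∀ x, gauge K (-x) ≤ a * gauge K x)
    (hiso : ∀ w : EuclideanSpace ℝ (Fin d), ∫ z, ⟪z, w⟫ ^ 2 ∂(mP K) = ‖w‖ ^ 2)
    (T : EuclideanSpace ℝ (Fin d) ≃ₗ[ℝ] EuclideanSpace ℝ (Fin d))
    (hT : T '' K = K) (u : EuclideanSpace ℝ (Fin d)) (hu : ‖u‖ = 1) (hTu : T u = -u)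
    (hTf : ∀ x, T x = x - (2 * ⟪x, u⟫) • u) :
    ∫ z, (fderiv ℝ (gauge K) z u) ^ 2 ∂(mP K) ≤ 16 * a / d := by
  have h0 : volume K ≠ 0 := (Measure.measure_pos_of_mem_nhds volume hK0).ne'
  have hfin : volume K ≠ ⊤ := hKc.measure_lt_top.ne
  have hPr := mP_prob h0 hfin
  have ha0 : 0 < a := by linarith
  have hd' : (2 : ℝ) ≤ d := by exact_mod_cast hd
  have hcont : Continuous fun x : EuclideanSpace ℝ (Fin d) => ⟪x, u⟫ := by fun_prop
  have hKm := hKc.isClosed.measurableSet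
  have hNm : Measurable fun z => (fderiv ℝ (gauge K) z u) ^ 2 := meas_fd K u
  have hNa : ∀ z, (fderiv ℝ (gauge K) z u) ^ 2 ≤ a ^ 2 := by
    intro z
    have h1 := ga_norm hK hKc hK0 a ha hsym hiso z
    have h2 := abs_real_inner_le_norm (ga K a z) u
    rw [hu, mul_one, ga_inner, abs_mul, abs_inv, abs_of_pos ha0] at h2
    have h3 := h2.trans h1
    rw [inv_mul_le_iff₀ ha0, mul_one] at h3
    rw [← sq_abs]
    gcongr
  set f : EuclideanSpace ℝ (Fin d) → ℝ := fun z =>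
    if z ∈ K ∧ 0 ≤ ⟪z, u⟫ then (fderiv ℝ (gauge K) z u) ^ 2 else 0 with hf
  set f' : EuclideanSpace ℝ (Fin d) → ℝ := fun z =>
    if z ∈ K ∧ ⟪z, u⟫ ≤ 0 then (fderiv ℝ (gauge K) z u) ^ 2 else 0 with hf'
  have hmh : MeasurableSet {x : EuclideanSpace ℝ (Fin d) | x ∈ K ∧ 0 ≤ ⟪x, u⟫} :=
    hKm.inter (isClosed_le continuous_const hcont).measurableSet
  have hmh' : MeasurableSet {x : EuclideanSpace ℝ (Fin d) | x ∈ K ∧ ⟪x, u⟫ ≤ 0} :=
    hKm.inter (isClosed_le hcont continuous_const).measurableSet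
  have hfm : Measurable f := Measurable.ite hmh hNm measurable_const
  have hfm' : Measurable f' := Measurable.ite hmh' hNm measurable_const
  have hf0 : ∀ z, 0 ≤ f z := by
    intro z
    simp only [hf]
    split_ifs
    · positivity
    · exact le_rfl
  have hfa : ∀ z, f z ≤ a ^ 2 := by
    intro z
    simp only [hf]
    split_ifs
    · exact hNa z
    · positivity
  have hf0' : ∀ z, 0 ≤ f' z := by
    intro z
    simp only [hf']
    split_ifs
    · positivity
    · exact le_rfl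
  have hfa' : ∀ z, f' z ≤ a ^ 2 := by
    intro z
    simp only [hf']
    split_ifs
    · exact hNa z
    · positivity
  have hfi : Integrable f (mP K) := Integrable.of_bound hfm.aestronglyMeasurable (a ^ 2)
    (Filter.Eventually.of_forall fun z => by
      rw [Real.norm_of_nonneg (hf0 z)]; exact hfa z)
  have hfi' : Integrable f' (mP K) := Integrable.of_bound hfm'.aestronglyMeasurable (a ^ 2)
    (Filter.Eventually.of_forall fun z => by
      rw [Real.norm_of_nonneg (hf0' z)]; exact hfa' z)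
  have hNi : Integrable (fun z => (fderiv ℝ (gauge K) z u) ^ 2) (mP K) :=
    Integrable.of_bound hNm.aestronglyMeasurable (a ^ 2)
      (Filter.Eventually.of_forall fun z => by
        rw [Real.norm_of_nonneg (sq_nonneg _)]; exact hNa z)
  have hTin : ∀ x, ⟪T x, u⟫ = -⟪x, u⟫ := by
    intro x
    rw [hTf, inner_sub_left, inner_smul_left, real_inner_self_eq_norm_sq, hu]
    simp only [RCLike.conj_to_real]
    ring
  have hTK : ∀ x, T x ∈ K ↔ x ∈ K := by
    intro x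
    constructor
    · intro h
      rw [← hT] at h
      obtain ⟨y, hy, hyx⟩ := h
      rwa [← T.injective hyx]
    · intro h
      rw [← hT]
      exact ⟨x, h, rfl⟩
  have hTN : ∀ x, fderiv ℝ (gauge K) (T x) u = -fderiv ℝ (gauge K) x u := by
    intro x
    have h1 := fderiv_inv T hT x u
    rw [hTu, map_neg] at h1
    linarith
  have hff' : ∫ z, f' z ∂(mP K) = ∫ z, f z ∂(mP K) := by
    have h1 := integral_img hKc T _ hfm'
    rw [hT] at h1
    rw [h1]
    congr 1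
    ext x
    simp only [hf, hf', hTin, hTK, hTN, neg_nonpos, neg_sq]
  -- layer cake
  have hlc := hfi.integral_eq_integral_meas_le (Filter.Eventually.of_forall hf0)
  obtain ⟨hpi, hpv⟩ := int_pow a ha0 (4 / d)
  have hfb : ∫ z, f z ∂(mP K) ≤ 8 * a / d := by
    rw [hlc]
    have h1 : ∫ t in Ioi (0 : ℝ), (mP K).real {z | t ≤ f z}
        ≤ ∫ t in Ioi (0 : ℝ), (Ioc 0 (a ^ 2)).indicator
          (fun t : ℝ => 4 / d * t ^ (-(1 / 2) : ℝ)) t := by
      refine integral_mono_of_nonneg (Filter.Eventually.of_forall fun t => measureReal_nonneg) ?_ ?_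
      · rw [← IntegrableOn, integrableOn_indicator_iff measurableSet_Ioc]
        exact hpi.mono_set inter_subset_left
      · filter_upwards [ae_restrict_mem measurableSet_Ioi] with t ht
        rw [Set.mem_Ioi] at ht
        by_cases hta : t ≤ a ^ 2
        · have htI : t ∈ Ioc 0 (a ^ 2) := ⟨ht, hta⟩
          rw [indicator_of_mem htI]
          have hst : 0 < Real.sqrt t := Real.sqrt_pos.mpr ht
          have h2 := weak hd hK hKc hK0 hiso T hT u hu hTf (Real.sqrt t) hst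
          have h3 : {z | t ≤ f z}
              ⊆ {x | x ∈ K ∧ 0 ≤ ⟪x, u⟫ ∧ Real.sqrt t ≤ fderiv ℝ (gauge K) x u} := by
            intro z hz
            simp only [Set.mem_ofPred_eq, hf] at hz ⊢
            by_cases h4 : z ∈ K ∧ 0 ≤ ⟪z, u⟫
            · rw [if_pos h4] at hz
              refine ⟨h4.1, h4.2, ?_⟩
              have h5 := N_nonneg hK hK0 T hT u hTu hTf z h4.2
              exact (Real.sqrt_le_left h5).mpr hz
            · rw [if_neg h4] at hz
              linarith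
          refine (measureReal_mono h3).trans (h2.trans (le_of_eq ?_))
          rw [Real.rpow_neg ht.le, ← Real.sqrt_eq_rpow]
          field_simp
        · have h2 : {z | t ≤ f z} = ∅ := by
            ext z
            simp only [Set.mem_ofPred_eq, Set.mem_empty_iff_false, iff_false, not_le]
            push Not at hta
            exact lt_of_le_of_lt (hfa z) hta
          rw [h2, measureReal_empty]
          refine indicator_nonneg (fun t ht' => ?_) t
          have := ht'.1.le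
          positivity
    refine h1.trans (le_of_eq ?_)
    rw [setIntegral_indicator measurableSet_Ioc]
    have h3 : Ioi (0 : ℝ) ∩ Ioc 0 (a ^ 2) = Ioc 0 (a ^ 2) :=
      Set.inter_eq_self_of_subset_right fun t ht => ht.1
    rw [h3, hpv]
    ring
  calc ∫ z, (fderiv ℝ (gauge K) z u) ^ 2 ∂(mP K)
      ≤ ∫ z, (f z + f' z) ∂(mP K) := by
        refine integral_mono_ae hNi (hfi.add hfi') ?_
        filter_upwards [mP_ae hKm] with z hz
        show (fderiv ℝ (gauge K) z u) ^ 2 ≤ f z + f' z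
        rcases le_total 0 ⟪z, u⟫ with h | h
        · have : f z = (fderiv ℝ (gauge K) z u) ^ 2 := if_pos ⟨hz, h⟩
          rw [this]
          linarith [hf0' z]
        · have : f' z = (fderiv ℝ (gauge K) z u) ^ 2 := if_pos ⟨hz, h⟩
          rw [this]
          linarith [hf0 z]
    _ = ∫ z, f z ∂(mP K) + ∫ z, f' z ∂(mP K) := integral_add hfi hfi'
    _ ≤ 8 * a / d + 8 * a / d := by rw [hff']; gcongr
    _ = 16 * a / d := by ring

/-- the maximal eigenvector -/
theorem max_eig {Y : Type*} [MeasurableSpace Y] {ν : Measure Y} [IsFiniteMeasure ν]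
    {b : Y → EuclideanSpace ℝ (Fin d)} (hd : 1 ≤ d) (hb : Measurable b) (hb1 : ∀ t, ‖b t‖ ≤ 1) :
    ∃ w : EuclideanSpace ℝ (Fin d), ‖w‖ = 1 ∧ (∀ x, cov ν b x x ≤ cov ν b w w * ‖x‖ ^ 2) ∧
      ∀ y, cov ν b w y = cov ν b w w * ⟪w, y⟫ := by
  have : Nonempty (Fin d) := ⟨⟨0, hd⟩⟩
  have hne : (Metric.sphere (0 : EuclideanSpace ℝ (Fin d)) 1).Nonempty :=
    ⟨EuclideanSpace.single ⟨0, hd⟩ 1, by simp⟩
  obtain ⟨w, hw, hmax⟩ := (isCompact_sphere (0 : EuclideanSpace ℝ (Fin d)) 1).exists_isMaxOn hne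
    (cov_cont (ν := ν) hb hb1).continuousOn
  have hw1 : ‖w‖ = 1 := by simpa using hw
  set μ := cov ν b w w with hμ
  have hμ0 : 0 ≤ μ := cov_nonneg _
  have hle : ∀ x, cov ν b x x ≤ μ * ‖x‖ ^ 2 := by
    intro x
    by_cases hx : x = 0
    · subst hx
      have : cov ν b (0 : EuclideanSpace ℝ (Fin d)) 0 = 0 := by simp [cov]
      rw [this]; simp
    · have hn : 0 < ‖x‖ := norm_pos_iff.mpr hx
      have h1 : ‖x‖⁻¹ • x ∈ Metric.sphere (0 : EuclideanSpace ℝ (Fin d)) 1 := by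
        rw [mem_sphere_zero_iff_norm, norm_smul, norm_inv, norm_norm, inv_mul_cancel₀ hn.ne']
      have h2 : cov ν b (‖x‖⁻¹ • x) (‖x‖⁻¹ • x) ≤ μ := hmax h1
      rw [cov_smul, cov_symm, cov_smul] at h2
      have h3 : cov ν b x x = ‖x‖ ^ 2 * (‖x‖⁻¹ * (‖x‖⁻¹ * cov ν b x x)) := by
        field_simp
      rw [h3, mul_comm μ]
      gcongr
  refine ⟨w, hw1, hle, fun y => ?_⟩
  have h1 : (μ * ⟪w, y⟫ - cov ν b w y) ^ 2
      ≤ (μ * ‖w‖ ^ 2 - cov ν b w w) * (μ * ‖y‖ ^ 2 - cov ν b y y) := by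
    refine cs_of _ _ _ fun s => ?_
    have h1 := hle (w + s • y)
    rw [cov_quad hb hb1, norm_add_sq_real, inner_smul_right, norm_smul, mul_pow, Real.norm_eq_abs,
      sq_abs] at h1
    nlinarith
  have h2 : μ * ‖w‖ ^ 2 - cov ν b w w = 0 := by rw [hw1, ← hμ]; ring
  rw [h2, zero_mul] at h1
  have h3 : μ * ⟪w, y⟫ - cov ν b w y = 0 :=
    pow_eq_zero_iff (two_ne_zero) |>.mp (le_antisymm h1 (sq_nonneg _))
  linarith

/-- `K` is symmetric about a hyperplane, in the direction `u`. -/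
def IsRefl (K : Set (EuclideanSpace ℝ (Fin d))) (u : EuclideanSpace ℝ (Fin d)) : Prop :=
  ∃ T : EuclideanSpace ℝ (Fin d) ≃ₗ[ℝ] EuclideanSpace ℝ (Fin d),
    T '' K = K ∧ T u = -u ∧ ∀ x, ∃ c : ℝ, T x = x + c • u

theorem refl_iso (hd : 2 ≤ d) (hK : Convex ℝ K) (hKc : IsCompact K) (hK0 : K ∈ nhds 0)
    (a : ℝ) (ha : 1 ≤ a) (hsym : ∀ x, gauge K (-x) ≤ a * gauge K x)
    (hiso : ∀ w : EuclideanSpace ℝ (Fin d), ∫ z, ⟪z, w⟫ ^ 2 ∂(mP K) = ‖w‖ ^ 2)
    (hspan : Submodule.span ℝ {u | IsRefl K u} = ⊤) (x : EuclideanSpace ℝ (Fin d)) :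
    ∫ z, (fderiv ℝ (gauge K) z x) ^ 2 ∂(mP K) ≤ 16 * a / d * ‖x‖ ^ 2 := by
  have h0 : volume K ≠ 0 := (Measure.measure_pos_of_mem_nhds volume hK0).ne'
  have hfin : volume K ≠ ⊤ := hKc.measure_lt_top.ne
  have hPr := mP_prob h0 hfin
  have ha0 : 0 < a := by linarith
  have hN : ∀ y, ‖ga K a y‖ ≤ 1 := ga_norm hK hKc hK0 a ha hsym hiso
  have hAm : Measurable (ga K a) := ga_meas K a
  obtain ⟨w, hw1, hle, hw2⟩ := max_eig (ν := mP K) (b := ga K a) (by omega) hAm hN
  set μ := cov (mP K) (ga K a) w w with hμ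
  -- a reflecting vector which is not orthogonal to `w`
  obtain ⟨u, ⟨T, hT, hTu, hTx⟩, huw⟩ : ∃ u, IsRefl K u ∧ ⟪w, u⟫ ≠ 0 := by
    by_contra hcon
    push Not at hcon
    have h1 : Submodule.span ℝ {u | IsRefl K u} ≤ (ℝ ∙ w)ᗮ := by
      rw [Submodule.span_le]
      intro u hu
      rw [SetLike.mem_coe, Submodule.mem_orthogonal_singleton_iff_inner_right]
      exact hcon u hu
    rw [hspan] at h1
    have h2 : w ∈ (ℝ ∙ w)ᗮ := h1 trivial
    rw [Submodule.mem_orthogonal_singleton_iff_inner_right, real_inner_self_eq_norm_sq, hw1] at h2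
    norm_num at h2
  have hu0 : u ≠ 0 := by
    rintro rfl
    simp at huw
  have hun : 0 < ‖u‖ := norm_pos_iff.mpr hu0
  -- normalise
  set v := ‖u‖⁻¹ • u with hv
  have hv1 : ‖v‖ = 1 := by rw [hv, norm_smul, norm_inv, norm_norm, inv_mul_cancel₀ hun.ne']
  have hTv : T v = -v := by rw [hv, map_smul, hTu, smul_neg]
  have hTxv : ∀ x, ∃ c : ℝ, T x = x + c • v := by
    intro x
    obtain ⟨c, hc⟩ := hTx x
    refine ⟨c * ‖u‖, ?_⟩
    rw [hc, hv, smul_smul, mul_assoc, mul_inv_cancel₀ hun.ne', mul_one]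
  have hwv : ⟪w, v⟫ ≠ 0 := by
    rw [hv, inner_smul_right]
    exact mul_ne_zero (inv_ne_zero hun.ne') huw
  have hisoT : ∀ x, ‖T x‖ = ‖x‖ := fun x => isometry_of_iso hKc hiso T hT x
  have hTf := refl_formula T hisoT v hv1 hTv hTxv
  have hsec := second hd hK hKc hK0 a ha hsym hiso T hT v hv1 hTv hTf
  -- `v` is an eigenvector
  have hcovT : ∀ x y, cov (mP K) (ga K a) (T x) (T y) = cov (mP K) (ga K a) x y := by
    intro x y
    unfold cov
    have hc : Measurable fun t => ⟪ga K a t, T x⟫ * ⟪ga K a t, T y⟫ :=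
      (hAm.inner measurable_const).mul (hAm.inner measurable_const)
    have h1 := integral_img hKc T _ hc
    rw [hT] at h1
    rw [h1]
    congr 1
    ext t
    have : ∀ x, ⟪ga K a (T t), T x⟫ = ⟪ga K a t, x⟫ := fun x => by
      rw [ga_inner, ga_inner, fderiv_inv T hT]
    rw [this, this]
  have horth : ∀ y, ⟪y, v⟫ = 0 → cov (mP K) (ga K a) v y = 0 := by
    intro y hy
    have h1 := hcovT v y
    have h2 : T y = y := by rw [hTf, hy]; simp
    rw [h2, hTv, ← neg_one_smul ℝ v, cov_smul] at h1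
    linarith
  have hvw : cov (mP K) (ga K a) v w = ⟪w, v⟫ * cov (mP K) (ga K a) v v := by
    have h1 : w = ⟪w, v⟫ • v + (w - ⟪w, v⟫ • v) := by abel
    have h2 : ⟪w - ⟪w, v⟫ • v, v⟫ = 0 := by
      rw [inner_sub_left, inner_smul_left, real_inner_self_eq_norm_sq, hv1]
      simp
    have h3 : cov (mP K) (ga K a) v w
        = cov (mP K) (ga K a) v (⟪w, v⟫ • v) + cov (mP K) (ga K a) v (w - ⟪w, v⟫ • v) := by
      conv_lhs => rw [h1]
      rw [cov_symm, cov_add hAm hN, cov_symm, cov_symm (w - ⟪w, v⟫ • v)]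
    rw [h3, horth _ h2, add_zero, cov_symm, cov_smul]
  have hμv : μ = cov (mP K) (ga K a) v v := by
    have h1 := hw2 v
    rw [cov_symm, hvw, mul_comm] at h1
    exact (mul_right_cancel₀ hwv h1).symm
  have hμb : μ ≤ (a⁻¹) ^ 2 * (16 * a / d) := by
    rw [hμv, cov_ga]
    gcongr
  have hx := hle x
  rw [cov_ga] at hx
  have h5 : (a⁻¹) ^ 2 * ∫ z, (fderiv ℝ (gauge K) z x) ^ 2 ∂(mP K)
      ≤ (a⁻¹) ^ 2 * (16 * a / d * ‖x‖ ^ 2) := by
    refine hx.trans ?_
    rw [← mul_assoc]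
    gcongr
  exact le_of_mul_le_mul_left h5 (by positivity)

theorem refl_img (A : EuclideanSpace ℝ (Fin d) ≃ₗ[ℝ] EuclideanSpace ℝ (Fin d))
    {u : EuclideanSpace ℝ (Fin d)} (h : IsRefl K u) : IsRefl (A '' K) (A u) := by
  obtain ⟨T, hT, hTu, hTx⟩ := h
  refine ⟨A.symm.trans (T.trans A), conj_img A T hT, ?_, fun x => ?_⟩
  · simp [hTu]
  · obtain ⟨c, hc⟩ := hTx (A.symm x)
    refine ⟨c, ?_⟩
    simp [hc]

/-- **Hyperplane symmetries.** -/
theorem refl_spr (hd : 2 ≤ d) (hK : Convex ℝ K) (hKc : IsCompact K)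
    (hKi : 0 ∈ interior K) (a : ℝ) (ha : 1 ≤ a) (hsym : -K ⊆ a • K)
    (hspan : Submodule.span ℝ {u | IsRefl K u} = ⊤) : Spr K (d / (16 * a)) := by
  have hK0 : K ∈ nhds (0 : EuclideanSpace ℝ (Fin d)) := mem_interior_iff_mem_nhds.mp hKi
  obtain ⟨A, hA⟩ := exists_iso hKc hK0
  obtain ⟨hK1, hKc1, hKi1, hsym1⟩ := img_facts A hK hKc hKi a hsym
  have hK01 : A '' K ∈ nhds (0 : EuclideanSpace ℝ (Fin d)) := mem_interior_iff_mem_nhds.mp hKi1
  refine spr_of_img hKc A _ (spr_of_iso hA _ fun x => ?_)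
  have hspan1 : Submodule.span ℝ {u | IsRefl (A '' K) u} = ⊤ := by
    rw [eq_top_iff]
    intro y _
    have h1 : A.symm y ∈ Submodule.span ℝ {u | IsRefl K u} := by rw [hspan]; trivial
    have h2 : y = A (A.symm y) := by simp
    rw [h2]
    have h3 : A (A.symm y) ∈ (Submodule.span ℝ {u | IsRefl K u}).map
        (A : EuclideanSpace ℝ (Fin d) →ₗ[ℝ] EuclideanSpace ℝ (Fin d)) := ⟨_, h1, rfl⟩
    rw [Submodule.map_span] at h3
    refine Submodule.span_mono ?_ h3
    rintro _ ⟨u, hu, rfl⟩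
    exact refl_img A hu
  have h1 := refl_iso hd hK1 hKc1 hK01 a ha (gauge_neg_le hK1 hKc1 hK01 a ha hsym1) hA hspan1 x
  have ha0 : 0 < a := by linarith
  have hd' : (0 : ℝ) < d := by
    have : 0 < d := by omega
    exact_mod_cast this
  calc (d : ℝ) / (16 * a) * ∫ z, (fderiv ℝ (gauge (A '' K)) z x) ^ 2 ∂(mP (A '' K))
      ≤ (d : ℝ) / (16 * a) * (16 * a / d * ‖x‖ ^ 2) := by gcongr
    _ = ‖x‖ ^ 2 := by field_simp

end Pool.Agent.N555.RZ
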