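import Pool.Agent.N555.RZ.MainA

set_option autoImplicit false
set_option maxHeartbeats 4000000

/-!
The spread condition: no direction carries a large part of the derivative of the gauge.
-/

namespace Pool.Agent.N555.RZ

open MeasureTheory Set
open scoped ENNReal RealInnerProductSpace Pointwise
open Pool.Agent.TH591.Ns

variable {d : ℕ} {K : Set (EuclideanSpace ℝ (Fin d))}

/-- spread condition -/
def Spr (K : Set (EuclideanSpace ℝ (Fin d))) (D : ℝ) : Prop :=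
  ∀ w : EuclideanSpace ℝ (Fin d), w ≠ 0 → ∃ ψ : EuclideanSpace ℝ (Fin d) →L[ℝ] ℝ, ψ ≠ 0 ∧
    D * (∫ z, (fderiv ℝ (gauge K) z w) ^ 2 ∂(mP K)) * (∫ z, (ψ z) ^ 2 ∂(mP K)) ≤ (ψ w) ^ 2

theorem gauge_img (A : EuclideanSpace ℝ (Fin d) ≃ₗ[ℝ] EuclideanSpace ℝ (Fin d))
    (x : EuclideanSpace ℝ (Fin d)) : gauge (A '' K) (A x) = gauge K x := by
  rw [gauge_def', gauge_def']
  congr 1
  ext r
  simp only [Set.mem_ofPred_eq]
  refine and_congr_right fun _ => ?_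
  rw [← map_smul]
  constructor
  · intro h
    obtain ⟨y, hy, hyx⟩ := h
    rwa [← A.injective hyx]
  · intro h
    exact ⟨_, h, rfl⟩

theorem fderiv_img (A : EuclideanSpace ℝ (Fin d) ≃ₗ[ℝ] EuclideanSpace ℝ (Fin d))
    (y x : EuclideanSpace ℝ (Fin d)) :
    fderiv ℝ (gauge (A '' K)) (A y) (A x) = fderiv ℝ (gauge K) y x := by
  have h1 : (gauge (A '' K)) ∘ A.toContinuousLinearEquiv = gauge K := by
    ext x
    exact gauge_img A x
  have h2 := ContinuousLinearEquiv.comp_right_fderiv (𝕜 := ℝ) A.toContinuousLinearEquiv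
    (f := gauge (A '' K)) (x := y)
  rw [h1] at h2
  rw [h2]
  rfl

theorem meas_fd (K : Set (EuclideanSpace ℝ (Fin d))) (w : EuclideanSpace ℝ (Fin d)) :
    Measurable fun z => (fderiv ℝ (gauge K) z w) ^ 2 :=
  (measurable_fderiv_apply_const ℝ (gauge K) w).pow_const 2

theorem integral_img (hKc : IsCompact K)
    (A : EuclideanSpace ℝ (Fin d) ≃ₗ[ℝ] EuclideanSpace ℝ (Fin d))
    (h : EuclideanSpace ℝ (Fin d) → ℝ) (hh : Measurable h) :
    ∫ z, h z ∂(mP (A '' K)) = ∫ z, h (A z) ∂(mP K) := by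
  rw [← mP_map hKc.isClosed.measurableSet A,
    integral_map (equiv_meas A).aemeasurable hh.aestronglyMeasurable]

theorem spr_img (hKc : IsCompact K)
    (A : EuclideanSpace ℝ (Fin d) ≃ₗ[ℝ] EuclideanSpace ℝ (Fin d)) (D : ℝ) (h : Spr K D) :
    Spr (A '' K) D := by
  intro w hw
  obtain ⟨ψ, hψ, hD⟩ := h (A.symm w) (by simpa using hw)
  refine ⟨ψ.comp (A.symm.toContinuousLinearEquiv : _ →L[ℝ] _), ?_, ?_⟩
  · intro h0
    apply hψ
    ext x
    have := congrArg (fun f : EuclideanSpace ℝ (Fin d) →L[ℝ] ℝ => f (A x)) h0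
    simpa using this
  · rw [integral_img hKc A _ (meas_fd _ _), integral_img hKc A _ (by
      exact ((ContinuousLinearMap.continuous _).measurable.pow_const 2))]
    have e1 : ∀ z, fderiv ℝ (gauge (A '' K)) (A z) w = fderiv ℝ (gauge K) z (A.symm w) := by
      intro z
      rw [← fderiv_img A z (A.symm w), A.apply_symm_apply]
    simp only [e1]
    simpa using hD

theorem spr_of_img (hKc : IsCompact K)
    (A : EuclideanSpace ℝ (Fin d) ≃ₗ[ℝ] EuclideanSpace ℝ (Fin d)) (D : ℝ) (h : Spr (A '' K) D) :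
    Spr K D := by
  have h1 := spr_img (hKc.image A.toContinuousLinearEquiv.continuous) A.symm D h
  have e : A.symm '' (A '' K) = K := by
    ext x
    simp
  have e2 : A.symm '' (A.toContinuousLinearEquiv '' K) = K := e
  rw [e2] at h1
  exact h1

theorem spr_of_iso
    (hiso : ∀ w : EuclideanSpace ℝ (Fin d), ∫ z, ⟪z, w⟫ ^ 2 ∂(mP K) = ‖w‖ ^ 2) (D : ℝ)
    (h : ∀ x, D * ∫ z, (fderiv ℝ (gauge K) z x) ^ 2 ∂(mP K) ≤ ‖x‖ ^ 2) : Spr K D := by
  intro w hw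
  refine ⟨innerSL ℝ w, ?_, ?_⟩
  · intro h0
    have := congrArg (fun f : EuclideanSpace ℝ (Fin d) →L[ℝ] ℝ => f w) h0
    simp only [innerSL_apply_apply, zero_apply] at this
    exact hw (inner_self_eq_zero.mp this)
  · have e1 : ∫ z, (innerSL ℝ w z) ^ 2 ∂(mP K) = ‖w‖ ^ 2 := by
      rw [← hiso w]
      congr 1
      ext z
      rw [innerSL_apply_apply, real_inner_comm]
    rw [e1, innerSL_apply_apply, real_inner_self_eq_norm_sq]
    have := h w
    have h2 : 0 ≤ ‖w‖ ^ 2 := sq_nonneg _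
    nlinarith

theorem iso_of_spr
    (hiso : ∀ w : EuclideanSpace ℝ (Fin d), ∫ z, ⟪z, w⟫ ^ 2 ∂(mP K) = ‖w‖ ^ 2) (D : ℝ)
    (h : Spr K D) (x : EuclideanSpace ℝ (Fin d)) :
    D * ∫ z, (fderiv ℝ (gauge K) z x) ^ 2 ∂(mP K) ≤ ‖x‖ ^ 2 := by
  by_cases hx : x = 0
  · subst hx
    simp
  obtain ⟨ψ, hψ, hD⟩ := h x hx
  set v := (InnerProductSpace.toDual ℝ (EuclideanSpace ℝ (Fin d))).symm ψ with hv
  have hψv : ∀ z, ψ z = ⟪v, z⟫ := fun z => by
    rw [hv, InnerProductSpace.toDual_symm_apply]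
  have hv0 : v ≠ 0 := by
    intro h0
    apply hψ
    ext z
    rw [hψv, h0, inner_zero_left]
    rfl
  have e1 : ∫ z, (ψ z) ^ 2 ∂(mP K) = ‖v‖ ^ 2 := by
    rw [← hiso v]
    congr 1
    ext z
    rw [hψv, real_inner_comm]
  rw [e1, hψv] at hD
  have hpos : 0 < ‖v‖ ^ 2 := by positivity
  have h3 : ⟪v, x⟫ ^ 2 ≤ ‖v‖ ^ 2 * ‖x‖ ^ 2 := by
    have := abs_real_inner_le_norm v x
    calc ⟪v, x⟫ ^ 2 = |⟪v, x⟫| ^ 2 := (sq_abs _).symm
      _ ≤ (‖v‖ * ‖x‖) ^ 2 := by gcongr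
      _ = _ := by ring
  have h4 := hD.trans h3
  have h5 : ‖v‖ ^ 2 * (D * ∫ z, (fderiv ℝ (gauge K) z x) ^ 2 ∂(mP K)) ≤ ‖v‖ ^ 2 * ‖x‖ ^ 2 := by
    linarith
  exact le_of_mul_le_mul_left h5 hpos

theorem cov_ga (a : ℝ) (x : EuclideanSpace ℝ (Fin d)) :
    cov (mP K) (ga K a) x x = (a⁻¹) ^ 2 * ∫ z, (fderiv ℝ (gauge K) z x) ^ 2 ∂(mP K) := by
  unfold cov
  rw [← integral_const_mul]
  congr 1
  ext z
  rw [ga_inner]
  ring

/-- conjugation of the symmetries -/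
theorem conj_img (A T : EuclideanSpace ℝ (Fin d) ≃ₗ[ℝ] EuclideanSpace ℝ (Fin d))
    (hT : T '' K = K) : (A.symm.trans (T.trans A)) '' (A '' K) = A '' K := by
  ext x
  simp only [Set.mem_image, LinearEquiv.trans_apply]
  constructor
  · rintro ⟨_, ⟨k, hk, rfl⟩, rfl⟩
    refine ⟨T k, ?_, by simp⟩
    rw [← hT]
    exact ⟨k, hk, rfl⟩
  · rintro ⟨k, hk, rfl⟩
    rw [← hT] at hk
    obtain ⟨k', hk', rfl⟩ := hk
    exact ⟨A k', ⟨k', hk', rfl⟩, by simp⟩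

theorem gauge_neg_le (hK : Convex ℝ K) (hKc : IsCompact K) (hK0 : K ∈ nhds 0) (a : ℝ) (ha : 1 ≤ a)
    (h : -K ⊆ a • K) (x : EuclideanSpace ℝ (Fin d)) : gauge K (-x) ≤ a * gauge K x := by
  have hg := isG_gauge hK hK0
  have ha0 : 0 < a := by linarith
  refine le_of_forall_pos_le_add fun ε hε => ?_
  set l := gauge K x + ε / a with hl
  have hl0 : 0 < l := by
    have := hg.nonneg x
    positivity
  have h1 : x ∈ l • K := by
    rw [mem_smul_iff hK hKc hK0 l hl0]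
    have : 0 ≤ ε / a := by positivity
    linarith
  obtain ⟨k, hk, hkx⟩ := h1
  have hkx' : l • k = x := hkx
  have h2 : -k ∈ a • K := h (Set.neg_mem_neg.mpr hk)
  rw [mem_smul_iff hK hKc hK0 a ha0] at h2
  have h3 : gauge K (-x) = l * gauge K (-k) := by
    rw [← hg.smul l hl0.le, smul_neg, hkx']
  rw [h3]
  calc l * gauge K (-k) ≤ l * a := by gcongr
    _ = a * gauge K x + ε := by
        rw [hl]
        field_simp

/-- facts about linear images -/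
theorem img_facts (A : EuclideanSpace ℝ (Fin d) ≃ₗ[ℝ] EuclideanSpace ℝ (Fin d))
    (hK : Convex ℝ K) (hKc : IsCompact K) (hKi : 0 ∈ interior K) (a : ℝ) (hsym : -K ⊆ a • K) :
    Convex ℝ (A '' K) ∧ IsCompact (A '' K) ∧ 0 ∈ interior (A '' K) ∧ -(A '' K) ⊆ a • (A '' K) := by
  have hAc : Continuous A := A.toContinuousLinearEquiv.continuous
  refine ⟨?_, hKc.image hAc, ?_, ?_⟩
  · have := hK.linear_image A.toLinearMap
    exact this
  · have hint : interior (A '' K) = A '' interior K :=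
      (A.toContinuousLinearEquiv.toHomeomorph.image_interior K).symm
    rw [hint]
    exact ⟨0, hKi, map_zero A⟩
  · intro x hx
    rw [Set.mem_neg] at hx
    obtain ⟨k, hk, hkx⟩ := hx
    have h1 : -k ∈ a • K := hsym (Set.neg_mem_neg.mpr hk)
    obtain ⟨k', hk', hkk⟩ := h1
    refine ⟨A k', ⟨k', hk', rfl⟩, ?_⟩
    show a • A k' = x
    rw [← map_smul]
    have : a • k' = -k := hkk
    rw [this, map_neg, hkx, neg_neg]

/-- **Groups without small invariant subspaces.** -/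
theorem group_spr (D : ℕ) (hd : 1 ≤ d) (hK : Convex ℝ K) (hKc : IsCompact K)
    (hKi : 0 ∈ interior K) (a : ℝ) (ha : 1 ≤ a) (hsym : -K ⊆ a • K)
    (G : Set (EuclideanSpace ℝ (Fin d) ≃ₗ[ℝ] EuclideanSpace ℝ (Fin d)))
    (hGK : ∀ T ∈ G, T '' K = K)
    (hG : ∀ W : Submodule ℝ (EuclideanSpace ℝ (Fin d)), W ≠ ⊥ →
      (∀ T ∈ G, ∀ x ∈ W, T x ∈ W) → D ≤ Module.finrank ℝ W) : Spr K (D / a ^ 2) := by
  have hK0 : K ∈ nhds (0 : EuclideanSpace ℝ (Fin d)) := mem_interior_iff_mem_nhds.mp hKi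
  obtain ⟨A, hA⟩ := exists_iso hKc hK0
  obtain ⟨hK1, hKc1, hKi1, hsym1⟩ := img_facts A hK hKc hKi a hsym
  have hK01 : A '' K ∈ nhds (0 : EuclideanSpace ℝ (Fin d)) := mem_interior_iff_mem_nhds.mp hKi1
  refine spr_of_img hKc A _ (spr_of_iso hA _ fun x => ?_)
  have hG1 : ∀ W : Submodule ℝ (EuclideanSpace ℝ (Fin d)), W ≠ ⊥ →
      (∀ T ∈ (fun T : EuclideanSpace ℝ (Fin d) ≃ₗ[ℝ] EuclideanSpace ℝ (Fin d) =>
      A.symm.trans (T.trans A)) '' G, ∀ x ∈ W, T x ∈ W) → D ≤ Module.finrank ℝ W := by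
    intro W hW hinv
    set W1 : Submodule ℝ (EuclideanSpace ℝ (Fin d)) :=
      W.map (A.symm : EuclideanSpace ℝ (Fin d) →ₗ[ℝ] EuclideanSpace ℝ (Fin d)) with hW1
    have hfr : Module.finrank ℝ W1 = Module.finrank ℝ W := LinearEquiv.finrank_map_eq A.symm W
    rw [← hfr]
    refine hG W1 ?_ ?_
    · intro hbot
      apply hW
      rw [hW1] at hbot
      exact Submodule.map_eq_bot_iff.mp hbot
    · intro T hT x hx
      rw [hW1, Submodule.mem_map] at hx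
      obtain ⟨w, hw, rfl⟩ := hx
      rw [hW1, Submodule.mem_map]
      refine ⟨A (T (A.symm w)), ?_, ?_⟩
      · exact hinv _ ⟨T, hT, rfl⟩ w hw
      · simp
  have h1 := group_cov D hd hK1 hKc1 hK01 a ha (gauge_neg_le hK1 hKc1 hK01 a ha hsym1) hA
    ((fun T : EuclideanSpace ℝ (Fin d) ≃ₗ[ℝ] EuclideanSpace ℝ (Fin d) =>
      A.symm.trans (T.trans A)) '' G) (by
      rintro _ ⟨T, hT, rfl⟩
      exact conj_img A T (hGK T hT)) hG1 x
  rw [cov_ga] at h1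
  have ha0 : 0 < a := by linarith
  calc (D : ℝ) / a ^ 2 * ∫ z, (fderiv ℝ (gauge (A '' K)) z x) ^ 2 ∂(mP (A '' K))
      = D * ((a⁻¹) ^ 2 * ∫ z, (fderiv ℝ (gauge (A '' K)) z x) ^ 2 ∂(mP (A '' K))) := by
        field_simp
    _ ≤ _ := h1

end Pool.Agent.N555.RZ
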