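import Pool.Agent.N555.RZ.Spread
import Pool.Agent.Results.MP_eba1ef_gt.AsymmetricThinSlabs

set_option autoImplicit false
set_option maxHeartbeats 4000000

/-!
The main theorem in general position.
-/

namespace Pool.Agent.N555.RZ

open MeasureTheory Set
open scoped ENNReal RealInnerProductSpace Pointwise
open Pool.Agent.TH591.Ns

variable {d : ℕ} {K : Set (EuclideanSpace ℝ (Fin d))}

theorem log_num (d : ℕ) (hd : 2 ≤ d) :
    19 * (d : ℝ) * Real.log (2 * d ^ 2 + 2 * d + 1) ≤ ((d : ℝ) + 1) ^ 6 := by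
  have hd' : (2 : ℝ) ≤ d := by exact_mod_cast hd
  have h1 : Real.log (2 * (d : ℝ) ^ 2 + 2 * d + 1) ≤ 2 * d * (d + 1) := by
    have := Real.log_le_sub_one_of_pos (show 0 < 2 * (d : ℝ) ^ 2 + 2 * d + 1 by positivity)
    linarith
  have h2 : 38 * (d : ℝ) ^ 2 ≤ ((d : ℝ) + 1) ^ 5 := by
    rcases Nat.lt_or_ge d 3 with h | h
    · have : d = 2 := by omega
      subst this
      norm_num
    · have hd3 : (3 : ℝ) ≤ d := by exact_mod_cast h
      have h3 : (64 : ℝ) ≤ ((d : ℝ) + 1) ^ 3 := by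
        calc (64 : ℝ) = (3 + 1) ^ 3 := by norm_num
          _ ≤ _ := by gcongr
      calc 38 * (d : ℝ) ^ 2 ≤ 64 * ((d : ℝ) + 1) ^ 2 := by nlinarith
        _ ≤ ((d : ℝ) + 1) ^ 3 * ((d : ℝ) + 1) ^ 2 := by gcongr
        _ = _ := by ring
  calc 19 * (d : ℝ) * Real.log (2 * d ^ 2 + 2 * d + 1) ≤ 19 * d * (2 * d * (d + 1)) := by gcongr
    _ = 38 * (d : ℝ) ^ 2 * (d + 1) := by ring
    _ ≤ ((d : ℝ) + 1) ^ 5 * (d + 1) := by gcongr
    _ = _ := by ring

theorem log_ge_one (d : ℕ) (hd : 2 ≤ d) : 1 ≤ Real.log ((d : ℝ) + 1) := by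
  have hd' : (2 : ℝ) ≤ d := by exact_mod_cast hd
  rw [Real.le_log_iff_exp_le (by positivity)]
  have := Real.exp_one_lt_d9
  linarith

/-- the covering of a linear image -/
theorem cover_trans (A : EuclideanSpace ℝ (Fin d) ≃ₗ[ℝ] EuclideanSpace ℝ (Fin d))
    (h : ∃ T : Finset (EuclideanSpace ℝ (Fin d)),
      A '' K ⊆ ⋃ t ∈ T, (fun x => t + x) '' interior (A '' K) ∧ T.card < 2 ^ d) :
    ∃ T : Finset (EuclideanSpace ℝ (Fin d)),
      K ⊆ ⋃ t ∈ T, (fun x => t + x) '' interior K ∧ T.card < 2 ^ d := by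
  classical
  obtain ⟨T, hT, hcard⟩ := h
  refine ⟨T.image A.symm, ?_, lt_of_le_of_lt Finset.card_image_le hcard⟩
  intro x hx
  have h1 := hT ⟨x, hx, rfl⟩
  simp only [Set.mem_iUnion, Set.mem_image] at h1 ⊢
  obtain ⟨t, ht, y, hy, hxy⟩ := h1
  have h2 : interior (A '' K) = A '' interior K :=
    (A.toContinuousLinearEquiv.toHomeomorph.image_interior K).symm
  rw [h2] at hy
  obtain ⟨x', hx', rfl⟩ := hy
  refine ⟨A.symm t, Finset.mem_image_of_mem _ ht, x', hx', ?_⟩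
  apply A.injective
  rw [map_add, A.apply_symm_apply, hxy]

/-- The dichotomy: covering or cube-like sign patterns. -/
theorem mainA (n : ℕ) (D : ℝ) (hd : 2 ≤ d) (hn : 1 ≤ n) (hK : Convex ℝ K) (hKc : IsCompact K)
    (hKi : 0 ∈ interior K) (a : ℝ) (ha : 1 ≤ a) (hsym : -K ⊆ a • K) (hspr : Spr K D)
    (hD : 10 ^ 64 * (n : ℝ) ^ 4 * a ^ 8 * Real.log (d + 1) ^ 10 ≤ D) :
    (∃ T : Finset (EuclideanSpace ℝ (Fin d)),
      K ⊆ ⋃ t ∈ T, (fun x => t + x) '' interior K ∧ T.card < 2 ^ d) ∨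
    ∃ φ : Fin n → EuclideanSpace ℝ (Fin d) →L[ℝ] ℝ, (∀ i, ∀ x ∈ K, φ i x ≤ 1) ∧
      ∀ δ : Fin n → Bool, ∃ z ∈ K, ∀ i,
        1 / (10 ^ 10 * a * Real.log (d + 1) ^ 2) ≤ sg (δ i) * φ i z := by
  have hK0 : K ∈ nhds (0 : EuclideanSpace ℝ (Fin d)) := mem_interior_iff_mem_nhds.mp hKi
  obtain ⟨A, hA⟩ := exists_iso hKc hK0
  have hd' : (2 : ℝ) ≤ d := by exact_mod_cast hd
  have hℓ := log_ge_one d hd
  set ℓ := Real.log ((d : ℝ) + 1) with hℓ'
  have hℓ0 : 0 < ℓ := by linarith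
  obtain ⟨hK1, hKc1, hKi1, hsym1⟩ := img_facts A hK hKc hKi a hsym
  have hK01 : A '' K ∈ nhds (0 : EuclideanSpace ℝ (Fin d)) := mem_interior_iff_mem_nhds.mp hKi1
  have hsym2 := gauge_neg_le hK1 hKc1 hK01 a ha hsym1
  set ρ : ℝ := 1 / (46080 * ℓ) with hρ
  have hρ0 : 0 < ρ := by positivity
  by_cases hflat : Pool.Agent.Results.MP_eba1ef_gt.AsymmetricThinSlabs.flatness (A '' K) ≤ ρ
  · left
    apply cover_trans A
    obtain ⟨T, hT1, -, hT2⟩ :=
      (Pool.Agent.Results.MP_eba1ef_gt.AsymmetricThinSlabs.result d hd (A '' K) hK1 hKc1 hKi1).2.1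
        ρ hρ0 hflat
    refine ⟨T, hT1, hT2 ?_⟩
    have e1 : 1 / (7680 * ρ) = 6 * ℓ := by
      rw [hρ]
      field_simp
      norm_num
    have e2 : Real.exp (-(6 * ℓ)) = (((d : ℝ) + 1) ^ 6)⁻¹ := by
      rw [Real.exp_neg, hℓ', mul_comm, ← Real.rpow_def_of_pos (by positivity)]
      norm_cast
    rw [e1, e2, ← div_eq_mul_inv, div_le_one (by positivity)]
    exact log_num d hd
  · right
    push Not at hflat
    have ha0 : 0 < a := by linarith
    have hcov : ∀ x, (a ^ 2 * D) * cov (mP (A '' K)) (ga (A '' K) a) x x ≤ ‖x‖ ^ 2 := by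
      intro x
      have h1 := iso_of_spr hA D (spr_img hKc A D hspr) x
      rw [cov_ga]
      refine le_trans (le_of_eq ?_) h1
      field_simp
    have hD1 : 10 ^ 17 * (n : ℝ) ^ 4 * a ^ 10 ≤ (a ^ 2 * D) * ρ ^ 10 := by
      have h1 : ρ ^ 10 = 1 / (46080 ^ 10 * ℓ ^ 10) := by
        rw [hρ, div_pow, one_pow, mul_pow]
      rw [h1, mul_one_div, le_div_iff₀ (by positivity)]
      have h2 : a ^ 2 * (10 ^ 64 * (n : ℝ) ^ 4 * a ^ 8 * ℓ ^ 10) ≤ a ^ 2 * D := by gcongr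
      refine le_trans ?_ h2
      have : 0 ≤ (n : ℝ) ^ 4 * (a ^ 10 * ℓ ^ 10) := by positivity
      nlinarith
    obtain ⟨φ, hφ1, hφ2⟩ := mainA_iso n (a ^ 2 * D) hn hK1 hKc1 hK01 a ha hsym2 hA hcov ρ hρ0
      hflat.le hD1
    refine ⟨fun i => (φ i).comp (A.toContinuousLinearEquiv : _ →L[ℝ] _), fun i x hx => ?_,
      fun δ => ?_⟩
    · exact hφ1 i (A x) ⟨x, hx, rfl⟩
    · obtain ⟨_, ⟨z, hz, rfl⟩, h⟩ := hφ2 δ
      refine ⟨z, hz, fun i => le_trans ?_ (h i)⟩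
      rw [hρ, div_pow, one_pow, div_div]
      apply one_div_le_one_div_of_le (by positivity)
      have : 0 ≤ a * ℓ ^ 2 := by positivity
      nlinarith

/-- sign patterns give a cube -/
theorem cube_of_signs (n : ℕ) (hK : Convex ℝ K) (hKc : IsCompact K) (a c : ℝ)
    (ha : 0 < a) (hsym : -K ⊆ a • K)
    (φ : Fin n → EuclideanSpace ℝ (Fin d) →L[ℝ] ℝ) (h1 : ∀ i, ∀ x ∈ K, φ i x ≤ 1)
    (h2 : ∀ δ : Fin n → Bool, ∃ z ∈ K, ∀ i, c ≤ sg (δ i) * φ i z) :
    ∃ p : EuclideanSpace ℝ (Fin d) →L[ℝ] EuclideanSpace ℝ (Fin n),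
      (∀ y : EuclideanSpace ℝ (Fin n), (∀ i, |y i| ≤ c) → y ∈ p '' K) ∧
      ∀ x ∈ K, ∀ i, -a ≤ p x i ∧ p x i ≤ 1 := by
  let p : EuclideanSpace ℝ (Fin d) →L[ℝ] EuclideanSpace ℝ (Fin n) :=
    ((EuclideanSpace.equiv (Fin n) ℝ).symm : (Fin n → ℝ) →L[ℝ] EuclideanSpace ℝ (Fin n)).comp
      (ContinuousLinearMap.pi φ)
  have hp : ∀ x i, p x i = φ i x := fun x i => rfl
  refine ⟨p, fun y hy => ?_, fun x hx i => ?_⟩
  · by_contra hcon
    have hc1 : Convex ℝ (p '' K) := by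
      have := hK.linear_image p.toLinearMap
      exact this
    have hc2 : IsClosed (p '' K) := (hKc.image p.continuous).isClosed
    obtain ⟨f, u, hf1, hf2⟩ := geometric_hahn_banach_closed_point hc1 hc2 hcon
    have hexp : ∀ w : EuclideanSpace ℝ (Fin n), f w = ∑ i, w i * f (EuclideanSpace.single i 1) := by
      intro w
      have hw : w = ∑ i, w i • EuclideanSpace.single i (1 : ℝ) := by
        ext j
        simp [Pi.single_apply]
      conv_lhs => rw [hw]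
      rw [map_sum]
      refine Finset.sum_congr rfl fun i _ => ?_
      rw [map_smul, smul_eq_mul]
    set lam : Fin n → ℝ := fun i => f (EuclideanSpace.single i 1) with hlam
    obtain ⟨z, hz, hzi⟩ := h2 fun i => decide (0 ≤ lam i)
    have h3 := hf1 (p z) ⟨z, hz, rfl⟩
    have h4 : f y ≤ f (p z) := by
      rw [hexp y, hexp (p z)]
      refine Finset.sum_le_sum fun i _ => ?_
      have h5 := hzi i
      rw [hp]
      change y i * lam i ≤ φ i z * lam i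
      have h6 := abs_le.mp (hy i)
      by_cases h7 : 0 ≤ lam i
      · simp only [h7, decide_true, sg, if_true, one_mul] at h5
        have : y i ≤ φ i z := by linarith
        gcongr
      · have h8 : decide (0 ≤ lam i) = false := by simpa using h7
        rw [h8] at h5
        simp only [sg, Bool.false_eq_true, if_false] at h5
        have : φ i z ≤ y i := by linarith
        exact mul_le_mul_of_nonpos_right this (by linarith)
    linarith
  · rw [hp]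
    refine ⟨?_, h1 i x hx⟩
    obtain ⟨k, hk, hkx⟩ := hsym (Set.neg_mem_neg.mpr hx)
    have h5 := h1 i k hk
    have h6 : a * φ i k = - φ i x := by
      rw [← smul_eq_mul, ← map_smul, ← map_neg]
      congr 1
    nlinarith

end Pool.Agent.N555.RZ
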